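import Pool.Agent.H72.PB.OrbA

/-!
# Module OrbB: conjugates and polynomials

* `dg_le_of_poly`: if `P ≠ 0` has coefficients in `L` and `P(y) = 0`, all conjugates `ρ y` (`ρ` fixes `L`,
  hence the coefficients) are roots of `P`: at most `natDegree P` of them.
* `orb_poly_mem`: the coefficients of `∏_{x ∈ Orb L y} (X - x)` are fixed by every automorphism fixing `L`
  (it permutes `Orb L y`), so they lie in `L` (`mem_of_fixed`, file `H72/RM/Defs.lean`).
* `natDegree_le_dg`: this polynomial, as a polynomial over `L`, is monic of degree `dg L y` and vanishes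
  at `y`, so `minpoly L y` divides it.
-/

set_option autoImplicit false
set_option linter.unusedSectionVars false

open NumberField IntermediateField Polynomial

namespace Pool.Agent.H72.PB

variable {K Ω : Type} [Field K] [Field Ω] [Algebra K Ω]

theorem dg_le_of_poly {L : IntermediateField K Ω} {y : Ω} (P : Polynomial Ω) (hP : P ≠ 0)
    (hc : ∀ i, P.coeff i ∈ L) (h0 : P.eval y = 0) : dg L y ≤ P.natDegree := by
  classical
  have hsub : Orb L y ⊆ (P.roots.toFinset : Set Ω) := by
    rintro x ⟨ρ, hρ, rfl⟩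
    rw [Finset.mem_coe, Multiset.mem_toFinset, mem_roots hP, IsRoot.def]
    have hmap : P.map (ρ : Ω →+* Ω) = P := by
      ext i
      rw [coeff_map]
      exact hρ _ (hc i)
    have h1 : (P.map (ρ : Ω →+* Ω)).eval ((ρ : Ω →+* Ω) y) = (ρ : Ω →+* Ω) (P.eval y) :=
      Polynomial.eval_map_apply _ _
    rw [hmap, h0, map_zero] at h1
    exact h1
  unfold dg
  have h1 := Set.ncard_le_ncard hsub (Finset.finite_toSet _)
  rw [Set.ncard_coe_finset] at h1
  exact h1.trans ((Multiset.toFinset_card_le _).trans (card_roots' P))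

theorem orb_poly_mem [IsGalois K Ω] {L : IntermediateField K Ω} {y : Ω} (V : Finset Ω)
    (hV : (V : Set Ω) = Orb L y) (i : ℕ) : (∏ x ∈ V, (X - C x)).coeff i ∈ L := by
  classical
  refine Pool.Agent.H72.RM.mem_of_fixed L _ fun σ hσ => ?_
  have himg : V.image σ = V := by
    refine Finset.eq_of_subset_of_card_le ?_ ?_
    · intro z hz
      obtain ⟨x, hx, rfl⟩ := Finset.mem_image.1 hz
      have hx' : x ∈ Orb L y := by rw [← hV]; exact hx
      have := orb_fix σ hσ hx'
      rw [← hV] at this
      exact this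
    · rw [Finset.card_image_of_injective _ σ.injective]
  have h1 : (∏ x ∈ V, (X - C x)).map (σ : Ω →+* Ω) = ∏ x ∈ V, (X - C x) := by
    rw [Polynomial.map_prod]
    conv_rhs => rw [← himg, Finset.prod_image fun a _ b _ hab => σ.injective hab]
    refine Finset.prod_congr rfl fun x _ => ?_
    rw [Polynomial.map_sub, map_X, map_C]
    rfl
  have h2 := congrArg (fun P : Polynomial Ω => P.coeff i) h1
  simp only [coeff_map] at h2
  exact h2

theorem natDegree_le_dg [IsGalois K Ω] (L : IntermediateField K Ω) (y : Ω) :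
    (minpoly L y).natDegree ≤ dg L y := by
  classical
  have hfin := orb_finite L y
  obtain ⟨V, hV⟩ : ∃ V : Finset Ω, (V : Set Ω) = Orb L y := ⟨hfin.toFinset, hfin.coe_toFinset⟩
  have hlift : (∏ x ∈ V, (X - C x)) ∈ Polynomial.lifts (algebraMap L Ω) := by
    rw [Polynomial.lifts_iff_coeff_lifts]
    intro n
    exact ⟨⟨_, orb_poly_mem V hV n⟩, rfl⟩
  obtain ⟨Q, hQ⟩ := (Polynomial.mem_lifts _).1 hlift
  have hdeg : Q.natDegree = dg L y := by
    have h1 : (Q.map (algebraMap L Ω)).natDegree = Q.natDegree := natDegree_map _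
    rw [← h1, hQ, natDegree_finsetProd_X_sub_C_eq_card]
    unfold dg
    rw [← hV, Set.ncard_coe_finset]
  have hQ0 : Q ≠ 0 := by
    rintro rfl
    rw [Polynomial.map_zero] at hQ
    exact (Finset.prod_ne_zero_iff.2 fun x _ => X_sub_C_ne_zero x) hQ.symm
  have hy : y ∈ V := by
    have h1 := orb_self L y
    rw [← hV] at h1
    exact h1
  have hev : aeval y Q = 0 := by
    rw [aeval_def, ← eval_map, hQ, eval_prod]
    exact Finset.prod_eq_zero hy (by rw [eval_sub, eval_X, eval_C, sub_self])
  rw [← hdeg]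
  exact natDegree_le_of_dvd (minpoly.dvd L y hev) hQ0

end Pool.Agent.H72.PB
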