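import Pool.Agent.H4.RR.AbsHeight

/-!
# Module HNonneg: the absolute height is nonnegative
-/

set_option autoImplicit false

open NumberField IntermediateField

namespace Pool.Agent.H72.PB

theorem ht_nonneg {Ω : Type} [Field Ω] [CharZero Ω] (x : Ω) : 0 ≤ absLogHeight₁ x := by
  by_cases hx : IsIntegral ℚ x
  · have h1 : FiniteDimensional ℚ (IntermediateField.adjoin ℚ {x}) :=
      IntermediateField.adjoin.finiteDimensional hx
    have h2 : NumberField (IntermediateField.adjoin ℚ {x}) := {}
    have h3 := Pool.Agent.H4.RR.absLogHeight_eq (IntermediateField.adjoin ℚ {x}) Ω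
      (IntermediateField.val (IntermediateField.adjoin ℚ {x})).toRingHom
      (IntermediateField.AdjoinSimple.gen ℚ x)
    have h4 : (IntermediateField.val (IntermediateField.adjoin ℚ {x})).toRingHom
      (IntermediateField.AdjoinSimple.gen ℚ x) = x := rfl
    rw [h4] at h3
    rw [h3]
    exact div_nonneg (Height.zero_le_logHeight₁ _) (Nat.cast_nonneg _)
  · have h : absLogHeight₁ x = 0 := by
      unfold absLogHeight₁ absMulHeight₁
      rw [dif_neg hx, Real.log_one]
    rw [h]

end Pool.Agent.H72.PB
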