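import Pool.Agent.H72.RG.SData

/-!
# Definitions (MP_187c26_nt, relative Dobrowolski bound over `K(b^(1/N₁ S^∞))`, modules H72 PB)

`Orb L y` = the conjugates of `y` over `L`, `dg L y` their number (= the degree of `y` over `L`).
`TP p L y`: no conjugate of `y` over `L` is `ω y` with `ω ≠ 1` a root of unity of `p`-power order.
`SX`: the data of `SData` (file `H72/RG/SData.lean`) with explicit constants in `loc`.
-/

set_option autoImplicit false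
set_option linter.unusedSectionVars false

open NumberField IntermediateField

namespace Pool.Agent.H72.PB

open Pool.Agent.H72.RM Pool.Agent.H72.RG

section

variable {K Ω : Type} [Field K] [Field Ω] [Algebra K Ω]

/-- the conjugates of `y` over `L` -/
def Orb (L : IntermediateField K Ω) (y : Ω) : Set Ω :=
  {x | ∃ ρ : Ω ≃ₐ[K] Ω, (∀ z ∈ L, ρ z = z) ∧ ρ y = x}

/-- the number of conjugates of `y` over `L` -/
noncomputable def dg (L : IntermediateField K Ω) (y : Ω) : ℕ := (Orb L y).ncard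

/-- no conjugate of `y` over `L` is `ω y` with `ω ≠ 1` of `p`-power order -/
def TP (p : ℕ) (L : IntermediateField K Ω) (y : Ω) : Prop :=
  ∀ (ω : Ω) (k : ℕ), ω ^ (p ^ k) = 1 → ω * y ∈ Orb L y → ω = 1

end

/-- the data at `p` with explicit constants -/
structure SX (K Ω : Type) [Field K] [Field Ω] [Algebra K Ω] (p : ℕ) [Fact p.Prime] (C : Type)
    [NormedField C] [NormedAlgebra ℚ_[p] C] {r : ℕ} (b : Fin r → K) (ι : Ω →+* C) (h₀ J : ℕ) :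
    Prop where
  ne : ∀ i, b i ≠ 0
  ind : ∀ N : ℕ, 1 ≤ N → ∀ (m : Fin r → ℤ) (y : K), y ^ N = ∏ i, (b i) ^ (m i) →
    ∀ i, (N : ℤ) ∣ m i
  h_ge : 2 ≤ h₀
  cyc : ∀ m : ℕ, ∃ σ : Ω ≃ₐ[K] Ω, ∀ ζ : Ω, ζ ^ (p ^ m) = 1 → σ ζ = ζ ^ h₀
  loc : ∀ e n : ℕ, r * e + 3 ≤ n → ∀ n' N₀ : ℕ,
    1 ≤ n' → 1 ≤ N₀ → ¬ p ∣ n' → ¬ p ∣ N₀ →
    ∃ (τ : C ≃ₐ[ℚ_[p]] C) (θ : Ω ≃ₐ[K] Ω), (∀ x : Ω, ι (θ x) = τ (ι x)) ∧
      (∀ x ∈ Lf b (RF Ω b n' N₀) (p ^ n) (p ^ (n + J)), θ x = x) ∧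
      (∀ ζ : Ω, IsPrimitiveRoot ζ (p ^ (n + J + 1)) → θ ζ ≠ ζ) ∧
      ∀ x ∈ Lf b (RF Ω b n' N₀) (p ^ (n + e)) (p ^ (n + e + J + 1)), x ≠ 0 →
        ‖τ (ι x) / ι x - 1‖ ≤
          Real.exp (-(Real.log p / (2 * (p : ℝ) ^ (J + 1 + e + r * e))))

theorem SX.toSData {K Ω : Type} [Field K] [Field Ω] [Algebra K Ω] {p : ℕ} [Fact p.Prime]
    {C : Type} [NormedField C] [NormedAlgebra ℚ_[p] C] {r : ℕ} {b : Fin r → K} {ι : Ω →+* C}
    {h₀ J : ℕ} (D : SX K Ω p C b ι h₀ J) : SData K Ω p C b ι h₀ J := by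
  have hp : p.Prime := Fact.out
  refine ⟨D.ne, D.ind, D.h_ge, D.cyc, fun e => ?_⟩
  refine ⟨Real.exp (-(Real.log p / (2 * (p : ℝ) ^ (J + 1 + e + r * e)))), Real.exp_pos _, ?_,
    r * e + 3, fun n hn => D.loc e n hn⟩
  rw [Real.exp_lt_one_iff, neg_lt_zero]
  have h1 : (1 : ℝ) < p := by exact_mod_cast hp.one_lt
  have h2 : 0 < Real.log p := Real.log_pos h1
  positivity

end Pool.Agent.H72.PB
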