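import Pool.Agent.H4.RR.AbsHeight
import Pool.Agent.H72.PB.Defs

/-!
# Module HTwist: the height of `γ h(y)`

`γ h(y) = h (h⁻¹(γ) y)`, and `h` does not change the height (`Pool.Agent.H4.RR.absLogHeight_eq_of_minpoly_eq`: equal
minimal polynomials over `ℚ`, `minpoly.algEquiv_eq` with `h` restricted to scalars `ℚ`, or
`minpoly.algHom_eq`). `(h⁻¹ γ)^k = γ^k` for some `k ≥ 1`, so `(h⁻¹(γ) y)^k = (γ y)^k`, and
`absLogHeight_pow` gives `k * h(h⁻¹(γ) y) = k * h(γ y)`. All elements of `Ω` are integral over `ℚ` (`Ω / K` and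
`K / ℚ` algebraic).
-/

set_option autoImplicit false
set_option linter.unusedSectionVars false

open NumberField IntermediateField

namespace Pool.Agent.H72.PB

variable {K Ω : Type} [Field K] [NumberField K] [Field Ω] [CharZero Ω] [IsAlgClosed Ω]
  [Algebra K Ω] [IsGalois K Ω]

theorem int_all (K : Type) {Ω : Type} [Field K] [NumberField K] [Field Ω] [CharZero Ω]
    [Algebra K Ω] [IsGalois K Ω] (x : Ω) : IsIntegral ℚ x := by
  have h1 : IsIntegral K x := Algebra.IsIntegral.isIntegral x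
  exact isIntegral_trans x h1

theorem height_map (h : Ω ≃ₐ[K] Ω) (x : Ω) : absLogHeight₁ (h x) = absLogHeight₁ x := by
  apply Pool.Agent.H4.RR.absLogHeight_eq_of_minpoly_eq Ω (h x) x (int_all K _)
  exact minpoly.algEquiv_eq (h.restrictScalars ℚ) x

theorem height_twist (γ y : Ω)
    (hγ : ∀ θ : Ω ≃ₐ[K] Ω, ∃ k : ℕ, 1 ≤ k ∧ (θ γ) ^ k = γ ^ k) (h : Ω ≃ₐ[K] Ω) :
    absLogHeight₁ (γ * h y) = absLogHeight₁ (γ * y) := by
  obtain ⟨k, hk, hpow⟩ := hγ h.symm
  have e1 : γ * h y = h (h.symm γ * y) := by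
    rw [map_mul, AlgEquiv.apply_symm_apply]
  rw [e1, height_map]
  have e2 : (h.symm γ * y) ^ k = (γ * y) ^ k := by
    rw [mul_pow, mul_pow, hpow]
  have e3 := Pool.Agent.H4.RR.absLogHeight_pow Ω (h.symm γ * y) (int_all K _) k
  have e4 := Pool.Agent.H4.RR.absLogHeight_pow Ω (γ * y) (int_all K _) k
  rw [e2, e4] at e3
  have hk0 : (k : ℝ) ≠ 0 := by
    have : 0 < k := hk
    positivity
  exact (mul_left_cancel₀ hk0 e3).symm

end Pool.Agent.H72.PB
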