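import Pool.Agent.H72.RG.LocalFin

/-!
# Module LocX: the local theorem with explicit constants

Exactly the proof of `local_fin` in `Pool/Agent/H72/RG/LocalFin.lean` (read it): there
`ρ = exp (-(t/2))`, `t = log p / p^(J + e + r e)`, `n₀ = r e + 3`. Copy the proof with these values
(`t / 2 = log p / (2 p^(J+e+r e))`).
-/

set_option autoImplicit false
set_option linter.unusedSectionVars false

open IntermediateField

namespace Pool.Agent.H72.PB

open Pool.Agent.H72.RM Pool.Agent.H72.RG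

variable {p : ℕ} [Fact p.Prime] {C : Type} [NormedField C] [NormedAlgebra ℚ_[p] C]
  [IsUltrametricDist C] [IsAlgClosed C] [Algebra.IsAlgebraic ℚ_[p] C] [IsoEnv p C]

theorem local_fin_x (X : IntermediateField (Wnr p C) C) [FiniteDimensional (Wnr p C) X]
    [Normal (Wnr p C) X] {r : ℕ} (b : Fin r → C) (hb : ∀ i, b i ∈ X) (hb0 : ∀ i, b i ≠ 0)
    (hb1 : ∀ i, ‖b i‖ ≤ 1) (htor : ∀ (i : Fin r) (n : ℕ), 1 ≤ n → b i ^ n ≠ 1) :
    ∃ J : ℕ, 1 ≤ J ∧ ∀ e n : ℕ, r * e + 3 ≤ n →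
      ∀ N₀ : ℕ, ¬ p ∣ N₀ → ∀ w : Fin r → C, (∀ i, w i ^ N₀ = b i) →
      ∀ z : C, IsPrimitiveRoot z (p ^ (n + J + e)) → ∀ y : Fin r → C,
      (∀ i, y i ^ (p ^ (n + e)) = b i) →
      ∃ g : C ≃ₐ[ℚ_[p]] C, (∀ ω ∈ tame p C, g ω = ω) ∧ (∀ x ∈ X, g x = x) ∧
        (∀ i, g (w i) = w i) ∧ g (z ^ (p ^ (e + 1))) = z ^ (p ^ (e + 1)) ∧
        (∀ i, g (y i ^ (p ^ e)) = y i ^ (p ^ e)) ∧ g (z ^ (p ^ e)) ≠ z ^ (p ^ e) ∧
        ∀ u ∈ CF X (Set.range w ∪ ({z} ∪ Set.range y)), u ≠ 0 →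
          ‖g u / u - 1‖ ≤ Real.exp (-(Real.log p / (2 * (p : ℝ) ^ (J + e + r * e)))) := by
  have hp : p.Prime := Fact.out
  obtain ⟨J, hJ, hmain⟩ := local_main X b hb hb0 hb1 htor
  refine ⟨J, hJ, ?_⟩
  intro e n hn N₀ hN₀ w hw z hz y hy
  have hp2 : 2 ≤ p := hp.two_le
  have hpr : (1 : ℝ) < p := by exact_mod_cast hp.one_lt
  have hlog : 0 < Real.log p := Real.log_pos hpr
  set A : ℕ := J + e + r * e with hA
  have hpA : (0 : ℝ) < (p : ℝ) ^ A := by positivity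
  set t : ℝ := Real.log p / (p : ℝ) ^ A with ht
  have ht0 : 0 < t := div_pos hlog hpA
  have ht2 : Real.log p / (2 * (p : ℝ) ^ A) = t / 2 := by
    rw [ht]; field_simp
  rw [ht2]
  obtain ⟨g₀, htame, hX, hgw, hgz, hgy, hmove, hclose⟩ :=
    hmain e n N₀ (by omega) hN₀ w hw z hz y hy
  have hze : IsPrimitiveRoot (z ^ (p ^ e)) (p ^ (n + J)) := by
    refine hz.pow (pow_pos hp.pos _) ?_
    rw [← pow_add]
    congr 1
    omega
  have h1 : g₀ ((z ^ (p ^ e)) ^ (p ^ J)) = (z ^ (p ^ e)) ^ (p ^ J) := by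
    have h2 : (z ^ (p ^ e)) ^ (p ^ J) = z ^ (p ^ (J + e)) := by
      rw [← pow_mul, ← pow_add, add_comm e J]
    rw [h2]
    exact hgz
  obtain ⟨i, hi1, hi2⟩ := pow_trick p n J (by omega) hJ (z ^ (p ^ e)) hze g₀ h1 hmove
  have hfix : ∀ x : C, g₀ x = x → (g₀ ^ i) x = x := by
    intro x hx
    induction i with
    | zero => rfl
    | succ k ih =>
      clear ih hi1 hi2
      induction k with
      | zero => simpa using hx
      | succ k ih =>
        rw [pow_succ, AlgEquiv.mul_apply, hx]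
        exact ih
  refine ⟨g₀ ^ i, fun ω hω => hfix ω (htame ω hω), fun x hx => hfix x (hX x hx),
    fun j => hfix _ (hgw j), ?_, fun j => hfix _ (hgy j), hi2, ?_⟩
  · have h2 : (z ^ (p ^ e)) ^ p = z ^ (p ^ (e + 1)) := by
      rw [← pow_mul, pow_succ]
    rw [h2] at hi1
    exact hi1
  intro u hu hu0
  set S : Set C := Set.range w ∪ ({z} ∪ Set.range y) with hS
  have hzS : z ∈ CF X S := by
    refine IntermediateField.subset_adjoin (Wnr p C) _ ?_
    exact Or.inr (Or.inr (Or.inl rfl))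
  set N : ℕ := p ^ (n + J + e - 1) * (p - 1) with hN
  have hnorm : ‖z - 1‖ ^ N = 1 / (p : ℝ) := norm_zeta_sub_one (n + J + e) (by omega) z hz
  have hNpos : 0 < N := Nat.mul_pos (pow_pos hp.pos _) (by omega)
  have hl0 : z - 1 ≠ 0 := by
    intro h0
    rw [h0, norm_zero, zero_pow hNpos.ne'] at hnorm
    have : (0 : ℝ) < 1 / (p : ℝ) := by positivity
    linarith
  have hlpos : 0 < ‖z - 1‖ := norm_pos_iff.2 hl0
  have hl1 : ‖z - 1‖ < 1 := by
    by_contra hge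
    have h2 : (1 : ℝ) ≤ ‖z - 1‖ ^ N := one_le_pow₀ (not_lt.1 hge)
    rw [hnorm] at h2
    have h3 : 1 / (p : ℝ) < 1 := by
      rw [div_lt_one (by positivity)]
      exact hpr
    linarith
  have hNle : 2 * (p : ℝ) ^ A ≤ N := by
    have h2 : 2 * p ^ A ≤ N := by
      have h3 : p ^ (A + 2) ≤ p ^ (n + J + e - 1) := Nat.pow_le_pow_right hp.pos (by omega)
      have h4 : p ^ (A + 2) = p ^ A * (p * p) := by rw [pow_add]; ring
      have h5 : 2 ≤ p * p := by nlinarith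
      have h6 : p ^ A * 2 ≤ p ^ A * (p * p) := Nat.mul_le_mul_left _ h5
      have h7 : p ^ (n + J + e - 1) ≤ N := Nat.le_mul_of_pos_right _ (by omega)
      omega
    exact_mod_cast h2
  have hB : Real.exp (-t) ≤ Real.exp (-(t / 2)) * ‖z - 1‖ := by
    have hNr : (0 : ℝ) < N := by exact_mod_cast hNpos
    have h2 : (N : ℝ) * Real.log ‖z - 1‖ = -Real.log p := by
      rw [← Real.log_pow, hnorm, one_div, Real.log_inv]
    have h3 : ‖z - 1‖ = Real.exp (-(Real.log p / N)) := by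
      have h4 : Real.log ‖z - 1‖ = -(Real.log p / N) := by
        field_simp
        linarith
      rw [← h4, Real.exp_log hlpos]
    rw [h3, ← Real.exp_add]
    apply Real.exp_le_exp.2
    have h5 : Real.log p / N ≤ t / 2 := by
      rw [ht, div_div, div_le_div_iff_of_pos_left hlog hNr (by positivity)]
      linarith
    linarith
  refine mul_close ((CF X S).restrictScalars ℚ_[p]) (g₀ ^ i) (Real.exp (-t))
    (Real.exp (-(t / 2))) (z - 1) ?_ hl0 hl1 hB ?_ ?_ u hu hu0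
  · exact sub_mem hzS (one_mem _)
  · rw [Real.exp_lt_one_iff]; linarith
  · intro v hv hv1
    exact mul_close_pow g₀ v _ (Real.exp_pos _).le (hclose v hv hv1) i

end Pool.Agent.H72.PB
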