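import Pool.Agent.H72.RG.GlobLoc
import Pool.Agent.H72.RG.IndAll
import Pool.Agent.H72.PB.LocX
import Pool.Agent.H72.PB.Defs

/-!
# Module GlobX: the data `SX` exist

`glob_loc_x`: exactly the proof of `glob_loc` in `Pool/Agent/H72/RG/GlobLoc.lean` (read it) with
`local_fin_x` in place of `local_fin`; `J = J' - 1`, so `J' + e + r e = J + 1 + e + r e`.
`sx_of`: exactly the proof of `sdata_of` in `Pool/Agent/H72/RG/Final.lean`, but with hypothesis `hind0`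
directly (for `htor`: if `b i ^ k = 1`, `k ≥ 1`, then `1 = 1^N`.. : apply `hind0 N` with `N = k + 1`,
`m = Pi.single i k`, `y = 1`: `1^N = b i ^ k`, so `(k + 1) ∣ k`, a contradiction).
-/

set_option autoImplicit false
set_option linter.unusedSectionVars false

open NumberField IntermediateField

namespace Pool.Agent.H72.PB

open Pool.Agent.H72.RM Pool.Agent.H72.RG

section

variable {p : ℕ} [Fact p.Prime] {C : Type} [NormedField C] [NormedAlgebra ℚ_[p] C]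
  [IsUltrametricDist C] [IsAlgClosed C] [Algebra.IsAlgebraic ℚ_[p] C] [IsoEnv p C]
  {K Ω : Type} [Field K] [NumberField K] [Field Ω] [CharZero Ω] [IsAlgClosed Ω] [Algebra K Ω]
  [IsGalois K Ω] {r : ℕ}

theorem glob_loc_x (ι : Ω →+* C) (b : Fin r → K) (hb0 : ∀ i, b i ≠ 0)
    (htor : ∀ (i : Fin r) (k : ℕ), 1 ≤ k → b i ^ k ≠ 1) :
    ∃ h₀ J : ℕ, 2 ≤ h₀ ∧
      (∀ m : ℕ, ∃ σ : Ω ≃ₐ[K] Ω, ∀ ζ : Ω, ζ ^ (p ^ m) = 1 → σ ζ = ζ ^ h₀) ∧
      ∀ e n : ℕ, r * e + 3 ≤ n → ∀ n' N₀ : ℕ,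
        1 ≤ n' → 1 ≤ N₀ → ¬ p ∣ n' → ¬ p ∣ N₀ →
        ∃ (τ : C ≃ₐ[ℚ_[p]] C) (θ : Ω ≃ₐ[K] Ω), (∀ x : Ω, ι (θ x) = τ (ι x)) ∧
          (∀ x ∈ Lf b (RF Ω b n' N₀) (p ^ n) (p ^ (n + J)), θ x = x) ∧
          (∀ ζ : Ω, IsPrimitiveRoot ζ (p ^ (n + J + 1)) → θ ζ ≠ ζ) ∧
          ∀ x ∈ Lf b (RF Ω b n' N₀) (p ^ (n + e)) (p ^ (n + e + J + 1)), x ≠ 0 →
            ‖τ (ι x) / ι x - 1‖ ≤
              Real.exp (-(Real.log p / (2 * (p : ℝ) ^ (J + 1 + e + r * e)))) := by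
  classical
  have hp : p.Prime := Fact.out
  have : CharZero C := charZero_C p C
  have hιinj : Function.Injective ι := ι.injective
  obtain ⟨X, hXfd, hXn, hX0⟩ := local_X (p := p) (C := C) K (ι.comp (algebraMap K Ω))
  have hX : ∀ x : K, ι (algebraMap K Ω x) ∈ X := hX0
  obtain ⟨h₀, hh, hcyc⟩ := local_cyc X
  have hsgn : ∀ i, ∃ b' : C, (b' = ι (algebraMap K Ω (b i)) ∨ b' = (ι (algebraMap K Ω (b i)))⁻¹) ∧
      ‖b'‖ ≤ 1 := by
    intro i
    by_cases h : ‖ι (algebraMap K Ω (b i))‖ ≤ 1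
    · exact ⟨_, Or.inl rfl, h⟩
    · refine ⟨_, Or.inr rfl, ?_⟩
      rw [norm_inv]
      exact inv_le_one_of_one_le₀ (le_of_lt (not_le.1 h))
  choose b' hb' hb'1 using hsgn
  have hc0 : ∀ i, ι (algebraMap K Ω (b i)) ≠ 0 := by
    intro i h
    rw [map_eq_zero, map_eq_zero] at h
    exact hb0 i h
  have hb'0 : ∀ i, b' i ≠ 0 := by
    intro i
    rcases hb' i with h | h
    · rw [h]; exact hc0 i
    · rw [h]; exact inv_ne_zero (hc0 i)
  have hb'X : ∀ i, b' i ∈ X := by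
    intro i
    rcases hb' i with h | h
    · rw [h]; exact hX _
    · rw [h]; exact inv_mem (hX _)
  have hb't : ∀ (i : Fin r) (k : ℕ), 1 ≤ k → b' i ^ k ≠ 1 := by
    intro i k hk h1
    apply htor i k hk
    have h2 : ι (algebraMap K Ω (b i)) ^ k = 1 := by
      rcases hb' i with h | h
      · rw [← h]; exact h1
      · rw [h, inv_pow, inv_eq_one] at h1
        exact h1
    rw [← map_pow, ← map_pow, map_eq_one_iff _ hιinj,
      map_eq_one_iff _ (algebraMap K Ω).injective] at h2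
    exact h2
  obtain ⟨J', hJ', hloc⟩ := local_fin_x X b' hb'X hb'0 hb'1 hb't
  refine ⟨h₀, J' - 1, hh, ?_, ?_⟩
  · intro m
    obtain ⟨σ', -, hσX, hσ⟩ := hcyc m
    obtain ⟨σ, hσι⟩ := transport (K := K) ι σ'.toRingEquiv (fun x => hσX _ (hX x))
    refine ⟨σ, fun ζ hζ => hιinj ?_⟩
    rw [hσι ζ, map_pow]
    refine hσ (ι ζ) ?_
    rw [← map_pow, hζ, map_one]
  intro e n hn n' N₀ hn' hN₀ hpn' hpN₀
  have hJJ : J' - 1 + 1 + e + r * e = J' + e + r * e := by omega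
  rw [hJJ]
  have hn₀ := hloc e
  have hw0 : ∀ i, ∃ w : C, w ^ N₀ = b' i := fun i => IsAlgClosed.exists_pow_nat_eq _ (by omega)
  choose w hw using hw0
  have hy0 : ∀ i, ∃ y : C, y ^ (p ^ (n + e)) = b' i := fun i =>
    IsAlgClosed.exists_pow_nat_eq _ (pow_pos hp.pos _)
  choose y hy using hy0
  obtain ⟨z, hz⟩ : ∃ z : C, IsPrimitiveRoot z (p ^ (n + J' + e)) := by
    have : NeZero (p ^ (n + J' + e)) := ⟨pow_ne_zero _ hp.ne_zero⟩
    have : NeZero ((p ^ (n + J' + e) : ℕ) : C) :=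
      ⟨Nat.cast_ne_zero.2 (pow_ne_zero _ hp.ne_zero)⟩
    exact HasEnoughRootsOfUnity.exists_primitiveRoot C (p ^ (n + J' + e))
  obtain ⟨g, hgt, hgX, hgw, hgz, hgy, hgm, hgc⟩ := hn₀ n hn N₀ hpN₀ w hw z hz y hy
  obtain ⟨θ, hθ⟩ := transport (K := K) ι g.toRingEquiv (fun x => hgX _ (hX x))
  have hθ' : ∀ x : Ω, ι (θ x) = g (ι x) := hθ
  have hfixiff : ∀ x : Ω, g (ι x) = ι x → θ x = x := by
    intro x hx
    apply hιinj
    rw [hθ' x, hx]
  have hzp : IsPrimitiveRoot (z ^ (p ^ (e + 1))) (p ^ (n + (J' - 1))) := by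
    refine hz.pow (pow_pos hp.pos _) ?_
    rw [← pow_add]
    congr 1
    omega
  have hfr : ∀ v : C, v ^ (p ^ (n + (J' - 1))) = 1 → g v = v := by
    intro v hv
    have : NeZero (p ^ (n + (J' - 1))) := ⟨pow_ne_zero _ hp.ne_zero⟩
    obtain ⟨a, -, ha⟩ := hzp.eq_pow_of_pow_eq_one hv
    rw [← ha, map_pow, hgz]
  refine ⟨g, θ, hθ', ?_, ?_, ?_⟩
  · -- (1)
    intro x hx
    refine fixed_of_mem_adjoin _ θ.toAlgHom ?_ x hx
    rintro t (ht | ht | ⟨i, ht⟩)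
    · refine fixed_of_mem_adjoin _ θ.toAlgHom ?_ t ht
      rintro u (hu | hu | ⟨i, hu⟩)
      · refine hfixiff u (hgt _ (gl_tame n' hpn' _ ?_))
        rw [← map_pow, hu, map_one]
      · refine hfixiff u (hgt _ (gl_tame N₀ hpN₀ _ ?_))
        rw [← map_pow, hu, map_one]
      · have hu' : (ι u) ^ N₀ = ι (algebraMap K Ω (b i)) := by rw [← map_pow, hu]
        obtain ⟨ω, hω, hor⟩ := gl_root N₀ hN₀ _ _ _ _ (hc0 i) (hb' i) hu' (hw i)
        refine hfixiff u (gl_fix (g : C →+* C) _ _ _ ?_ ?_ hor)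
        · exact hgt _ (gl_tame N₀ hpN₀ _ hω)
        · exact hgw i
    · refine hfixiff t (hfr _ ?_)
      have ht' : t ^ (p ^ (n + (J' - 1))) = 1 := ht
      rw [← map_pow, ht', map_one]
    · have ht' : (ι t) ^ (p ^ n) = ι (algebraMap K Ω (b i)) := by rw [← map_pow, ht]
      have hyi : (y i ^ (p ^ e)) ^ (p ^ n) = b' i := by
        rw [← pow_mul, ← pow_add, add_comm e n]
        exact hy i
      obtain ⟨ω, hω, hor⟩ := gl_root (p ^ n) (pow_pos hp.pos _) _ _ _ _ (hc0 i) (hb' i) ht' hyi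
      refine hfixiff t (gl_fix (g : C →+* C) _ _ _ ?_ ?_ hor)
      · refine hfr _ ?_
        rw [pow_add, pow_mul, hω, one_pow]
      · exact hgy i
  · -- (2)
    intro ζ hζ hθζ
    apply hgm
    have h1 : IsPrimitiveRoot (ι ζ) (p ^ (n + (J' - 1) + 1)) := hζ.map_of_injective hιinj
    have h2 : (z ^ (p ^ e)) ^ (p ^ (n + (J' - 1) + 1)) = 1 := by
      rw [← pow_mul, ← pow_add]
      have h3 : e + (n + (J' - 1) + 1) = n + J' + e := by omega
      rw [h3]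
      exact hz.pow_eq_one
    have : NeZero (p ^ (n + (J' - 1) + 1)) := ⟨pow_ne_zero _ hp.ne_zero⟩
    obtain ⟨a, -, ha⟩ := h1.eq_pow_of_pow_eq_one h2
    rw [← ha, map_pow, ← hθ' ζ, hθζ]
  · -- (3)
    intro x hx hx0
    refine hgc (ι x) ?_ (by rw [Ne, map_eq_zero]; exact hx0)
    set G := CF X (Set.range w ∪ ({z} ∪ Set.range y)) with hG
    have hXG : ∀ v ∈ X, v ∈ G := fun v hv =>
      IntermediateField.subset_adjoin (Wnr p C) _ (Or.inl hv)
    have hwG : ∀ i, w i ∈ G := fun i =>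
      IntermediateField.subset_adjoin (Wnr p C) _ (Or.inr (Or.inl ⟨i, rfl⟩))
    have hzG : z ∈ G :=
      IntermediateField.subset_adjoin (Wnr p C) _ (Or.inr (Or.inr (Or.inl rfl)))
    have hyG : ∀ i, y i ∈ G := fun i =>
      IntermediateField.subset_adjoin (Wnr p C) _ (Or.inr (Or.inr (Or.inr ⟨i, rfl⟩)))
    have htG : ∀ v ∈ tame p C, v ∈ G := fun v hv =>
      G.algebraMap_mem (⟨v, tame_le_Wnr hv⟩ : Wnr p C)
    have hfG : ∀ v : C, v ^ (p ^ (n + J' + e)) = 1 → v ∈ G := by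
      intro v hv
      have : NeZero (p ^ (n + J' + e)) := ⟨pow_ne_zero _ hp.ne_zero⟩
      obtain ⟨a, -, ha⟩ := hz.eq_pow_of_pow_eq_one hv
      rw [← ha]
      exact pow_mem hzG a
    have hKG : ∀ v : K, ι (algebraMap K Ω v) ∈ G := fun v => hXG _ (hX v)
    refine gl_mem ι G _ hKG ?_ x hx
    rintro t (ht | ht | ⟨i, ht⟩)
    · refine gl_mem ι G _ hKG ?_ t ht
      rintro u (hu | hu | ⟨i, hu⟩)
      · refine htG _ (gl_tame n' hpn' _ ?_)
        rw [← map_pow, hu, map_one]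
      · refine htG _ (gl_tame N₀ hpN₀ _ ?_)
        rw [← map_pow, hu, map_one]
      · have hu' : (ι u) ^ N₀ = ι (algebraMap K Ω (b i)) := by rw [← map_pow, hu]
        obtain ⟨ω, hω, hor⟩ := gl_root N₀ hN₀ _ _ _ _ (hc0 i) (hb' i) hu' (hw i)
        exact gl_in G _ _ _ (htG _ (gl_tame N₀ hpN₀ _ hω)) (hwG i) hor
    · refine hfG _ ?_
      have ht' : t ^ (p ^ (n + e + (J' - 1) + 1)) = 1 := ht
      have h3 : n + J' + e = n + e + (J' - 1) + 1 := by omega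
      rw [h3, ← map_pow, ht', map_one]
    · have ht' : (ι t) ^ (p ^ (n + e)) = ι (algebraMap K Ω (b i)) := by rw [← map_pow, ht]
      obtain ⟨ω, hω, hor⟩ :=
        gl_root (p ^ (n + e)) (pow_pos hp.pos _) _ _ _ _ (hc0 i) (hb' i) ht' (hy i)
      refine gl_in G _ _ _ (hfG _ ?_) (hyG i) hor
      have h3 : n + J' + e = (n + e) + J' := by omega
      rw [h3, pow_add, pow_mul, hω, one_pow]

end

theorem sx_of {K Ω : Type} [Field K] [NumberField K] [Field Ω] [CharZero Ω] [IsAlgClosed Ω]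
    [Algebra K Ω] [IsGalois K Ω] (p : ℕ) [Fact p.Prime] {r : ℕ} (b : Fin r → K)
    (hb0 : ∀ i, b i ≠ 0)
    (hind0 : ∀ N : ℕ, 1 ≤ N → ∀ (m : Fin r → ℤ) (y : K), y ^ N = ∏ i, (b i) ^ (m i) →
      ∀ i, (N : ℤ) ∣ m i) :
    ∃ (ι : Ω →+* PadicAlgCl p) (h₀ J : ℕ), SX K Ω p (PadicAlgCl p) b ι h₀ J := by
  have : CharZero (PadicAlgCl p) := charZero_C p (PadicAlgCl p)
  obtain ⟨φ⟩ : Nonempty (K →+* PadicAlgCl p) := inferInstance
  have : Algebra.IsAlgebraic K Ω := inferInstance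
  obtain ⟨ι, -⟩ := pd_lift (Ω := Ω) φ
  have htor : ∀ (i : Fin r) (k : ℕ), 1 ≤ k → b i ^ k ≠ 1 := by
    intro i k hk h
    have h1 : (1 : K) ^ (k + 1) = ∏ j, (b j) ^ ((Pi.single i (k : ℤ) : Fin r → ℤ) j) := by
      rw [one_pow, Finset.prod_eq_single i]
      · rw [Pi.single_eq_same, zpow_natCast, h]
      · intro j _ hj
        rw [Pi.single_eq_of_ne hj, zpow_zero]
      · intro hi
        exact absurd (Finset.mem_univ i) hi
    have h2 := hind0 (k + 1) (by omega) _ 1 h1 i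
    rw [Pi.single_eq_same] at h2
    have h3 : (k + 1) ∣ k := by exact_mod_cast h2
    have h4 := Nat.le_of_dvd (by omega) h3
    omega
  obtain ⟨h₀, J, h1, h2, h3⟩ := glob_loc_x (p := p) ι b hb0 htor
  exact ⟨ι, h₀, J, ⟨hb0, hind0, h1, h2, h3⟩⟩

end Pool.Agent.H72.PB
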