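import Mathlib

/-!
# Module LChoice: the choice of `l`

With `L = log (3 Dm) ≥ log 3 > 1`. `log (p^((r+1)e)) = (r+1) e log p`, `e = l + J + c₁ + 1`.
There is `C₁ ≥ 1` with: `p^l ≥ C₁ L` and `p^l ≥ C₁ (l + 1)` imply the first inequality (strict): the left side
is at most `4 g (r+1) ((r+1) (J+c₁+1) (l+1) log p + 2 L)`; with `log p ≥ log 2 ≥ 1/2` it suffices
`p^l ≥ 8 g (r+1)^2 (J+c₁+1) (l+1) + 32 g (r+1) L + 1`.. choose `C₁` large. There is `l₀` with
`2^l ≥ C₁ (l+1)` for all `l ≥ l₀`. Take for `l` the least natural number `≥ l₀` with `p^l ≥ C₁ L`: then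
`p^l ≤ max (p^l₀) (p C₁ L) ≤ C₂ L` with `C₂ = p^l₀ + p C₁`. All exponents in the last two
bounds are `≤ a l + a'` with constants `a, a'` depending on `r, J, c₁`, so these powers of `p` are
`≤ p^a' (C₂ L)^a ≤ (A L)^A` for `A = p^a' * C₂ (rounded up) + a + a' + 1` (as `L ≥ 1`, `A L ≥ C₂ L`,
`(A L)^(A - a) ≥ A ≥ p^a'`).
-/

set_option autoImplicit false

namespace Pool.Agent.H72.PB

theorem l_choice (p r g J c₁ : ℕ) (hp : 2 ≤ p) :
    ∃ A : ℕ, 1 ≤ A ∧ ∀ Dm : ℕ, 1 ≤ Dm → ∃ l : ℕ, ∀ e : ℕ, e = l + J + c₁ + 1 →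
      4 * (g : ℝ) * ((r + 1 : ℕ) : ℝ) *
        (Real.log ((p : ℝ) ^ ((r + 1) * e)) + Real.log Dm + 1) < (p : ℝ) ^ l * Real.log p ∧
      (p : ℝ) ^ ((r + 1) * e + (J + 1 + e + r * e)) ≤ (A * Real.log (3 * Dm)) ^ A ∧
      (p : ℝ) ^ ((r + 2) * e + 3 + J) ≤ (A * Real.log (3 * Dm)) ^ A := by
  have hpr : (2 : ℝ) ≤ p := by exact_mod_cast hp
  have hlogp : (1 / 2 : ℝ) ≤ Real.log p := by
    have h1 : Real.log 2 ≤ Real.log p := Real.log_le_log (by norm_num) hpr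
    have h2 := Real.log_two_gt_d9
    linarith
  have hlog3 : (1 : ℝ) ≤ Real.log 3 := by
    rw [Real.le_log_iff_exp_le (by norm_num)]
    have := Real.exp_one_lt_d9
    linarith
  set K : ℕ := 4 * g * (r + 1) with hK
  set c : ℕ := J + c₁ + 1 with hc
  -- `l₀`
  obtain ⟨l₀, hl₀⟩ : ∃ l₀ : ℕ, ∀ l : ℕ, l₀ ≤ l →
      2 * ((K : ℝ) * (r + 1) * ((l : ℝ) + c)) < 2 ^ l := by
    have h1 : Filter.Tendsto (fun l : ℕ => (l : ℝ) ^ 1 / 2 ^ l) Filter.atTop (nhds 0) := by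
      have := tendsto_pow_const_div_const_pow_of_one_lt 1 (show (1 : ℝ) < 2 by norm_num)
      exact this
    have h0 : Filter.Tendsto (fun l : ℕ => (1 : ℝ) / 2 ^ l) Filter.atTop (nhds 0) := by
      have := tendsto_pow_const_div_const_pow_of_one_lt 0 (show (1 : ℝ) < 2 by norm_num)
      simpa using this
    have h2 : Filter.Tendsto (fun l : ℕ => 2 * ((K : ℝ) * (r + 1)) * ((l : ℝ) ^ 1 / 2 ^ l) +
        2 * ((K : ℝ) * (r + 1)) * c * (1 / 2 ^ l)) Filter.atTop (nhds 0) := by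
      have := (h1.const_mul (2 * ((K : ℝ) * (r + 1)))).add
        (h0.const_mul (2 * ((K : ℝ) * (r + 1)) * c))
      simpa using this
    have h3 := h2.eventually (gt_mem_nhds (show (0 : ℝ) < 1 by norm_num))
    rw [Filter.eventually_atTop] at h3
    obtain ⟨l₀, hl₀⟩ := h3
    refine ⟨l₀, fun l hl => ?_⟩
    have h4 := hl₀ l hl
    have h5 : (0 : ℝ) < 2 ^ l := by positivity
    have h6 := mul_lt_mul_of_pos_right h4 h5
    have h7 : (2 * ((K : ℝ) * (r + 1)) * ((l : ℝ) ^ 1 / 2 ^ l) +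
        2 * ((K : ℝ) * (r + 1)) * c * (1 / 2 ^ l)) * 2 ^ l =
        2 * ((K : ℝ) * (r + 1) * ((l : ℝ) + c)) := by
      field_simp
    rw [h7, one_mul] at h6
    exact h6
  set C₂ : ℕ := p ^ l₀ + 8 * p * K with hC₂
  set a : ℕ := 2 * r + 2 with ha
  set a' : ℕ := (2 * r + 2) * c + J + 3 with ha'
  set A : ℕ := C₂ + p ^ a' + a + 1 with hA
  refine ⟨A, by omega, fun Dm hDm => ?_⟩
  have hDr : (1 : ℝ) ≤ Dm := by exact_mod_cast hDm
  set L : ℝ := Real.log (3 * Dm) with hL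
  have hL1 : 1 ≤ L := le_trans hlog3 (Real.log_le_log (by norm_num) (by linarith))
  have hLD : Real.log Dm ≤ L := Real.log_le_log (by linarith) (by linarith)
  -- choice of `l`
  have hex : ∃ l : ℕ, l₀ ≤ l ∧ 8 * (K : ℝ) * L ≤ (p : ℝ) ^ l := by
    obtain ⟨l, hl⟩ := pow_unbounded_of_one_lt (8 * (K : ℝ) * L) (show (1 : ℝ) < p by linarith)
    refine ⟨l + l₀, by omega, hl.le.trans ?_⟩
    exact pow_le_pow_right₀ (by linarith) (by omega)
  classical
  obtain ⟨l, ⟨hl1, hl2⟩, hmin⟩ : ∃ l : ℕ, (l₀ ≤ l ∧ 8 * (K : ℝ) * L ≤ (p : ℝ) ^ l) ∧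
      ∀ m : ℕ, m < l → ¬ (l₀ ≤ m ∧ 8 * (K : ℝ) * L ≤ (p : ℝ) ^ m) :=
    ⟨Nat.find hex, Nat.find_spec hex, fun m hm => Nat.find_min hex hm⟩
  have hC₂r : (C₂ : ℝ) = (p : ℝ) ^ l₀ + 8 * p * K := by rw [hC₂]; push_cast; ring
  have hub : (p : ℝ) ^ l ≤ C₂ * L := by
    rw [hC₂r]
    have hp0 : (0 : ℝ) ≤ (p : ℝ) ^ l₀ := by positivity
    have hK0 : (0 : ℝ) ≤ 8 * p * K := by positivity
    rcases Nat.lt_or_ge l₀ l with h | h
    · have h1 := hmin (l - 1) (by omega)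
      have h2 : (p : ℝ) ^ (l - 1) < 8 * K * L := by
        by_contra h3
        exact h1 ⟨by omega, not_lt.1 h3⟩
      have h3 : (p : ℝ) ^ l = p * (p : ℝ) ^ (l - 1) := by
        rw [← pow_succ']
        congr 1
        omega
      rw [h3]
      have h4 : (p : ℝ) * (p : ℝ) ^ (l - 1) ≤ p * (8 * K * L) := by gcongr
      nlinarith [mul_nonneg hp0 (by linarith : (0 : ℝ) ≤ L)]
    · have h1 : l = l₀ := le_antisymm h hl1
      rw [h1]
      nlinarith [mul_nonneg hK0 (by linarith : (0 : ℝ) ≤ L), mul_nonneg hp0 (by linarith : (0 : ℝ) ≤ L - 1)]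
  have hfin : ∀ n : ℕ, n ≤ a * l + a' → (p : ℝ) ^ n ≤ ((A : ℝ) * L) ^ A := by
    intro n hn
    have hAr : (1 : ℝ) ≤ A := by
      have : 1 ≤ A := by omega
      exact_mod_cast this
    have hAL : (1 : ℝ) ≤ A * L := by nlinarith
    have hC₂A : (C₂ : ℝ) ≤ A := by
      have : C₂ ≤ A := by omega
      exact_mod_cast this
    have hpA : (p : ℝ) ^ a' ≤ A := by
      have : p ^ a' ≤ A := by omega
      exact_mod_cast this
    calc (p : ℝ) ^ n ≤ (p : ℝ) ^ (a * l + a') := pow_le_pow_right₀ (by linarith) hn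
      _ = ((p : ℝ) ^ l) ^ a * (p : ℝ) ^ a' := by rw [pow_add, mul_comm a l, pow_mul]
      _ ≤ ((A : ℝ) * L) ^ a * (A * L) := by
          have h1 : (p : ℝ) ^ l ≤ A * L :=
            hub.trans (mul_le_mul_of_nonneg_right hC₂A (by linarith))
          have h2 : (p : ℝ) ^ a' ≤ A * L := by nlinarith
          gcongr
      _ = ((A : ℝ) * L) ^ (a + 1) := (pow_succ _ _).symm
      _ ≤ ((A : ℝ) * L) ^ A := pow_le_pow_right₀ hAL (by omega)
  refine ⟨l, fun e he => ⟨?_, ?_, ?_⟩⟩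
  · have he' : (e : ℝ) = l + c := by rw [he, hc]; push_cast; ring
    rw [Real.log_pow]
    have hKr : (K : ℝ) = 4 * g * ((r + 1 : ℕ) : ℝ) := by rw [hK]; push_cast; ring
    rw [← hKr]
    have hK0 : (0 : ℝ) ≤ K := by positivity
    have h2l : (2 : ℝ) ^ l ≤ (p : ℝ) ^ l := pow_le_pow_left₀ (by norm_num) hpr l
    have h3 := hl₀ l hl1
    have h4 : 2 * ((K : ℝ) * (r + 1) * e) < (p : ℝ) ^ l := by
      rw [he']
      linarith
    push_cast
    have h5 : (K : ℝ) * ((r + 1) * e * Real.log p) < (p : ℝ) ^ l / 2 * Real.log p := by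
      have h6 : (K : ℝ) * (r + 1) * e < (p : ℝ) ^ l / 2 := by linarith
      have h7 := mul_lt_mul_of_pos_right h6 (show (0 : ℝ) < Real.log p by linarith)
      calc (K : ℝ) * ((r + 1) * e * Real.log p) = (K : ℝ) * (r + 1) * e * Real.log p := by ring
        _ < _ := h7
    have h8 : (K : ℝ) * (Real.log Dm + 1) ≤ (p : ℝ) ^ l / 2 * Real.log p := by
      have h9 : (K : ℝ) * (Real.log Dm + 1) ≤ K * (2 * L) := by
        apply mul_le_mul_of_nonneg_left _ hK0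
        linarith
      have h10 : (p : ℝ) ^ l / 2 * (1 / 2) ≤ (p : ℝ) ^ l / 2 * Real.log p := by
        apply mul_le_mul_of_nonneg_left hlogp
        positivity
      nlinarith
    calc (K : ℝ) * ((r + 1) * e * Real.log p + Real.log Dm + 1)
        = (K : ℝ) * ((r + 1) * e * Real.log p) + (K : ℝ) * (Real.log Dm + 1) := by ring
      _ < (p : ℝ) ^ l / 2 * Real.log p + (p : ℝ) ^ l / 2 * Real.log p := by linarith
      _ = (p : ℝ) ^ l * Real.log p := by ring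
  · apply hfin
    have : e = l + c := by omega
    rw [this, ha, ha']
    nlinarith
  · apply hfin
    have : e = l + c := by omega
    rw [this, ha, ha']
    nlinarith [Nat.zero_le (r * l), Nat.zero_le (r * c)]

end Pool.Agent.H72.PB
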