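import Pool.Agent.H72.PB.OrbA
import Pool.Agent.H72.RG.PowTrick

/-!
# Module Nrm: normalisation

Suppose `TP p L y` fails: `ω ≠ 1`, `ω^(p^k) = 1`, `ω y = ρ y`, `ρ` fixes `L`. Claim: every `p`-th root of unity
`η` satisfies `η y ∈ Orb L y`. Let `p^i`, `i ≥ 1`, be the order of `ω`; induction on `i`.
`i = 1`: `ω ∈ L` (`ω^(p^2) = 1`), so `ρ^j y = ω^j y` and every `η` is a power of `ω`.
`i ≥ 2`: `ρ ω = ω^a` (`ρ ω` is again a `p^i`-th root of unity); `ω' = ω^(p^(i-2))` has order `p^2`, lies in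
`L`, so `ω' = ρ ω' = ω'^a`, `a ≡ 1 mod p^2`, write `a = 1 + q`, `p^2 ∣ q` (replace `a` by `a + p^i` if `a = 0`,
not needed as `a ≡ 1`). `ρ^j y = ω^(∑_{i<j} a^i) y`, so `ρ^p y = ω^(p (1 + p t)) y` (`sum_pow`, file
`H72/RG/PowTrick.lean`), and `ω^(p (1 + p t))` has order `p^(i-1)`; `ρ^p` fixes `L`.
Hence for every `x = ρ' y` in `Orb L y` and `η^p = 1` (`η ∈ L`): `η x = ρ' (η y) ∈ Orb L y`. The map
`x ↦ x^p` maps `Orb L y` onto `Orb L (y^p)` (`orb_pow`), and the fibre of `x^p` is `{η x : η^p = 1}`, which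
has `p` elements (`x ≠ 0`). So `p * dg L (y^p) = dg L y`.
(Count: `Finset.card_eq_sum_card_image`/`Finset.card_nsmul_le_card..`, or
`Finset.card_eq_of_equiv`; all fibres have exactly `p` elements, `IsPrimitiveRoot.card_nthRootsFinset`.)
-/

set_option autoImplicit false
set_option linter.unusedSectionVars false

open NumberField IntermediateField

namespace Pool.Agent.H72.PB

variable {K Ω : Type} [Field K] [Field Ω] [CharZero Ω] [IsAlgClosed Ω] [Algebra K Ω]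
  [IsGalois K Ω]

/-- the algebraic iteration: `ρ y = ω y`, `ρ ω = ω ^ a` -/
theorem nrm_iter (ρ : Ω ≃ₐ[K] Ω) (ω y : Ω) (a : ℕ) (h1 : ρ y = ω * y) (h2 : ρ ω = ω ^ a)
    (j : ℕ) : (ρ ^ j) y = ω ^ (∑ i ∈ Finset.range j, a ^ i) * y := by
  induction j with
  | zero => simp
  | succ j ih =>
    rw [pow_succ', AlgEquiv.mul_apply, ih, map_mul, map_pow, h1, h2, geom_sum_succ, pow_succ,
      ← pow_mul]
    ring

theorem pow_fix (L : IntermediateField K Ω) (ρ : Ω ≃ₐ[K] Ω) (hρ : ∀ z ∈ L, ρ z = z) (j : ℕ) :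
    ∀ z ∈ L, (ρ ^ j) z = z := by
  intro z hz
  induction j with
  | zero => simp
  | succ j ih => rw [pow_succ', AlgEquiv.mul_apply, ih, hρ z hz]

theorem nrm_claim (p : ℕ) [Fact p.Prime] (L : IntermediateField K Ω)
    (h2 : ∀ ω : Ω, ω ^ (p ^ 2) = 1 → ω ∈ L) (y : Ω) (i : ℕ) :
    ∀ ω : Ω, IsPrimitiveRoot ω (p ^ (i + 1)) → ω * y ∈ Orb L y →
      ∀ η : Ω, η ^ p = 1 → η * y ∈ Orb L y := by
  have hp : p.Prime := Fact.out
  have hppos : 0 < p := hp.pos
  induction i with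
  | zero =>
    intro ω hω hωy η hη
    obtain ⟨ρ, hρ, hρy⟩ := hωy
    rw [zero_add, pow_one] at hω
    have : NeZero p := ⟨hppos.ne'⟩
    obtain ⟨j, -, hj⟩ := hω.eq_pow_of_pow_eq_one hη
    have hωL : ρ ω = ω := by
      refine hρ ω (h2 ω ?_)
      rw [pow_two, pow_mul, hω.pow_eq_one, one_pow]
    have h3 := nrm_iter ρ ω y 1 hρy (by rw [pow_one]; exact hωL) j
    simp only [one_pow, Finset.sum_const, Finset.card_range, smul_eq_mul, mul_one] at h3
    refine ⟨ρ ^ j, pow_fix L ρ hρ j, ?_⟩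
    rw [h3, hj]
  | succ i ih =>
    intro ω hω hωy η hη
    obtain ⟨ρ, hρ, hρy⟩ := hωy
    have hpk : 0 < p ^ (i + 1 + 1) := pow_pos hppos _
    have : NeZero (p ^ (i + 1 + 1)) := ⟨hpk.ne'⟩
    have h3 : (ρ ω) ^ (p ^ (i + 1 + 1)) = 1 := by
      rw [← map_pow, hω.pow_eq_one, map_one]
    obtain ⟨a, -, ha⟩ := hω.eq_pow_of_pow_eq_one h3
    have h4 : ρ (ω ^ (p ^ i)) = ω ^ (p ^ i) := by
      refine hρ _ (h2 _ ?_)
      rw [← pow_mul, ← pow_add, show i + 2 = i + 1 + 1 from rfl, hω.pow_eq_one]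
    have hmod : a * p ^ i ≡ 1 * p ^ i [MOD p ^ 2 * p ^ i] := by
      have e1 : ω ^ (a * p ^ i) = ω ^ (p ^ i) := by
        rw [pow_mul, ha, ← map_pow, h4]
      rw [← pow_add, one_mul, show 2 + i = i + 1 + 1 by omega]
      have h5 := (hω.isOfFinOrder hpk.ne').pow_eq_pow_iff_modEq (n := a * p ^ i) (m := p ^ i)
      rw [← hω.eq_orderOf] at h5
      exact h5.1 e1
    have hmod2 : a ≡ 1 [MOD p ^ 2] := Nat.ModEq.mul_right_cancel' (pow_pos hppos i).ne' hmod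
    obtain ⟨c, rfl⟩ : ∃ c, a = 1 + p ^ 2 * c := by
      have ha1 : 1 ≤ a := by
        rcases Nat.eq_zero_or_pos a with h0 | h0
        · exfalso
          rw [h0] at hmod2
          have h4 : p ^ 2 ∣ 1 := (Nat.modEq_zero_iff_dvd).1 hmod2.symm
          have h5 : p ^ 2 = 1 := Nat.dvd_one.1 h4
          have h6 : p = 1 := by
            rcases Nat.pow_eq_one.1 h5 with h | h
            · exact h
            · omega
          exact hp.one_lt.ne' h6
        · exact h0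
      obtain ⟨c, hc⟩ := (Nat.modEq_iff_dvd' ha1).1 hmod2.symm
      exact ⟨c, by omega⟩
    obtain ⟨t, ht⟩ := Pool.Agent.H72.RG.sum_pow p (p ^ 2 * c) hp (dvd_mul_right _ _)
    have h6 := nrm_iter ρ ω y (1 + p ^ 2 * c) hρy ha.symm p
    rw [ht] at h6
    have h7 : IsPrimitiveRoot (ω ^ p) (p ^ (i + 1)) :=
      hω.pow hpk (by rw [pow_succ' p (i + 1)])
    have h8 : IsPrimitiveRoot ((ω ^ p) ^ (1 + p * t)) (p ^ (i + 1)) := by
      refine h7.pow_of_coprime _ ?_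
      refine Nat.Coprime.pow_right _ ?_
      simp
    refine ih ((ω ^ p) ^ (1 + p * t)) h8 ?_ η hη
    refine ⟨ρ ^ p, pow_fix L ρ hρ p, ?_⟩
    rw [h6, pow_mul]

theorem nrm_all (p : ℕ) [Fact p.Prime] (L : IntermediateField K Ω)
    (h2 : ∀ ω : Ω, ω ^ (p ^ 2) = 1 → ω ∈ L) (y : Ω) (h : ¬ TP p L y) :
    ∀ η : Ω, η ^ p = 1 → η * y ∈ Orb L y := by
  have hp : p.Prime := Fact.out
  unfold TP at h
  push Not at h
  obtain ⟨ω, k, hωk, hωy, hω1⟩ := h
  obtain ⟨i, -, hi⟩ := (Nat.dvd_prime_pow hp).1 (orderOf_dvd_of_pow_eq_one hωk)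
  have hprim : IsPrimitiveRoot ω (p ^ i) := by
    rw [← hi]
    exact IsPrimitiveRoot.orderOf ω
  rcases Nat.eq_zero_or_pos i with h0 | h0
  · exfalso
    rw [h0, pow_zero] at hi
    exact hω1 (orderOf_eq_one_iff.1 hi)
  · obtain ⟨j, rfl⟩ := Nat.exists_eq_succ_of_ne_zero h0.ne'
    exact nrm_claim p L h2 y j ω hprim hωy

theorem nrm_step (p : ℕ) [Fact p.Prime] (L : IntermediateField K Ω)
    (h2 : ∀ ω : Ω, ω ^ (p ^ 2) = 1 → ω ∈ L) (y : Ω) (hy : y ≠ 0) :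
    TP p L y ∨ p * dg L (y ^ p) = dg L y := by
  classical
  have hp : p.Prime := Fact.out
  by_cases h : TP p L y
  · exact Or.inl h
  right
  have hall := nrm_all p L h2 y h
  have hx : ∀ x ∈ Orb L y, ∀ η : Ω, η ^ p = 1 → η * x ∈ Orb L y := by
    rintro x ⟨ρ, hρ, rfl⟩ η hη
    have h3 : ρ η = η := by
      refine hρ η (h2 η ?_)
      rw [pow_two, pow_mul, hη, one_pow]
    have h4 := orb_fix ρ hρ (hall η hη)
    rw [map_mul, h3] at h4
    exact h4
  have hfin := orb_finite (K := K) (Ω := Ω) L y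
  obtain ⟨S, hS⟩ : ∃ S : Finset Ω, (S : Set Ω) = Orb L y := ⟨hfin.toFinset, hfin.coe_toFinset⟩
  have hmem : ∀ x, x ∈ S ↔ x ∈ Orb L y := by
    intro x
    rw [← hS, Finset.mem_coe]
  have hd1 : dg L y = S.card := by
    unfold dg
    rw [← hS, Set.ncard_coe_finset]
  have hd2 : dg L (y ^ p) = (S.image fun x => x ^ p).card := by
    unfold dg
    rw [orb_pow, ← hS, ← Finset.coe_image, Set.ncard_coe_finset]
  have : NeZero ((p : ℕ) : Ω) := ⟨by exact_mod_cast hp.ne_zero⟩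
  obtain ⟨ζ, hζ⟩ : ∃ ζ : Ω, IsPrimitiveRoot ζ p := HasEnoughRootsOfUnity.exists_primitiveRoot Ω p
  have hcard : ∀ b ∈ S.image (fun x => x ^ p), (S.filter fun a => a ^ p = b).card = p := by
    intro b hb
    obtain ⟨x, hxS, rfl⟩ := Finset.mem_image.1 hb
    have hxO := (hmem x).1 hxS
    have hx0 : x ≠ 0 := by
      obtain ⟨ρ, -, rfl⟩ := hxO
      exact (map_ne_zero ρ).2 hy
    have h5 : (S.filter fun a => a ^ p = x ^ p) =
        (Polynomial.nthRootsFinset p (1 : Ω)).image (fun η => η * x) := by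
      ext a
      rw [Finset.mem_filter, Finset.mem_image]
      constructor
      · rintro ⟨-, ha⟩
        refine ⟨a / x, (Polynomial.mem_nthRootsFinset hp.pos _).2 ?_, div_mul_cancel₀ a hx0⟩
        rw [div_pow, ha, div_self (pow_ne_zero p hx0)]
      · rintro ⟨η, hη, rfl⟩
        have hη' := (Polynomial.mem_nthRootsFinset hp.pos _).1 hη
        refine ⟨(hmem _).2 (hx x hxO η hη'), ?_⟩
        rw [mul_pow, hη', one_mul]
    rw [h5, Finset.card_image_of_injective _ (mul_left_injective₀ hx0), hζ.card_nthRootsFinset]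
  rw [hd1, hd2, Finset.card_eq_sum_card_image (fun x : Ω => x ^ p) S, Finset.sum_congr rfl hcard,
    Finset.sum_const, smul_eq_mul, mul_comm]

end Pool.Agent.H72.PB
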