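import Pool.Agent.H72.PB.OrbA
import Pool.Agent.H72.RG.StepB

/-!
# Module CommSig: the commutators

`comm_sig`: this is the first half of the proof of `step_b` in `Pool/Agent/H72/RG/StepB.lean` (read it), with
`n₃` in the place of `n₂` there and `θ₁` in the place of `θ₀` (only the two properties `hθfix`, `hθmov` of it are
used): `M = n + 1 + J = n₃ + J + c₁ + 1 + J`; `kum_glob` gives `T j` fixing `F` and all `p^M`-th roots of unity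
with `T j (β j) = δ β j`, `T j (β i) = β i`, `i ≠ j`, `δ = ζ₁^(h₀-1)`; `ξ = δ / θ₁ δ`; `comm_b` is the theorem of
that name in `Pool/Agent/H72/RG/StepB.lean`.
`conj_sig`: `ψ (β i) = ω (β i)` with `ω^(p^(n+1)) = 1`, so `ω^(p^M) = 1` (`n + 1 ≤ M`), `σ ω = ω`, and
`σ (ψ (β i)) = ω c_i β i`, `ψ⁻¹ (ω c_i β i) = ψ⁻¹ c_i * ψ⁻¹ (ω β i) = ψ⁻¹ c_i * β i`. For `x ∈ F`: `ψ x ∈ F`.
`orb_quot`: `a₀ z = λ₀ z` gives `a₀⁻¹ z = μ z` with `μ = (a₀⁻¹ λ₀ a₀)⁻¹`, which fixes `L` (stable);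
`a₁ a₀⁻¹ z = a₁ μ z = (a₁ μ a₁⁻¹) a₁ z = ((a₁ μ a₁⁻¹) λ₁) z =: ν z`; take `ν⁻¹`.
-/

set_option autoImplicit false
set_option linter.unusedSectionVars false

open NumberField IntermediateField

namespace Pool.Agent.H72.PB

open Pool.Agent.H72.RM Pool.Agent.H72.RG

section

variable {p : ℕ} [Fact p.Prime] {C : Type} [NormedField C] [NormedAlgebra ℚ_[p] C]
  [IsUltrametricDist C] [IsAlgClosed C] [Algebra.IsAlgebraic ℚ_[p] C] [IsoEnv p C]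
  {K Ω : Type} [Field K] [NumberField K] [Field Ω] [CharZero Ω] [IsAlgClosed Ω] [Algebra K Ω]
  [IsGalois K Ω] {r : ℕ} {b : Fin r → K} {ι : Ω →+* C} {h₀ J : ℕ}

theorem comm_sig (D : SData K Ω p C b ι h₀ J) (c₁ u : ℕ) (hu : ¬ p ∣ u)
    (hd : h₀ - 1 = p ^ c₁ * u) (n' N₀ : ℕ) (hn' : 1 ≤ n') (hN₀ : 1 ≤ N₀) (hpn' : ¬ p ∣ n')
    (hpN₀ : ¬ p ∣ N₀) (n₃ n : ℕ) (hn : n = n₃ + J + c₁) (θ₁ : Ω ≃ₐ[K] Ω)
    (hθfix : ∀ x ∈ Lf b (RF Ω b n' N₀) (p ^ n₃) (p ^ (n₃ + J)), θ₁ x = x)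
    (hθmov : ∀ ζ : Ω, IsPrimitiveRoot ζ (p ^ (n₃ + J + 1)) → θ₁ ζ ≠ ζ) (β : Fin r → Ω)
    (hβ : ∀ i, β i ^ (p ^ (n + 1)) = algebraMap K Ω (b i)) :
    ∃ (T : Fin r → (Ω ≃ₐ[K] Ω)) (ξ : Ω), IsPrimitiveRoot ξ p ∧
      ∀ j, (∀ x ∈ RF Ω b n' N₀, (T j * θ₁ * (T j)⁻¹ * θ₁⁻¹) x = x) ∧
        (∀ x : Ω, x ^ (p ^ (n + 1 + J)) = 1 → (T j * θ₁ * (T j)⁻¹ * θ₁⁻¹) x = x) ∧
        ∀ i, (T j * θ₁ * (T j)⁻¹ * θ₁⁻¹) (β i) = (if i = j then ξ else 1) * β i := by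
  have hpp : p.Prime := Fact.out
  have hh := D.h_ge
  obtain ⟨M, hM⟩ : ∃ M, M = n + 1 + J := ⟨_, rfl⟩
  rw [← hM]
  set F := RF Ω b n' N₀ with hFdef
  have hMpos : 0 < p ^ M := pow_pos hpp.pos M
  have hNZ : NeZero (p ^ M) := ⟨hMpos.ne'⟩
  obtain ⟨ζ, hζ⟩ := HasEnoughRootsOfUnity.exists_primitiveRoot Ω (p ^ M)
  have hζ₁ : IsPrimitiveRoot (ζ ^ (p ^ J)) (p ^ (n + 1)) := by
    refine hζ.pow hMpos ?_
    rw [← pow_add]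
    congr 1
    omega
  have hTex : ∀ j : Fin r, ∃ σ : Ω ≃ₐ[K] Ω, (∀ x ∈ F, σ x = x) ∧
      (∀ ε : Ω, ε ^ (p ^ M) = 1 → σ ε = ε) ∧
      ∀ i, σ (β i) = (ζ ^ (p ^ J)) ^ ((h₀ - 1) * (Pi.single j 1 : Fin r → ℕ) i) * β i :=
    fun j => kum_glob D n' N₀ hn' hN₀ hpN₀ (n + 1) M (by omega) (ζ ^ (p ^ J)) hζ₁ β hβ
      (Pi.single j 1)
  choose T hTF hTζ hTβ using hTex
  obtain ⟨δ, hδ⟩ : ∃ δ, δ = (ζ ^ (p ^ J)) ^ (h₀ - 1) := ⟨_, rfl⟩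
  have hinv : ∀ (g : Ω ≃ₐ[K] Ω) (x y : Ω), g x = y → g⁻¹ y = x := by
    intro g x y h
    rw [← h]
    exact g.symm_apply_apply x
  have hinv2 : ∀ (g : Ω ≃ₐ[K] Ω) (x : Ω), g (g⁻¹ x) = x := fun g x => g.apply_symm_apply x
  have hδprim : IsPrimitiveRoot δ (p ^ (n₃ + J + 1)) := by
    have h1 : IsPrimitiveRoot (ζ ^ (p ^ (J + c₁))) (p ^ (n₃ + J + 1)) := by
      refine hζ.pow hMpos ?_
      rw [← pow_add]
      congr 1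
      omega
    have h2 : δ = (ζ ^ (p ^ (J + c₁))) ^ u := by
      rw [hδ, hd, ← pow_mul, ← pow_mul, pow_add, mul_assoc]
    rw [h2]
    refine h1.pow_of_coprime u (Nat.Coprime.pow_right _ ?_)
    rw [Nat.coprime_comm]
    exact (Nat.Prime.coprime_iff_not_dvd hpp).2 hu
  have hδ0 : δ ≠ 0 := hδprim.ne_zero (pow_pos hpp.pos _).ne'
  have hδM : δ ^ (p ^ M) = 1 := by
    rw [hδ, ← pow_mul, ← pow_mul, ← mul_assoc, mul_comm (p ^ J * (h₀ - 1)), pow_mul,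
      hζ.pow_eq_one, one_pow]
  have hθδM : (θ₁ δ) ^ (p ^ M) = 1 := by rw [← map_pow, hδM, map_one]
  have hθδ : θ₁ δ ≠ δ := hθmov δ hδprim
  have hθδ0 : θ₁ δ ≠ 0 := by
    intro h
    exact hδ0 (by simpa using h)
  have hθδp : (θ₁ δ) ^ p = δ ^ p := by
    rw [← map_pow]
    apply hθfix
    refine IntermediateField.subset_adjoin K _ (Or.inr (Or.inl ?_))
    show (δ ^ p) ^ (p ^ (n₃ + J)) = 1
    rw [← pow_mul, ← pow_succ', hδprim.pow_eq_one]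
  have hξ : IsPrimitiveRoot (δ / θ₁ δ) p := by
    have h1 : (δ / θ₁ δ) ^ p = 1 := by
      rw [div_pow, hθδp, div_self (pow_ne_zero _ hδ0)]
    have h2 : δ / θ₁ δ ≠ 1 := by
      intro h
      rw [div_eq_one_iff_eq hθδ0] at h
      exact hθδ h.symm
    have h3 := orderOf_eq_prime h1 h2
    have h4 := IsPrimitiveRoot.orderOf (δ / θ₁ δ)
    rw [h3] at h4
    exact h4
  have hTj : ∀ j, T j (β j) = δ * β j := by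
    intro j
    rw [hTβ j j, Pi.single_eq_same, mul_one, ← hδ]
  have hTi : ∀ j i, i ≠ j → T j (β i) = 1 * β i := by
    intro j i hij
    rw [hTβ j i, Pi.single_eq_of_ne hij, mul_zero, pow_zero]
  have hβ0 : ∀ i, β i ≠ 0 := by
    intro i h
    have h1 := hβ i
    rw [h, zero_pow (pow_pos hpp.pos _).ne'] at h1
    exact D.ne i ((map_eq_zero (algebraMap K Ω)).1 h1.symm)
  have hε : ∀ i, ∃ ε : Ω, θ₁⁻¹ (β i) = ε * β i ∧ ε ^ (p ^ M) = 1 := by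
    intro i
    refine ⟨θ₁⁻¹ (β i) / β i, (div_mul_cancel₀ _ (hβ0 i)).symm, ?_⟩
    have h1 : (θ₁⁻¹ (β i)) ^ (p ^ (n + 1)) = (β i) ^ (p ^ (n + 1)) := by
      rw [← map_pow, hβ i, AlgEquiv.commutes]
    have h2 : (θ₁⁻¹ (β i) / β i) ^ (p ^ (n + 1)) = 1 := by
      rw [div_pow, h1, div_self (pow_ne_zero _ (hβ0 i))]
    have h3 : p ^ M = p ^ (n + 1) * p ^ J := by
      rw [hM, pow_add]
    rw [h3, pow_mul, h2, one_pow]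
  choose ε hε1 hε2 using hε
  have hθF : ∀ x ∈ F, θ₁ x = x := fun x hx => hθfix x (lf2_base b F _ _ hx)
  refine ⟨T, δ / θ₁ δ, hξ, fun j => ⟨?_, ?_, ?_⟩⟩
  · intro x hx
    have h1 : (T j * θ₁ * (T j)⁻¹ * θ₁⁻¹) x = T j (θ₁ ((T j)⁻¹ (θ₁⁻¹ x))) := rfl
    rw [h1, hinv θ₁ x x (hθF x hx), hinv (T j) x x (hTF j x hx), hθF x hx, hTF j x hx]
  · intro x hx
    have h1 : (T j * θ₁ * (T j)⁻¹ * θ₁⁻¹) x = T j (θ₁ ((T j)⁻¹ (θ₁⁻¹ x))) := rfl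
    have h2 : (θ₁⁻¹ x) ^ (p ^ M) = 1 := by rw [← map_pow, hx, map_one]
    rw [h1, hinv (T j) (θ₁⁻¹ x) (θ₁⁻¹ x) (hTζ j _ h2), hinv2, hTζ j x hx]
  · intro i
    by_cases hij : i = j
    · subst hij
      rw [if_pos rfl]
      exact comm_b (T i) θ₁ (β i) δ (ε i) hδ0 (hTj i) (hTζ i δ hδM) (hε1 i) (hTζ i _ (hε2 i))
        (hTζ i _ hθδM)
    · rw [if_neg hij]
      have h1 := comm_b (T j) θ₁ (β i) 1 (ε i) one_ne_zero (hTi j i hij) (map_one _) (hε1 i)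
        (hTζ j _ (hε2 i)) (by rw [map_one, map_one])
      rw [map_one, div_one] at h1
      exact h1

end

theorem conj_sig {K Ω : Type} [Field K] [Field Ω] [Algebra K Ω] {r : ℕ} (b : Fin r → K)
    (hb : ∀ i, b i ≠ 0) (F : IntermediateField K Ω)
    (hF : ∀ σ : Ω ≃ₐ[K] Ω, ∀ x ∈ F, σ x ∈ F) (p n M : ℕ) (hp : 1 ≤ p) (hnM : n ≤ M)
    (β : Fin r → Ω) (hβ : ∀ i, β i ^ (p ^ n) = algebraMap K Ω (b i)) (σ ψ : Ω ≃ₐ[K] Ω)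
    (hσF : ∀ x ∈ F, σ x = x) (hσM : ∀ x : Ω, x ^ (p ^ M) = 1 → σ x = x) (c : Fin r → Ω)
    (hσβ : ∀ i, σ (β i) = c i * β i) :
    (∀ x ∈ F, (ψ⁻¹ * σ * ψ) x = x) ∧ (∀ x : Ω, x ^ (p ^ M) = 1 → (ψ⁻¹ * σ * ψ) x = x) ∧
      ∀ i, (ψ⁻¹ * σ * ψ) (β i) = ψ⁻¹ (c i) * β i := by
  have hinv : ∀ (g : Ω ≃ₐ[K] Ω) (x y : Ω), g x = y → g⁻¹ y = x := by
    intro g x y h
    rw [← h]
    exact g.symm_apply_apply x
  have hinv3 : ∀ (g : Ω ≃ₐ[K] Ω) (x : Ω), g⁻¹ (g x) = x := fun g x => g.symm_apply_apply x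
  have hap : ∀ x, (ψ⁻¹ * σ * ψ) x = ψ⁻¹ (σ (ψ x)) := fun _ => rfl
  refine ⟨?_, ?_, ?_⟩
  · intro x hx
    rw [hap, hσF _ (hF ψ x hx), hinv3]
  · intro x hx
    have h1 : (ψ x) ^ (p ^ M) = 1 := by rw [← map_pow, hx, map_one]
    rw [hap, hσM _ h1, hinv3]
  · intro i
    have hpn : p ^ n ≠ 0 := (pow_pos (by omega) n).ne'
    have hβ0 : β i ≠ 0 := by
      intro h
      have h1 := hβ i
      rw [h, zero_pow hpn] at h1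
      exact hb i ((map_eq_zero (algebraMap K Ω)).1 h1.symm)
    obtain ⟨ω, hω, hω2⟩ : ∃ ω : Ω, ψ (β i) = ω * β i ∧ ω ^ (p ^ M) = 1 := by
      refine ⟨ψ (β i) / β i, (div_mul_cancel₀ _ hβ0).symm, ?_⟩
      have h1 : (ψ (β i)) ^ (p ^ n) = (β i) ^ (p ^ n) := by
        rw [← map_pow, hβ i, AlgEquiv.commutes]
      have h2 : (ψ (β i) / β i) ^ (p ^ n) = 1 := by
        rw [div_pow, h1, div_self (pow_ne_zero _ hβ0)]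
      have h3 : p ^ M = p ^ n * p ^ (M - n) := by
        rw [← pow_add]
        congr 1
        omega
      rw [h3, pow_mul, h2, one_pow]
    rw [hap, hω, map_mul, hσM ω hω2, hσβ i]
    have h4 : ω * (c i * β i) = c i * (ψ (β i)) := by rw [hω]; ring
    rw [h4, map_mul, hinv3]

theorem orb_quot {K Ω : Type} [Field K] [Field Ω] [Algebra K Ω] {L : IntermediateField K Ω}
    (hL : ∀ σ : Ω ≃ₐ[K] Ω, ∀ x ∈ L, σ x ∈ L) (a₀ a₁ : Ω ≃ₐ[K] Ω) (z : Ω)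
    (h0 : a₀ z ∈ Orb L z) (h1 : a₁ z ∈ Orb L z) :
    ∃ ν : Ω ≃ₐ[K] Ω, (∀ x ∈ L, ν x = x) ∧ (ν * (a₁ * a₀⁻¹)) z = z := by
  have hinv : ∀ (g : Ω ≃ₐ[K] Ω) (x y : Ω), g x = y → g⁻¹ y = x := by
    intro g x y h
    rw [← h]
    exact g.symm_apply_apply x
  have hinv2 : ∀ (g : Ω ≃ₐ[K] Ω) (x : Ω), g (g⁻¹ x) = x := fun g x => g.apply_symm_apply x
  have hinv3 : ∀ (g : Ω ≃ₐ[K] Ω) (x : Ω), g⁻¹ (g x) = x := fun g x => g.symm_apply_apply x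
  obtain ⟨l0, hl0, h0'⟩ := h0
  obtain ⟨l1, hl1, h1'⟩ := h1
  -- `l0 z = a₀ z`, `l1 z = a₁ z`
  refine ⟨(a₁ * (a₀⁻¹ * l0 * a₀)⁻¹ * a₁⁻¹ * l1)⁻¹, ?_, ?_⟩
  · intro x hx
    apply hinv
    have e1 : (a₁ * (a₀⁻¹ * l0 * a₀)⁻¹ * a₁⁻¹ * l1) x =
        a₁ ((a₀⁻¹ * l0 * a₀)⁻¹ (a₁⁻¹ (l1 x))) := rfl
    have e2 : ∀ y ∈ L, (a₀⁻¹ * l0 * a₀) y = y := by
      intro y hy
      have e3 : (a₀⁻¹ * l0 * a₀) y = a₀⁻¹ (l0 (a₀ y)) := rfl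
      rw [e3, hl0 _ (hL a₀ y hy), hinv3]
    rw [e1, hl1 x hx, hinv _ _ _ (e2 _ (hL a₁⁻¹ x hx)), hinv2]
  · have e4 : ∀ g h : Ω ≃ₐ[K] Ω, (g⁻¹ * h) z = z ↔ h z = g z := by
      intro g h
      constructor
      · intro e
        have : g ((g⁻¹ * h) z) = g z := by rw [e]
        rw [← this]
        exact (hinv2 g (h z)).symm
      · intro e
        have : (g⁻¹ * h) z = g⁻¹ (h z) := rfl
        rw [this, e, hinv3]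
    rw [e4]
    have e5 : (a₁ * (a₀⁻¹ * l0 * a₀)⁻¹ * a₁⁻¹ * l1) z =
        a₁ ((a₀⁻¹ * l0 * a₀)⁻¹ (a₁⁻¹ (l1 z))) := rfl
    have e6 : (a₁ * a₀⁻¹) z = a₁ (a₀⁻¹ z) := rfl
    rw [e5, h1', hinv3, e6]
    congr 1
    symm
    apply hinv
    have e7 : (a₀⁻¹ * l0 * a₀) (a₀⁻¹ z) = a₀⁻¹ (l0 (a₀ (a₀⁻¹ z))) := rfl
    rw [e7, hinv2, h0', hinv3]

end Pool.Agent.H72.PB
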