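import Pool.Agent.H72.PB.OrbA
import Pool.Agent.H72.RG.LfFacts

/-!
# Module DescZ2: descent in the direction of the roots of unity

`L = Lf b F (p^n) (p^(M+1))`, `L₁ = Lf b F (p^n) (p^M)`, `n ≤ M`, `1 ≤ M`. (Compare `desc_z` in
`Pool/Agent/H72/RG/DescZ.lean`; read its proof.) `ζ` a primitive `p^(M+1)`-th root of unity, `β i ^ (p^n) = b i`,
`L = K(F, ζ, β)` (`lf2_gen`). `θ` fixes `L₁ ∋ ζ^p`, so `θ ζ = ξ ζ`, `ξ^p = 1`, `ξ ≠ 1`, and `ξ ∈ L₁` (`M ≥ 1`).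
1. `ε = θ y / y`, `ε^(p^s) = 1`, `s ≤ M`: `ε ∈ L₁`, `θ ε = ε`, `θ^p y = ε^p y`. `θ^p` fixes `F`, the `β i` and
   `ζ`, hence `L`; so `ε^p y ∈ Orb L y`, `hT` gives `ε^p = 1`, `ε = ξ^k`.
2. `y' = y (ζ⁻¹)^k`, `θ y' = y'`.
3. `Orb L y' ⊆ Orb L₁ y'` (`lf2_mono`, `orb_mono`). Conversely let `ρ` fix `L₁`: `ρ ζ = ω ζ`, `ω^p = 1`, `ω = ξ^c`;
   `λ = ρ * (θ^c)⁻¹` fixes `F`, `β i`, and `ζ` (`(θ^c)⁻¹ ζ = ξ^(-c) ζ`, `ρ` fixes `ξ`), hence `L`, and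
   `ρ y' = λ (θ^c y') = λ y'`.
-/

set_option autoImplicit false
set_option linter.unusedSectionVars false

open NumberField IntermediateField

namespace Pool.Agent.H72.PB

open Pool.Agent.H72.RM Pool.Agent.H72.RG

variable {K Ω : Type} [Field K] [Field Ω] [CharZero Ω] [IsAlgClosed Ω] [Algebra K Ω]
  [IsGalois K Ω] {r : ℕ}

theorem desc_z2 (p : ℕ) [Fact p.Prime] (b : Fin r → K) (hb : ∀ i, b i ≠ 0)
    (F : IntermediateField K Ω) (n M s : ℕ) (hnM : n ≤ M) (hM : 1 ≤ M) (hsM : s ≤ M)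
    (θ : Ω ≃ₐ[K] Ω) (hθL : ∀ x ∈ Lf b F (p ^ n) (p ^ M), θ x = x)
    (hθζ : ∀ ζ : Ω, IsPrimitiveRoot ζ (p ^ (M + 1)) → θ ζ ≠ ζ) (y : Ω) (hy0 : y ≠ 0)
    (hys : (θ y) ^ (p ^ s) = y ^ (p ^ s)) (hT : TP p (Lf b F (p ^ n) (p ^ (M + 1))) y) :
    ∃ ε : Ω, ε ^ (p ^ (M + 1)) = 1 ∧
      Orb (Lf b F (p ^ n) (p ^ M)) (y * ε) = Orb (Lf b F (p ^ n) (p ^ (M + 1))) (y * ε) := by
  have hp : p.Prime := Fact.out
  have hp0 : p ≠ 0 := hp.ne_zero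
  have : NeZero p := ⟨hp0⟩
  have : NeZero ((p ^ (M + 1) : ℕ) : Ω) := ⟨by exact_mod_cast (pow_ne_zero (M + 1) hp0)⟩
  have : NeZero (p ^ (M + 1)) := ⟨pow_ne_zero (M + 1) hp0⟩
  obtain ⟨ζ, hζ⟩ : ∃ ζ : Ω, IsPrimitiveRoot ζ (p ^ (M + 1)) :=
    HasEnoughRootsOfUnity.exists_primitiveRoot Ω (p ^ (M + 1))
  have hζ0 : ζ ≠ 0 := hζ.ne_zero (pow_ne_zero (M + 1) hp0)
  have hβex : ∀ i, ∃ β : Ω, β ^ (p ^ n) = algebraMap K Ω (b i) := fun i =>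
    IsAlgClosed.exists_pow_nat_eq _ (pow_pos hp.pos n)
  choose β hβ using hβex
  have hL := lf2_gen b hb F (p ^ n) (p ^ (M + 1)) (Nat.one_le_pow _ _ hp.pos)
    (Nat.one_le_pow _ _ hp.pos) (pow_dvd_pow p (by omega)) ζ hζ β hβ
  have hζpL₁ : ζ ^ p ∈ Lf b F (p ^ n) (p ^ M) := by
    refine IntermediateField.subset_adjoin K _ (Or.inr (Or.inl ?_))
    show (ζ ^ p) ^ (p ^ M) = 1
    rw [← pow_mul, ← pow_succ', hζ.pow_eq_one]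
  have hβL₁ : ∀ i, β i ∈ Lf b F (p ^ n) (p ^ M) := fun i =>
    IntermediateField.subset_adjoin K _ (Or.inr (Or.inr ⟨i, hβ i⟩))
  have hFL₁ : ∀ x ∈ F, x ∈ Lf b F (p ^ n) (p ^ M) := fun x hx =>
    IntermediateField.subset_adjoin K _ (Or.inl hx)
  -- the action of `θ` on `ζ`
  have hθp : θ (ζ ^ p) = ζ ^ p := hθL _ hζpL₁
  obtain ⟨ξ, hξdef⟩ : ∃ ξ : Ω, ξ = θ ζ / ζ := ⟨_, rfl⟩
  have hθζ' : θ ζ = ξ * ζ := by
    rw [hξdef, div_mul_cancel₀ _ hζ0]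
  have hξp : ξ ^ p = 1 := by
    rw [hξdef, div_pow, ← map_pow, hθp]
    exact div_self (pow_ne_zero p hζ0)
  have hξ1 : ξ ≠ 1 := by
    intro h1
    apply hθζ ζ hζ
    rw [hθζ', h1, one_mul]
  have hξprim : IsPrimitiveRoot ξ p := by
    have h1 := orderOf_eq_prime hξp hξ1
    rw [← h1]
    exact IsPrimitiveRoot.orderOf ξ
  have hξ0 : ξ ≠ 0 := hξprim.ne_zero hp0
  have hξL₁ : ξ ∈ Lf b F (p ^ n) (p ^ M) := by
    refine IntermediateField.subset_adjoin K _ (Or.inr (Or.inl ?_))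
    show ξ ^ (p ^ M) = 1
    obtain ⟨M', rfl⟩ : ∃ M', M = M' + 1 := ⟨M - 1, by omega⟩
    rw [pow_succ', pow_mul, hξp, one_pow]
  have hθξ : θ ξ = ξ := hθL _ hξL₁
  have hiterζ : ∀ i : ℕ, (θ ^ i) ζ = ξ ^ i * ζ := by
    intro i
    induction i with
    | zero => simp
    | succ i ih =>
      rw [pow_succ', AlgEquiv.mul_apply, ih, map_mul, map_pow, hθξ, hθζ', ← mul_assoc, ← pow_succ]
  have hiterF : ∀ i : ℕ, ∀ x : Ω, θ x = x → (θ ^ i) x = x := by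
    intro i x hx
    induction i with
    | zero => simp
    | succ i ih => rw [pow_succ', AlgEquiv.mul_apply, ih, hx]
  have hinvF : ∀ i : ℕ, ∀ x : Ω, θ x = x → (θ ^ i)⁻¹ x = x := by
    intro i x hx
    calc (θ ^ i)⁻¹ x = (θ ^ i)⁻¹ ((θ ^ i) x) := by rw [hiterF i x hx]
      _ = x := by rw [← AlgEquiv.mul_apply, inv_mul_cancel, AlgEquiv.one_apply]
  -- automorphisms fixing the generators fix `L`
  have hfixL : ∀ τ : Ω ≃ₐ[K] Ω, (∀ x ∈ F, τ x = x) → τ ζ = ζ → (∀ i, τ (β i) = β i) →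
      ∀ x ∈ Lf b F (p ^ n) (p ^ (M + 1)), τ x = x := by
    intro τ h1 h2 h3 x hx
    rw [hL] at hx
    refine fixed_of_mem_adjoin _ (τ : Ω →ₐ[K] Ω) ?_ x hx
    rintro z (hz | hz | ⟨i, rfl⟩)
    · exact h1 z hz
    · rw [Set.mem_singleton_iff] at hz
      rw [hz]
      exact h2
    · exact h3 i
  -- the root of unity `θ y / y`
  obtain ⟨ε, hεdef⟩ : ∃ ε : Ω, ε = θ y / y := ⟨_, rfl⟩
  have hθy : θ y = ε * y := by
    rw [hεdef, div_mul_cancel₀ _ hy0]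
  have hεs : ε ^ (p ^ s) = 1 := by
    rw [hεdef, div_pow, hys]
    exact div_self (pow_ne_zero _ hy0)
  have hθε : θ ε = ε := by
    refine hθL _ (IntermediateField.subset_adjoin K _ (Or.inr (Or.inl ?_)))
    show ε ^ (p ^ M) = 1
    have h1 : p ^ M = p ^ s * p ^ (M - s) := by rw [← pow_add, Nat.add_sub_cancel' hsM]
    rw [h1, pow_mul, hεs, one_pow]
  have hitery : ∀ i : ℕ, (θ ^ i) y = ε ^ i * y := by
    intro i
    induction i with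
    | zero => simp
    | succ i ih =>
      rw [pow_succ', AlgEquiv.mul_apply, ih, map_mul, map_pow, hθε, hθy, ← mul_assoc, ← pow_succ]
  have hεp : ε ^ p = 1 := by
    refine hT (ε ^ p) s ?_ ⟨θ ^ p, hfixL (θ ^ p) (fun x hx => hiterF p x (hθL x (hFL₁ x hx))) ?_
      (fun i => hiterF p _ (hθL _ (hβL₁ i))), hitery p⟩
    · rw [← pow_mul, mul_comm, pow_mul, hεs, one_pow]
    · rw [hiterζ, hξp, one_mul]
  obtain ⟨k, -, hk⟩ := hξprim.eq_pow_of_pow_eq_one hεp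
  have hθy' : θ (y * (ζ⁻¹) ^ k) = y * (ζ⁻¹) ^ k := by
    rw [map_mul, map_pow, map_inv₀, hθy, hθζ', ← hk, mul_inv, mul_pow, inv_pow]
    field_simp
  refine ⟨(ζ⁻¹) ^ k, ?_, ?_⟩
  · rw [← pow_mul, mul_comm, pow_mul, inv_pow, hζ.pow_eq_one, inv_one, one_pow]
  · apply Set.Subset.antisymm
    · rintro _ ⟨ρ, hρ, rfl⟩
      have hω : (ρ ζ / ζ) ^ p = 1 := by
        rw [div_pow, ← map_pow, hρ _ hζpL₁]
        exact div_self (pow_ne_zero p hζ0)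
      obtain ⟨c, -, hc⟩ := hξprim.eq_pow_of_pow_eq_one hω
      have hρζ : ρ ζ = ξ ^ c * ζ := by
        rw [hc, div_mul_cancel₀ _ hζ0]
      refine ⟨ρ * (θ ^ c)⁻¹, hfixL _ ?_ ?_ ?_, ?_⟩
      · intro x hx
        rw [AlgEquiv.mul_apply, hinvF c x (hθL x (hFL₁ x hx)), hρ x (hFL₁ x hx)]
      · have h1 : (θ ^ c)⁻¹ ζ = (ξ⁻¹) ^ c * ζ := by
          have h2 : (θ ^ c) ((ξ⁻¹) ^ c * ζ) = ζ := by
            rw [map_mul, map_pow, map_inv₀, hiterF c ξ hθξ, hiterζ, ← mul_assoc, ← mul_pow,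
              inv_mul_cancel₀ hξ0, one_pow, one_mul]
          calc (θ ^ c)⁻¹ ζ = (θ ^ c)⁻¹ ((θ ^ c) ((ξ⁻¹) ^ c * ζ)) := by rw [h2]
            _ = (ξ⁻¹) ^ c * ζ := by rw [← AlgEquiv.mul_apply, inv_mul_cancel, AlgEquiv.one_apply]
        rw [AlgEquiv.mul_apply, h1, map_mul, map_pow, map_inv₀, hρ ξ hξL₁, hρζ, ← mul_assoc,
          ← mul_pow, inv_mul_cancel₀ hξ0, one_pow, one_mul]
      · intro i
        rw [AlgEquiv.mul_apply, hinvF c _ (hθL _ (hβL₁ i)), hρ _ (hβL₁ i)]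
      · rw [AlgEquiv.mul_apply, hinvF c _ hθy']
    · exact orb_mono (lf2_mono b F (p ^ n) (p ^ M) (p ^ n) (p ^ (M + 1)) (dvd_refl _)
        (pow_dvd_pow p (by omega)) (Nat.one_le_pow _ _ hp.pos)) _

end Pool.Agent.H72.PB
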