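import Pool.Agent.H72.RM.Cyc

/-!
# Module MuClose: roots of unity of `p`-power order are close to `1`

`η^(p^s) = 1`. If `η = 1` trivial. Otherwise `η` has order `p^j`, `1 ≤ j ≤ s`, and
`‖η - 1‖^(p^(j-1)(p-1)) = 1/p` (`norm_zeta_sub_one`, file `H72/RM/Cyc.lean`), so
`‖η - 1‖ = exp (-(log p / (p^(j-1)(p-1)))) ≤ exp (-(log p / (2 p^s)))` since `p^(j-1)(p-1) ≤ p^j ≤ 2 p^s`.
(From `x^k = 1/p`, `k ≥ 1`, `x > 0`: `k log x = - log p`.)
`rho_pow`: `exp(-(log p/(2 p^s)))^(p^s) = exp(-(log p / 2))`.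
-/

set_option autoImplicit false
set_option linter.unusedSectionVars false

namespace Pool.Agent.H72.PB

open Pool.Agent.H72.RM

variable {p : ℕ} [Fact p.Prime] {C : Type} [NormedField C] [NormedAlgebra ℚ_[p] C]
  [IsUltrametricDist C] [IsAlgClosed C] [Algebra.IsAlgebraic ℚ_[p] C] [IsoEnv p C]

theorem mu_close (s : ℕ) (η : C) (hη : η ^ (p ^ s) = 1) :
    ‖η - 1‖ ≤ Real.exp (-(Real.log p / (2 * (p : ℝ) ^ s))) := by
  have hp : p.Prime := Fact.out
  have hpr : (1 : ℝ) < p := by exact_mod_cast hp.one_lt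
  have hlog : 0 < Real.log p := Real.log_pos hpr
  obtain ⟨j, hj, hjo⟩ := (Nat.dvd_prime_pow hp).1 (orderOf_dvd_of_pow_eq_one hη)
  rcases Nat.eq_zero_or_pos j with h0 | h1
  · rw [h0, pow_zero, orderOf_eq_one_iff] at hjo
    rw [hjo, sub_self, norm_zero]
    exact (Real.exp_pos _).le
  have hprim : IsPrimitiveRoot η (p ^ j) := by
    rw [← hjo]
    exact IsPrimitiveRoot.orderOf η
  set N : ℕ := p ^ (j - 1) * (p - 1) with hN
  have hnorm : ‖η - 1‖ ^ N = 1 / (p : ℝ) := norm_zeta_sub_one j h1 η hprim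
  have hp2 : 2 ≤ p := hp.two_le
  have hNpos : 0 < N := Nat.mul_pos (pow_pos hp.pos _) (by omega)
  have hl0 : η - 1 ≠ 0 := by
    intro h0
    rw [h0, norm_zero, zero_pow hNpos.ne'] at hnorm
    have : (0 : ℝ) < 1 / (p : ℝ) := by positivity
    linarith
  have hlpos : 0 < ‖η - 1‖ := norm_pos_iff.2 hl0
  have hNle : (N : ℝ) ≤ 2 * (p : ℝ) ^ s := by
    have h2 : N ≤ 2 * p ^ s := by
      have h3 : p ^ (j - 1) * (p - 1) ≤ p ^ (j - 1) * p := Nat.mul_le_mul_left _ (by omega)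
      have h4 : p ^ (j - 1) * p = p ^ j := by
        rw [← pow_succ]; congr 1; omega
      have h5 : p ^ j ≤ p ^ s := Nat.pow_le_pow_right hp.pos hj
      omega
    exact_mod_cast h2
  have hNr : (0 : ℝ) < N := by exact_mod_cast hNpos
  have h2 : (N : ℝ) * Real.log ‖η - 1‖ = -Real.log p := by
    rw [← Real.log_pow, hnorm, one_div, Real.log_inv]
  have h3 : ‖η - 1‖ = Real.exp (-(Real.log p / N)) := by
    have h4 : Real.log ‖η - 1‖ = -(Real.log p / N) := by
      field_simp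
      linarith
    rw [← h4, Real.exp_log hlpos]
  rw [h3]
  apply Real.exp_le_exp.2
  have h5 : Real.log p / (2 * (p : ℝ) ^ s) ≤ Real.log p / N :=
    div_le_div_of_nonneg_left hlog.le hNr hNle
  linarith

theorem rho_pow (p s : ℕ) (hp : 1 ≤ p) :
    (Real.exp (-(Real.log p / (2 * (p : ℝ) ^ s)))) ^ (p ^ s) = Real.exp (-(Real.log p / 2)) := by
  rw [← Real.exp_nat_mul]
  congr 1
  have h1 : (0 : ℝ) < p := by exact_mod_cast hp
  have h2 : (0 : ℝ) < (p : ℝ) ^ s := by positivity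
  push_cast
  field_simp

end Pool.Agent.H72.PB
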