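import Pool.Agent.H72.PB.OrbA
import Pool.Agent.H72.RG.LfFacts
import Pool.Agent.H72.RM.Desc

/-!
# Module OrbIdx: the number of classes; powers of `θ`

`orb_idx`: `Lb = Lf b F (p^n) (p^M)`, `Lt = Lf b F (p^(n+a)) (p^(M+a'))`, `n + a ≤ M + a'`; `ζ` a primitive
`p^(M+a')`-th root of unity, `(β i)^(p^(n+a)) = b i`, `Lt = K(F, ζ, β)` (`lf2_gen`, file `H72/RG/LfFacts.lean`).
For `g` fixing `Lb`: `g ζ = ω ζ` with `ω^(p^a') = 1` (`ζ^(p^a') ∈ Lb`), `g (β i) = ω_i β i`, `ω_i^(p^a) = 1`.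
The tuple `(ω, (ω_i))` takes at most `p^a' (p^a)^r` values (roots of unity: `Polynomial.card_nthRoots`, or
powers of primitive roots as in `conj_count`, file `H72/RG/ConjCount.lean`, read it). If `g`, `g'` have the
same tuple then `g⁻¹ g'` fixes `F` (`⊆ Lb`), `ζ`, `β i`, hence `Lt` (`fixed_of_mem_adjoin`), so
`g' z ∈ g '' Orb Lt z`. So `Orb Lb z` is contained in the union of at most `p^a' (p^a)^r` sets
`g_c '' Orb Lt z`, each with `dg Lt z` elements.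
`theta_pow`: generators: `x ∈ F` is fixed; if `x^(p^(M+l)) = 1` or `x^(p^(n+l)) = b i` then `x^(p^l)` is in
`Lf b F (p^n) (p^M)`, fixed by `θ`, so `θ x = ω x` with `ω^(p^l) = 1`, and `ω` is fixed by `θ` because
`l ≤ M`; `θ^(p^l) x = ω^(p^l) x = x`.
`theta_move`: `ζ` primitive of order `p^(M+l+1)`: `θ ζ = ω ζ`, `ω^(p^(l+1)) = 1` (`ζ^(p^(l+1))` is a `p^M`-th
root of unity), `ω` is fixed by `θ` (`l + 1 ≤ M`), and `ω^(p^l) ≠ 1` because `ζ^(p^l)` is a primitive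
`p^(M+1)`-th root of unity, moved by `θ`. So `θ^(p^l) ζ = ω^(p^l) ζ ≠ ζ`.
-/

set_option autoImplicit false
set_option linter.unusedSectionVars false

open NumberField IntermediateField

namespace Pool.Agent.H72.PB

open Pool.Agent.H72.RM Pool.Agent.H72.RG

variable {K Ω : Type} [Field K] [Field Ω] [CharZero Ω] [IsAlgClosed Ω] [Algebra K Ω]
  [IsGalois K Ω] {r : ℕ}

theorem orb_idx (p : ℕ) [Fact p.Prime] (b : Fin r → K) (hb : ∀ i, b i ≠ 0)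
    (F : IntermediateField K Ω) (hF : ∀ σ : Ω ≃ₐ[K] Ω, ∀ x ∈ F, σ x ∈ F) (n M a a' : ℕ)
    (hnM : n + a ≤ M + a') (z : Ω) :
    dg (Lf b F (p ^ n) (p ^ M)) z ≤
      p ^ a' * (p ^ a) ^ r * dg (Lf b F (p ^ (n + a)) (p ^ (M + a'))) z := by
  classical
  have hp : p.Prime := Fact.out
  have hpa : 0 < p ^ a := pow_pos hp.pos a
  have hpa' : 0 < p ^ a' := pow_pos hp.pos a'
  haveI : NeZero (p ^ a) := ⟨hpa.ne'⟩
  haveI : NeZero (p ^ a') := ⟨hpa'.ne'⟩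
  haveI : NeZero (p ^ (M + a')) := ⟨(pow_pos hp.pos _).ne'⟩
  obtain ⟨ζ, hζ⟩ := HasEnoughRootsOfUnity.exists_primitiveRoot Ω (p ^ (M + a'))
  obtain ⟨ω, hω⟩ := HasEnoughRootsOfUnity.exists_primitiveRoot Ω (p ^ a)
  obtain ⟨ω', hω'⟩ := HasEnoughRootsOfUnity.exists_primitiveRoot Ω (p ^ a')
  have hβex : ∀ i, ∃ y : Ω, y ^ (p ^ (n + a)) = algebraMap K Ω (b i) := fun i =>
    IsAlgClosed.exists_pow_nat_eq _ (pow_pos hp.pos _)
  choose β hβ using hβex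
  have hβ0 : ∀ i, β i ≠ 0 := by
    intro i h
    have h1 := hβ i
    rw [h, zero_pow (pow_pos hp.pos _).ne'] at h1
    exact hb i ((map_eq_zero (algebraMap K Ω)).1 h1.symm)
  have hζ0 : ζ ≠ 0 := hζ.ne_zero (pow_pos hp.pos _).ne'
  have hL : Lf b F (p ^ (n + a)) (p ^ (M + a')) =
      IntermediateField.adjoin K ((F : Set Ω) ∪ ({ζ} ∪ Set.range β)) :=
    lf2_gen b hb F _ _ (Nat.one_le_pow _ _ hp.pos) (Nat.one_le_pow _ _ hp.pos)
      (pow_dvd_pow p hnM) ζ hζ β hβ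
  have hζmem : ζ ^ (p ^ a') ∈ Lf b F (p ^ n) (p ^ M) := by
    refine IntermediateField.subset_adjoin K _ (Or.inr (Or.inl ?_))
    rw [Set.mem_setOf_eq, ← pow_mul, ← pow_add, add_comm, hζ.pow_eq_one]
  have hβmem : ∀ i, β i ^ (p ^ a) ∈ Lf b F (p ^ n) (p ^ M) := by
    intro i
    refine IntermediateField.subset_adjoin K _ (Or.inr (Or.inr ⟨i, ?_⟩))
    rw [← pow_mul, ← pow_add, add_comm, hβ]
  have hFmem : ∀ x ∈ F, x ∈ Lf b F (p ^ n) (p ^ M) := fun x hx => lf2_base b F _ _ hx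
  have hroot : ∀ (q : ℕ) (hq : 0 < q) (o : Ω) (ho : IsPrimitiveRoot o q) (g : Ω ≃ₐ[K] Ω)
      (_ : ∀ x ∈ Lf b F (p ^ n) (p ^ M), g x = x) (y : Ω), y ≠ 0 →
      y ^ q ∈ Lf b F (p ^ n) (p ^ M) → ∃ c : Fin q, g y = o ^ (c : ℕ) * y := by
    intro q hq o ho g hg y hy0 hy
    haveI : NeZero q := ⟨hq.ne'⟩
    have h1 : (g y / y) ^ q = 1 := by
      rw [div_pow, ← map_pow, hg _ hy, div_self (pow_ne_zero _ hy0)]
    obtain ⟨i, hi, hi2⟩ := ho.eq_pow_of_pow_eq_one h1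
    exact ⟨⟨i, hi⟩, by rw [hi2, div_mul_cancel₀ _ hy0]⟩
  -- the group fixing the small field
  let G := {g : Ω ≃ₐ[K] Ω // ∀ x ∈ Lf b F (p ^ n) (p ^ M), g x = x}
  have htype : ∀ g : G, ∃ c : Fin (p ^ a') × (Fin r → Fin (p ^ a)),
      g.1 ζ = ω' ^ (c.1 : ℕ) * ζ ∧ ∀ i, g.1 (β i) = ω ^ (c.2 i : ℕ) * β i := by
    intro g
    obtain ⟨c1, h1⟩ := hroot _ hpa' ω' hω' g.1 g.2 ζ hζ0 hζmem
    have h2 := fun i => hroot _ hpa ω hω g.1 g.2 (β i) (hβ0 i) (hβmem i)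
    choose c2 h2 using h2
    exact ⟨(c1, c2), h1, h2⟩
  choose ty hty1 hty2 using htype
  have hagree : ∀ g g' : G, ty g = ty g' →
      ∀ y ∈ Lf b F (p ^ (n + a)) (p ^ (M + a')), g.1 y = g'.1 y := by
    intro g g' hgg y hy
    rw [hL] at hy
    refine desc_agree _ _ _ ?_ y hy
    intro x hx
    rcases hx with hx | hx | ⟨i, rfl⟩
    · rw [g.2 x (hFmem x hx), g'.2 x (hFmem x hx)]
    · rw [Set.mem_singleton_iff] at hx
      rw [hx, hty1, hty1, hgg]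
    · rw [hty2, hty2, hgg]
  have hfin := orb_finite (Lf b F (p ^ (n + a)) (p ^ (M + a'))) z
  let rep : (Fin (p ^ a') × (Fin r → Fin (p ^ a))) → (Ω ≃ₐ[K] Ω) := fun c =>
    if h : ∃ g, ty g = c then (h.choose).1 else 1
  have hsub : Orb (Lf b F (p ^ n) (p ^ M)) z ⊆
      ((Finset.univ : Finset (Fin (p ^ a') × (Fin r → Fin (p ^ a)))).biUnion
        fun c => hfin.toFinset.image (rep c) : Finset Ω) := by
    rintro x ⟨g, hg, rfl⟩
    have hex : ∃ g', ty g' = ty ⟨g, hg⟩ := ⟨⟨g, hg⟩, rfl⟩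
    rw [Finset.mem_coe, Finset.mem_biUnion]
    refine ⟨ty ⟨g, hg⟩, Finset.mem_univ _, ?_⟩
    rw [Finset.mem_image]
    refine ⟨(rep (ty ⟨g, hg⟩)).symm (g z), ?_, AlgEquiv.apply_symm_apply _ _⟩
    rw [Set.Finite.mem_toFinset]
    refine ⟨g.trans (rep (ty ⟨g, hg⟩)).symm, fun w hw => ?_, rfl⟩
    have h1 : rep (ty ⟨g, hg⟩) = (hex.choose).1 := dif_pos hex
    rw [AlgEquiv.trans_apply, h1, ← hagree _ _ hex.choose_spec w hw, AlgEquiv.symm_apply_apply]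
  unfold dg
  calc (Orb (Lf b F (p ^ n) (p ^ M)) z).ncard
      ≤ (((Finset.univ : Finset (Fin (p ^ a') × (Fin r → Fin (p ^ a)))).biUnion
        fun c => hfin.toFinset.image (rep c) : Finset Ω) : Set Ω).ncard :=
        Set.ncard_le_ncard hsub (Finset.finite_toSet _)
    _ = ((Finset.univ : Finset (Fin (p ^ a') × (Fin r → Fin (p ^ a)))).biUnion
        fun c => hfin.toFinset.image (rep c) : Finset Ω).card := Set.ncard_coe_finset _
    _ ≤ (Finset.univ : Finset (Fin (p ^ a') × (Fin r → Fin (p ^ a)))).card *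
        (Orb (Lf b F (p ^ (n + a)) (p ^ (M + a'))) z).ncard := by
        refine Finset.card_biUnion_le_card_mul _ _ _ fun c _ => ?_
        refine Finset.card_image_le.trans ?_
        rw [Set.ncard_eq_toFinset_card _ hfin]
    _ = _ := by
        rw [Finset.card_univ, Fintype.card_prod, Fintype.card_fun, Fintype.card_fin,
          Fintype.card_fin, Fintype.card_fin]

/-- powers of an automorphism on an eigenvector, eigenvalue of small order -/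
theorem theta_eig (p : ℕ) [Fact p.Prime] (b : Fin r → K)
    (F : IntermediateField K Ω) (n M l : ℕ) (hl : l ≤ M) (θ : Ω ≃ₐ[K] Ω)
    (hθ : ∀ x ∈ Lf b F (p ^ n) (p ^ M), θ x = x) (x : Ω) (hx0 : x ≠ 0)
    (hx : x ^ (p ^ l) ∈ Lf b F (p ^ n) (p ^ M)) (m : ℕ) :
    (θ x / x) ^ (p ^ l) = 1 ∧ (θ ^ m) x = (θ x / x) ^ m * x := by
  have h1 : (θ x / x) ^ (p ^ l) = 1 := by
    rw [div_pow, ← map_pow, hθ _ hx, div_self (pow_ne_zero _ hx0)]
  refine ⟨h1, ?_⟩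
  have h2 : θ (θ x / x) = θ x / x := by
    refine hθ _ (IntermediateField.subset_adjoin K _ (Or.inr (Or.inl ?_)))
    rw [Set.mem_setOf_eq, ← Nat.add_sub_cancel' hl, pow_add, pow_mul, h1, one_pow]
  exact desc_pow_fixed θ x (θ x / x) h2 (by rw [div_mul_cancel₀ _ hx0]) m

theorem theta_pow (p : ℕ) [Fact p.Prime] (b : Fin r → K) (hb : ∀ i, b i ≠ 0)
    (F : IntermediateField K Ω) (n M l : ℕ) (hl : l ≤ M) (θ : Ω ≃ₐ[K] Ω)
    (hθ : ∀ x ∈ Lf b F (p ^ n) (p ^ M), θ x = x) :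
    ∀ x ∈ Lf b F (p ^ (n + l)) (p ^ (M + l)), (θ ^ (p ^ l)) x = x := by
  have hp : p.Prime := Fact.out
  intro x hx
  refine fixed_of_mem_adjoin _ (θ ^ (p ^ l)).toAlgHom ?_ x hx
  intro y hy
  show (θ ^ (p ^ l)) y = y
  have key : ∀ y : Ω, y ≠ 0 → y ^ (p ^ l) ∈ Lf b F (p ^ n) (p ^ M) → (θ ^ (p ^ l)) y = y := by
    intro y hy0 hy
    obtain ⟨h1, h2⟩ := theta_eig p b F n M l hl θ hθ y hy0 hy (p ^ l)
    rw [h2, h1, one_mul]
  rcases hy with h | h | ⟨i, h⟩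
  · have h1 : θ y = y := hθ y (lf2_base b F _ _ h)
    have h2 : ∀ m : ℕ, (θ ^ m) y = y := by
      intro m
      induction m with
      | zero => rfl
      | succ m ih => rw [pow_succ, AlgEquiv.mul_apply, h1, ih]
    exact h2 _
  · have h' : y ^ (p ^ (M + l)) = 1 := h
    refine key y ?_ (IntermediateField.subset_adjoin K _ (Or.inr (Or.inl ?_)))
    · rintro rfl
      rw [zero_pow (pow_pos hp.pos _).ne'] at h'
      exact zero_ne_one h'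
    · rw [Set.mem_setOf_eq, ← pow_mul, ← pow_add, add_comm, h']
  · refine key y ?_ (IntermediateField.subset_adjoin K _ (Or.inr (Or.inr ⟨i, ?_⟩)))
    · rintro rfl
      rw [zero_pow (pow_pos hp.pos _).ne'] at h
      exact hb i ((map_eq_zero (algebraMap K Ω)).1 h.symm)
    · rw [← pow_mul, ← pow_add, add_comm, h]

theorem theta_move (p : ℕ) [Fact p.Prime] (b : Fin r → K)
    (F : IntermediateField K Ω) (n M l : ℕ) (hl : l + 1 ≤ M) (θ : Ω ≃ₐ[K] Ω)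
    (hθ : ∀ x ∈ Lf b F (p ^ n) (p ^ M), θ x = x)
    (hmov : ∀ ζ : Ω, IsPrimitiveRoot ζ (p ^ (M + 1)) → θ ζ ≠ ζ) :
    ∀ ζ : Ω, IsPrimitiveRoot ζ (p ^ (M + l + 1)) → (θ ^ (p ^ l)) ζ ≠ ζ := by
  have hp : p.Prime := Fact.out
  intro ζ hζ heq
  have hζ0 : ζ ≠ 0 := hζ.ne_zero (pow_pos hp.pos _).ne'
  have hmem : ζ ^ (p ^ (l + 1)) ∈ Lf b F (p ^ n) (p ^ M) := by
    refine IntermediateField.subset_adjoin K _ (Or.inr (Or.inl ?_))
    rw [Set.mem_setOf_eq, ← pow_mul, ← pow_add, show l + 1 + M = M + l + 1 by ring,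
      hζ.pow_eq_one]
  obtain ⟨-, h2⟩ := theta_eig p b F n M (l + 1) hl θ hθ ζ hζ0 hmem (p ^ l)
  rw [heq] at h2
  have h3 : (θ ζ / ζ) ^ (p ^ l) = 1 := by
    have h4 : (θ ζ / ζ) ^ (p ^ l) * ζ = 1 * ζ := by rw [one_mul]; exact h2.symm
    exact mul_right_cancel₀ hζ0 h4
  have h5 : IsPrimitiveRoot (ζ ^ (p ^ l)) (p ^ (M + 1)) :=
    hζ.pow (pow_pos hp.pos _) (by rw [← pow_add]; congr 1; ring)
  refine hmov _ h5 ?_
  rw [map_pow]
  rw [div_pow, div_eq_one_iff_eq (pow_ne_zero _ hζ0)] at h3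
  exact h3

end Pool.Agent.H72.PB
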