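import Pool.Agent.H72.PB.StepB2
import Pool.Agent.H72.PB.StepZ2
import Pool.Agent.H72.PB.Nrm
import Pool.Agent.H72.PB.LChoice
import Pool.Agent.H72.RG.PTower
import Pool.Agent.H72.PB.HNonneg

/-!
# Module PTower2: descent to a bounded `p`-level (degree `D` version)

Read the proof of `p_tower` in `Pool/Agent/H72/RG/PTower.lean`. `h₀ - 1 = p^c₁ u`, `p ∤ u`
(`Nat.exists_eq_pow_mul_and_not_dvd`, `D.h_ge`). `A` from `l_choice` (`g = finrank ℚ K`). For `Dm` take `l`,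
`e = l + J + c₁ + 1`, `n₁ = (r+2) e + 3`, `R = n₁ + J`. `F = RF Ω b n' N₀`,
`L_t = Lf b F (p^(n₁+t)) (p^(n₁+t+J))`, `Q = p^((r+1) e + (J+1+e+r e)) ≤ (A log (3 Dm))^A`.
Claim: for all `t`, `d`, `γ ∈ GammaS`, `y ≠ 0` with `dg L_t y ≤ d ≤ Dm`, `Q (dg L_t y * h(γ y)) ≤ 1` there are
`E, γ', y'` with `(γ y)^E = γ' y'`, `E * dg (RF Ω b n' (p^R N₀)) y' ≤ dg L_t y`. Induction on `t`, and for fixed
`t` strong induction on `dg L_t y`.
* `t = 0`: `E = 1`; `L_0 ≤ RF Ω b n' (p^R N₀)` (`lf2_le_rf`), `dg_mono`.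
* `t + 1`, `TP p L_(t+1) y` fails: `nrm_step`: `p dg L (y^p) = dg L y` (the `p^2`-th roots of unity are in `L`,
  the level is `≥ 2`). `γ^p ∈ GammaS`, `h((γ y)^p) = p h(γ y)` (`absLogHeight_pow`), so
  `dg L (y^p) h((γ y)^p) = dg L y h(γ y)`; induction hypothesis for `y^p`: `E'`; `E = p E'`.
* `t + 1`, `TP` holds: `step_b2` (`n = n₁ + t`): `γ₁`, `y₁ = y / γ₁`; `dg (Lf b F (p^n) (p^(n+1+J))) y₁ =
  dg L_(t+1) y₁ = dg L_(t+1) y` (`dg_smul`, `γ₁⁻¹ ∈ L`), `TP` for `y₁` over `L_(t+1)` (`tp_smul`) is `TP` over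
  `Lf b F (p^n) (p^(n+1+J))` (same orbit). `γ y = (γ γ₁) y₁`, `γ₁ ∈ GammaS` (`gam_of_pow`), `gam_eta`.
  `step_z2`: `ε`, `y₂ = y₁ ε`, `dg L_t y₂ = dg (Lf b F (p^n) (p^(n+1+J))) y₂ = dg .. y₁` (`ε` is in that
  field), `γ y = (γ γ₁ ε⁻¹) y₂`; induction hypothesis for `t`.
In the end `t = k`: `RF Ω b n' (p^k N₀) ≤ L_k` (`rf_le_lf2`, `lf2_mono`), `dg L_k y ≤ dg (RF ..) y`
(`dg_mono`).
-/

set_option autoImplicit false
set_option linter.unusedSectionVars false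

open NumberField IntermediateField

namespace Pool.Agent.H72.PB

open Pool.Agent.H72.RM Pool.Agent.H72.RG

variable {p : ℕ} [Fact p.Prime] {C : Type} [NormedField C] [NormedAlgebra ℚ_[p] C]
  [IsUltrametricDist C] [IsAlgClosed C] [Algebra.IsAlgebraic ℚ_[p] C] [IsoEnv p C]
  {K Ω : Type} [Field K] [NumberField K] [Field Ω] [CharZero Ω] [IsAlgClosed Ω] [Algebra K Ω]
  [IsGalois K Ω] {r : ℕ} {b : Fin r → K} {ι : Ω →+* C} {h₀ J : ℕ}

theorem gam_pow {S : Set ℕ} {x : Ω} (hx : x ∈ GammaS Ω b S) (n : ℕ) : x ^ n ∈ GammaS Ω b S := by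
  induction n with
  | zero =>
    rw [pow_zero]
    exact gam_of_pow 1 le_rfl (fun q hq hq1 => absurd (Nat.dvd_one.1 hq1) hq.one_lt.ne') 0 (by simp)
  | succ n ih =>
    rw [pow_succ]
    exact gam_mul ih hx

theorem p_tower2 (D : SX K Ω p C b ι h₀ J) (S : Set ℕ) (hpS : p ∈ S) :
    ∃ A : ℕ, 1 ≤ A ∧ ∀ Dm : ℕ, 1 ≤ Dm → ∃ R : ℕ,
      (p : ℝ) ^ R ≤ (A * Real.log (3 * Dm)) ^ A ∧
      ∀ n' N₀ : ℕ, 1 ≤ n' → 1 ≤ N₀ → ¬ p ∣ n' → ¬ p ∣ N₀ →
      ∀ (k : ℕ) (γ y : Ω), γ ∈ GammaS Ω b S → y ≠ 0 →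
      dg (RF Ω b n' (p ^ k * N₀)) y ≤ Dm →
      (A * Real.log (3 * Dm)) ^ A *
        ((dg (RF Ω b n' (p ^ k * N₀)) y : ℝ) * absLogHeight₁ (γ * y)) ≤ 1 →
      ∃ E : ℕ, 1 ≤ E ∧ ∃ γ' ∈ GammaS Ω b S, ∃ y' : Ω, y' ≠ 0 ∧ (γ * y) ^ E = γ' * y' ∧
        E * dg (RF Ω b n' (p ^ R * N₀)) y' ≤ dg (RF Ω b n' (p ^ k * N₀)) y := by
  classical
  have hpp : p.Prime := Fact.out
  have hh2 := D.h_ge
  obtain ⟨c₁, u, hu, hdh⟩ := Nat.exists_eq_pow_mul_and_not_dvd (n := h₀ - 1) (by omega) p hpp.ne_one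
  obtain ⟨A, hA1, hA⟩ := l_choice p r (Module.finrank ℚ K) J c₁ hpp.two_le
  refine ⟨A, hA1, fun Dm hDm => ?_⟩
  obtain ⟨l, hl⟩ := hA Dm hDm
  obtain ⟨e, he⟩ : ∃ e, e = l + J + c₁ + 1 := ⟨_, rfl⟩
  obtain ⟨hnum, hQ, hR⟩ := hl e he
  obtain ⟨n₁, hn₁⟩ : ∃ n₁, n₁ = (r + 2) * e + 3 := ⟨_, rfl⟩
  refine ⟨n₁ + J, by rw [hn₁]; exact hR, ?_⟩
  intro n' N₀ hn' hN₀ hpn' hpN₀
  obtain ⟨B, hB⟩ : ∃ B : ℝ, B = (A * Real.log (3 * Dm)) ^ A := ⟨_, rfl⟩
  obtain ⟨Q, hQd⟩ : ∃ Q : ℝ, Q = (p : ℝ) ^ ((r + 1) * e + (J + 1 + e + r * e)) := ⟨_, rfl⟩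
  rw [← hB, ← hQd] at hQ
  rw [← hB]
  have hp0 : (0 : ℝ) < p := by exact_mod_cast hpp.pos
  have hQ0 : 0 < Q := by rw [hQd]; positivity
  set F := RF Ω b n' N₀ with hFdef
  have hF : ∀ σ : Ω ≃ₐ[K] Ω, ∀ x ∈ F, σ x ∈ F := fun σ x hx => rf_stable b n' N₀ σ x hx
  obtain ⟨Lv, hLv⟩ : ∃ Lv : ℕ → IntermediateField K Ω,
      ∀ t, Lv t = Lf b F (p ^ (n₁ + t)) (p ^ (n₁ + t + J)) := ⟨_, fun _ => rfl⟩
  have hroot : ∀ (t : ℕ) (x : Ω), x ^ (p ^ (n₁ + t + J)) = 1 → x ∈ Lv t := by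
    intro t x hx
    rw [hLv]
    exact IntermediateField.subset_adjoin K _ (Or.inr (Or.inl hx))
  have hint : ∀ x : Ω, IsIntegral ℚ x := fun x => int_all K x
  have claim : ∀ (t d : ℕ) (γ y : Ω), γ ∈ GammaS Ω b S → y ≠ 0 → dg (Lv t) y = d → d ≤ Dm →
      Q * ((d : ℝ) * absLogHeight₁ (γ * y)) ≤ 1 →
      ∃ E : ℕ, 1 ≤ E ∧ ∃ γ' ∈ GammaS Ω b S, ∃ y' : Ω, y' ≠ 0 ∧ (γ * y) ^ E = γ' * y' ∧
        E * dg (RF Ω b n' (p ^ (n₁ + J) * N₀)) y' ≤ d := by
    intro t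
    induction t with
    | zero =>
      intro d γ y hγ hy0 hd _ _
      refine ⟨1, le_rfl, γ, hγ, y, hy0, pow_one _, ?_⟩
      rw [one_mul, ← hd, hLv]
      exact dg_mono (lf2_le_rf b p n₁ (n₁ + J) n' N₀ hpp hn' hN₀ (by omega)) y
    | succ t ih =>
      intro d
      induction d using Nat.strong_induction_on with
      | _ d ihd =>
        intro γ y hγ hy0 hd hdD hht
        have hγ0 : γ ≠ 0 := gam_ne_zero D.ne hγ
        rcases nrm_step p (Lv (t + 1)) (fun ω hω => hroot (t + 1) ω (by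
            obtain ⟨k, hk⟩ : ∃ k, n₁ + (t + 1) + J = 2 + k := ⟨n₁ + (t + 1) + J - 2, by omega⟩
            rw [hk, pow_add, pow_mul, hω, one_pow])) y hy0 with hT | hN
        · -- `TP` holds
          have hn : n₁ + (t + 1) = n₁ + t + 1 := by omega
          have hLs : Lv (t + 1) = Lf b F (p ^ (n₁ + t + 1)) (p ^ (n₁ + t + 1 + J)) := by
            rw [hLv, hn]
          rw [hLs] at hT hd
          obtain ⟨γ₁, hγ₁0, hγ₁L, ⟨m, hm⟩, horb⟩ := step_b2 D c₁ u hu hdh l e he Dm hnum (n₁ + t)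
            (by omega) n' N₀ hn' hN₀ hpn' hpN₀ γ y hγ0 hy0 (gam_eta hγ) hT (by rw [hd]; exact hdD)
            (by rw [hd, ← hQd]; exact hht)
          have hγ₁ : γ₁ ∈ GammaS Ω b S := by
            refine gam_of_pow (p ^ (n₁ + t + 1)) (pow_pos hpp.pos _) (fun q hq hqd => ?_) m hm
            have h1 : q = p := (Nat.prime_dvd_prime_iff_eq hq hpp).1 (hq.dvd_of_dvd_pow hqd)
            rw [h1]
            exact hpS
          have e1 : γ * y = (γ * γ₁) * (y / γ₁) := by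
            field_simp
          have hy₁0 : y / γ₁ ≠ 0 := div_ne_zero hy0 hγ₁0
          have hdg1 : dg (Lf b F (p ^ (n₁ + t)) (p ^ (n₁ + t + 1 + J))) (y / γ₁) = d := by
            unfold dg
            rw [horb]
            have h1 := dg_smul (inv_mem hγ₁L) (inv_ne_zero hγ₁0) y
            rw [inv_mul_eq_div] at h1
            unfold dg at h1 hd
            rw [h1, hd]
          have hT1 : TP p (Lf b F (p ^ (n₁ + t)) (p ^ (n₁ + t + 1 + J))) (y / γ₁) := by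
            have h1 := tp_smul (inv_mem hγ₁L) (inv_ne_zero hγ₁0) hT
            rw [inv_mul_eq_div] at h1
            intro ω k hω hωO
            rw [horb] at hωO
            exact h1 ω k hω hωO
          obtain ⟨ε, hε, horb2⟩ := step_z2 D l e (by omega) Dm hnum (n₁ + t) (by omega) n' N₀ hn'
            hN₀ hpn' hpN₀ (γ * γ₁) (y / γ₁) (mul_ne_zero hγ0 hγ₁0) hy₁0 (gam_eta (gam_mul hγ hγ₁))
            hT1 (by rw [hdg1]; exact hdD) (by rw [hdg1, ← hQd, ← e1]; exact hht)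
          have hε0 : ε ≠ 0 := by
            rintro rfl
            rw [zero_pow (pow_pos hpp.pos _).ne'] at hε
            exact zero_ne_one hε
          have hεγ : ε⁻¹ ∈ GammaS Ω b S := by
            refine gam_of_pow (p ^ (n₁ + t + 1 + J)) (pow_pos hpp.pos _) (fun q hq hqd => ?_)
              (fun _ => 0) ?_
            · have h1 : q = p := (Nat.prime_dvd_prime_iff_eq hq hpp).1 (hq.dvd_of_dvd_pow hqd)
              rw [h1]
              exact hpS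
            · rw [inv_pow, hε]
              simp
          have hεL : ε ∈ Lf b F (p ^ (n₁ + t)) (p ^ (n₁ + t + 1 + J)) :=
            IntermediateField.subset_adjoin K _ (Or.inr (Or.inl hε))
          have hdg2 : dg (Lv t) (y / γ₁ * ε) = d := by
            rw [hLv]
            unfold dg
            rw [horb2]
            have h1 := dg_smul hεL hε0 (y / γ₁)
            rw [mul_comm] at h1
            unfold dg at h1 hdg1
            rw [h1, hdg1]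
          have e2 : γ * y = (γ * γ₁ * ε⁻¹) * (y / γ₁ * ε) := by
            field_simp
          obtain ⟨E, hE, γ', hγ', y', hy'0, heq, hdg3⟩ := ih d (γ * γ₁ * ε⁻¹) (y / γ₁ * ε)
            (gam_mul (gam_mul hγ hγ₁) hεγ) (mul_ne_zero hy₁0 hε0) hdg2 hdD
            (by rw [← e2]; exact hht)
          exact ⟨E, hE, γ', hγ', y', hy'0, by rw [e2]; exact heq, hdg3⟩
        · -- `TP` fails
          obtain ⟨d', hd'⟩ : ∃ d', d' = dg (Lv (t + 1)) (y ^ p) := ⟨_, rfl⟩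
          rw [← hd', hd] at hN
          have hdpos : 0 < d := by rw [← hd]; exact dg_pos _ _
          have hlt : d' < d := by
            have h1 := hpp.two_le
            have h2 : 0 < d' := by
              rcases Nat.eq_zero_or_pos d' with h | h
              · rw [h, mul_zero] at hN
                omega
              · exact h
            nlinarith
          have hht2 : Q * ((d' : ℝ) * absLogHeight₁ (γ ^ p * y ^ p)) ≤ 1 := by
            rw [← mul_pow, Pool.Agent.H4.RR.absLogHeight_pow Ω _ (hint _)]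
            have h1 : (d : ℝ) = p * d' := by exact_mod_cast hN.symm
            rw [h1] at hht
            calc Q * ((d' : ℝ) * (p * absLogHeight₁ (γ * y))) =
                Q * (p * d' * absLogHeight₁ (γ * y)) := by ring
              _ ≤ 1 := hht
          obtain ⟨E, hE, γ', hγ', y', hy'0, heq, hdg3⟩ := ihd d' hlt (γ ^ p) (y ^ p)
            (gam_pow hγ p) (pow_ne_zero _ hy0) hd'.symm (by omega) hht2
          refine ⟨p * E, Nat.mul_pos hpp.pos hE, γ', hγ', y', hy'0, ?_, ?_⟩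
          · rw [pow_mul, mul_pow]
            exact heq
          · rw [mul_assoc, ← hN]
            exact Nat.mul_le_mul_left _ hdg3
  intro k γ y hγ hy0 hdg hht
  have hle : RF Ω b n' (p ^ k * N₀) ≤ Lv k := by
    rw [hLv]
    exact le_trans (rf_le_lf2 (Ω := Ω) b p k n' N₀ hpp hpN₀)
      (lf2_mono b (RF Ω b n' N₀) (p ^ k) (p ^ k) (p ^ (n₁ + k)) (p ^ (n₁ + k + J))
        (pow_dvd_pow _ (by omega)) (pow_dvd_pow _ (by omega)) (Nat.one_le_pow _ _ hpp.pos))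
  have hdle : dg (Lv k) y ≤ dg (RF Ω b n' (p ^ k * N₀)) y := dg_mono hle y
  have hH0 : 0 ≤ absLogHeight₁ (γ * y) := ht_nonneg _
  obtain ⟨E, hE, γ', hγ', y', hy'0, heq, hdg3⟩ := claim k (dg (Lv k) y) γ y hγ hy0 rfl
    (hdle.trans hdg) (by
      refine le_trans ?_ hht
      have h1 : ((dg (Lv k) y : ℕ) : ℝ) ≤ (dg (RF Ω b n' (p ^ k * N₀)) y : ℝ) := by
        exact_mod_cast hdle
      exact mul_le_mul hQ (mul_le_mul_of_nonneg_right h1 hH0) (by positivity)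
        (hQ0.le.trans hQ))
  exact ⟨E, hE, γ', hγ', y', hy'0, heq, hdg3.trans hdle⟩

end Pool.Agent.H72.PB
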