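import Pool.Agent.H72.PB.STower2

/-!
# Module STower3: descent to a bounded level, with roots of unity of order `n'` prime to `S` (degree `D` version)

`s_tower2` with `RF Ω b n' (N * N₁)` instead of `RF Ω b 1 (N * N₁)`; the constants do not depend on `n'`.
-/

set_option autoImplicit false
set_option linter.unusedSectionVars false

open NumberField IntermediateField

namespace Pool.Agent.H72.PB

open Pool.Agent.H72.RM Pool.Agent.H72.RG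

variable {K Ω : Type} [Field K] [NumberField K] [Field Ω] [CharZero Ω] [IsAlgClosed Ω]
  [Algebra K Ω] [IsGalois K Ω] {r : ℕ} {b : Fin r → K}

theorem s_tower3 (S : Finset ℕ)
    (hD : ∀ p ∈ S, ∃ (_ : Fact p.Prime) (ι : Ω →+* PadicAlgCl p) (h₀ J : ℕ),
      SX K Ω p (PadicAlgCl p) b ι h₀ J) :
    ∃ A : ℕ, 1 ≤ A ∧ ∀ Dm : ℕ, 1 ≤ Dm → ∃ R : ℕ, 1 ≤ R ∧
      (R : ℝ) ≤ (A * Real.log (3 * Dm)) ^ A ∧ ∀ n' N₁ : ℕ, 1 ≤ n' → 1 ≤ N₁ →
      (∀ q ∈ S, ¬ q ∣ n') → (∀ q ∈ S, ¬ q ∣ N₁) →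
      ∀ N : ℕ, 1 ≤ N → (∀ q : ℕ, q.Prime → q ∣ N → q ∈ S) →
      ∀ γ y : Ω, γ ∈ GammaS Ω b (S : Set ℕ) → y ≠ 0 → dg (RF Ω b n' (N * N₁)) y ≤ Dm →
      (A * Real.log (3 * Dm)) ^ A *
        ((dg (RF Ω b n' (N * N₁)) y : ℝ) * absLogHeight₁ (γ * y)) ≤ 1 →
      ∃ E : ℕ, 1 ≤ E ∧ ∃ γ' ∈ GammaS Ω b (S : Set ℕ), ∃ y' : Ω, y' ≠ 0 ∧
        (γ * y) ^ E = γ' * y' ∧
        E * dg (RF Ω b n' (R * N₁)) y' ≤ dg (RF Ω b n' (N * N₁)) y := by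
  classical
  have h1 : ∀ p ∈ S, ∃ A : ℕ, 1 ≤ A ∧ p.Prime ∧ ∀ Dm : ℕ, 1 ≤ Dm → ∃ R : ℕ,
      (p : ℝ) ^ R ≤ (A * Real.log (3 * Dm)) ^ A ∧
      ∀ n' N₀ : ℕ, 1 ≤ n' → 1 ≤ N₀ → ¬ p ∣ n' → ¬ p ∣ N₀ →
      ∀ (k : ℕ) (γ y : Ω), γ ∈ GammaS Ω b (S : Set ℕ) → y ≠ 0 →
      dg (RF Ω b n' (p ^ k * N₀)) y ≤ Dm →
      (A * Real.log (3 * Dm)) ^ A *
        ((dg (RF Ω b n' (p ^ k * N₀)) y : ℝ) * absLogHeight₁ (γ * y)) ≤ 1 →
      ∃ E : ℕ, 1 ≤ E ∧ ∃ γ' ∈ GammaS Ω b (S : Set ℕ), ∃ y' : Ω, y' ≠ 0 ∧ (γ * y) ^ E = γ' * y' ∧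
        E * dg (RF Ω b n' (p ^ R * N₀)) y' ≤ dg (RF Ω b n' (p ^ k * N₀)) y := by
    intro p hpS
    obtain ⟨hp, ι, h₀, J, D⟩ := hD p hpS
    obtain ⟨A, hA, h⟩ := p_tower2 D (S : Set ℕ) (Finset.mem_coe.mpr hpS)
    exact ⟨A, hA, hp.out, h⟩
  choose! Af hAf hpr hstep using h1
  refine ⟨1 + ∑ q ∈ S, Af q, by omega, fun Dm hDm => ?_⟩
  have hx : (1 : ℝ) ≤ Real.log (3 * Dm) := by
    have h2 : (1 : ℝ) ≤ Dm := by exact_mod_cast hDm
    have h3 : Real.exp 1 ≤ 3 * Dm := by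
      have h4 := Real.exp_one_lt_d9
      linarith
    have h4 := Real.log_le_log (Real.exp_pos 1) h3
    rwa [Real.log_exp] at h4
  obtain ⟨hc1, hc2⟩ := st_const S Af hAf _ hx
  have h2 : ∀ p ∈ S, ∃ R : ℕ, (p : ℝ) ^ R ≤ (Af p * Real.log (3 * Dm)) ^ (Af p) ∧
      ∀ n' N₀ : ℕ, 1 ≤ n' → 1 ≤ N₀ → ¬ p ∣ n' → ¬ p ∣ N₀ →
      ∀ (k : ℕ) (γ y : Ω), γ ∈ GammaS Ω b (S : Set ℕ) → y ≠ 0 →
      dg (RF Ω b n' (p ^ k * N₀)) y ≤ Dm →
      (Af p * Real.log (3 * Dm)) ^ (Af p) *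
        ((dg (RF Ω b n' (p ^ k * N₀)) y : ℝ) * absLogHeight₁ (γ * y)) ≤ 1 →
      ∃ E : ℕ, 1 ≤ E ∧ ∃ γ' ∈ GammaS Ω b (S : Set ℕ), ∃ y' : Ω, y' ≠ 0 ∧ (γ * y) ^ E = γ' * y' ∧
        E * dg (RF Ω b n' (p ^ R * N₀)) y' ≤ dg (RF Ω b n' (p ^ k * N₀)) y :=
    fun p hp => hstep p hp Dm hDm
  choose! Rf hRf hst using h2
  obtain ⟨B, hB⟩ : ∃ B : ℝ, B = (((1 + ∑ q ∈ S, Af q : ℕ) : ℝ) * Real.log (3 * Dm)) ^
    (1 + ∑ q ∈ S, Af q) := ⟨_, rfl⟩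
  rw [← hB] at hc1 hc2 ⊢
  have hpos : ∀ q ∈ S, 0 < q := fun q hq => (hpr q hq).pos
  refine ⟨∏ q ∈ S, q ^ Rf q, ?_, ?_, ?_⟩
  · exact Nat.one_le_iff_ne_zero.mpr (Finset.prod_ne_zero_iff.mpr
      fun q hq => pow_ne_zero _ (hpr q hq).ne_zero)
  · refine le_trans ?_ hc2
    push_cast
    exact Finset.prod_le_prod (fun q _ => by positivity) hRf
  intro n' N₁ hn' hN₁ hn'S hN₁S N hN hNS γ y hγ hy0 hdg hht
  have hH0 : 0 ≤ absLogHeight₁ (γ * y) := ht_nonneg _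
  have hint : ∀ x : Ω, IsIntegral ℚ x := fun x => int_all K x
  have hNprod : ∏ q ∈ S, q ^ N.factorization q = N := by
    have h3 := Nat.prod_factorization_pow_eq_self (n := N) (by omega)
    rw [Finsupp.prod_of_support_subset N.factorization (s := S)] at h3
    · exact h3
    · intro q hq
      have h4 := Nat.mem_primeFactors.mp (by simpa using hq)
      exact hNS q h4.1 h4.2.1
    · intro q _
      exact pow_zero q
  obtain ⟨d₀, hd₀⟩ : ∃ d₀, d₀ = dg (RF Ω b n' (N * N₁)) y := ⟨_, rfl⟩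
  rw [← hd₀] at hdg hht ⊢
  have key : ∀ T : Finset ℕ, T ⊆ S →
      ∃ E : ℕ, 1 ≤ E ∧ ∃ γ' ∈ GammaS Ω b (S : Set ℕ), ∃ y' : Ω, y' ≠ 0 ∧
        (γ * y) ^ E = γ' * y' ∧
        E * dg (RF Ω b n' (((∏ q ∈ T, q ^ Rf q) * ∏ q ∈ S \ T, q ^ N.factorization q) * N₁)) y' ≤
          d₀ := by
    intro T
    induction T using Finset.induction_on with
    | empty =>
      intro _
      refine ⟨1, le_rfl, γ, hγ, y, hy0, pow_one _, ?_⟩
      rw [Finset.prod_empty, one_mul, Finset.sdiff_empty, hNprod, one_mul, hd₀]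
    | insert p T hpT ih =>
      intro hTS
      have hpS : p ∈ S := hTS (Finset.mem_insert_self p T)
      have hTS' : T ⊆ S := fun q hq => hTS (Finset.mem_insert_of_mem hq)
      obtain ⟨E₁, hE₁, γ₁, hγ₁, y₁, hy₁0, heq, hdg₁⟩ := ih hTS'
      set N₀ : ℕ := ((∏ q ∈ T, q ^ Rf q) * ∏ q ∈ S \ insert p T, q ^ N.factorization q) * N₁ with hN₀
      have hpp := hpr p hpS
      have hN₀1 : 1 ≤ N₀ := by
        rw [hN₀]
        exact Nat.mul_pos (Nat.mul_pos (Finset.prod_pos fun q hq => pow_pos (hpos q (hTS' hq)) _)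
          (Finset.prod_pos fun q hq => pow_pos (hpos q (Finset.mem_sdiff.mp hq).1) _)) hN₁
      have hne : ∀ q ∈ S, q ≠ p → ∀ k : ℕ, ¬ p ∣ q ^ k := by
        intro q hq hqp k hdiv
        exact hqp (((Nat.prime_dvd_prime_iff_eq hpp (hpr q hq)).mp
          (hpp.dvd_of_dvd_pow hdiv)).symm)
      have hN₀p : ¬ p ∣ N₀ := by
        intro hdiv
        rw [hN₀] at hdiv
        rcases (Nat.Prime.dvd_mul hpp).mp hdiv with hdiv | hdiv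
        · rcases (Nat.Prime.dvd_mul hpp).mp hdiv with h | h
          · obtain ⟨q, hq, hqd⟩ := (Prime.dvd_finsetProd_iff hpp.prime _).mp h
            exact hne q (hTS' hq) (fun h5 => hpT (h5 ▸ hq)) _ hqd
          · obtain ⟨q, hq, hqd⟩ := (Prime.dvd_finsetProd_iff hpp.prime _).mp h
            have hq' := Finset.mem_sdiff.mp hq
            exact hne q hq'.1 (fun h5 => hq'.2 (h5 ▸ Finset.mem_insert_self _ _)) _ hqd
        · exact hN₁S p hpS hdiv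
      have hsplit : ((∏ q ∈ T, q ^ Rf q) * ∏ q ∈ S \ T, q ^ N.factorization q) * N₁ =
          p ^ N.factorization p * N₀ := by
        have h6 : S \ T = insert p (S \ insert p T) := by
          ext q
          simp only [Finset.mem_sdiff, Finset.mem_insert, not_or]
          constructor
          · rintro ⟨h7, h8⟩
            by_cases h9 : q = p
            · exact Or.inl h9
            · exact Or.inr ⟨h7, h9, h8⟩
          · rintro (h7 | ⟨h7, h8, h9⟩)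
            · rw [h7]
              exact ⟨hpS, hpT⟩
            · exact ⟨h7, h9⟩
        rw [h6, Finset.prod_insert (by simp), hN₀]
        ring
      rw [hsplit] at hdg₁
      obtain ⟨d₁, hd₁⟩ : ∃ d₁, d₁ = dg (RF Ω b n' (p ^ N.factorization p * N₀)) y₁ := ⟨_, rfl⟩
      have hd₁D : d₁ ≤ Dm := by
        rw [← hd₁] at hdg₁
        have : d₁ ≤ E₁ * d₁ := Nat.le_mul_of_pos_left _ hE₁
        omega
      have hh₁ : (Af p * Real.log (3 * Dm)) ^ (Af p) *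
          ((d₁ : ℝ) * absLogHeight₁ (γ₁ * y₁)) ≤ 1 := by
        rw [← heq, Pool.Agent.H4.RR.absLogHeight_pow Ω _ (hint _)]
        have e1 : ((E₁ * d₁ : ℕ) : ℝ) ≤ (d₀ : ℝ) := by
          rw [hd₁]
          exact_mod_cast hdg₁
        push_cast at e1
        have e2 : (d₁ : ℝ) * (E₁ * absLogHeight₁ (γ * y)) ≤ (d₀ : ℝ) * absLogHeight₁ (γ * y) := by
          calc (d₁ : ℝ) * (E₁ * absLogHeight₁ (γ * y)) = (E₁ * d₁) * absLogHeight₁ (γ * y) := by ring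
            _ ≤ _ := mul_le_mul_of_nonneg_right e1 hH0
        have e3 : (0 : ℝ) ≤ (d₁ : ℝ) * (E₁ * absLogHeight₁ (γ * y)) := by positivity
        refine le_trans (mul_le_mul (hc1 p hpS) e2 e3 ?_) hht
        exact le_trans (by positivity) (hc1 p hpS)
      obtain ⟨E₂, hE₂, γ₂, hγ₂, y₂, hy₂0, heq₂, hdg₂⟩ := hst p hpS n' N₀ hn' hN₀1
        (hn'S p hpS) hN₀p (N.factorization p) γ₁ y₁ hγ₁ hy₁0
        (by rw [← hd₁]; exact hd₁D) (by rw [← hd₁]; exact hh₁)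
      refine ⟨E₁ * E₂, Nat.mul_pos hE₁ hE₂, γ₂, hγ₂, y₂, hy₂0, ?_, ?_⟩
      · rw [pow_mul, heq, heq₂]
      · have h10 : ((∏ q ∈ insert p T, q ^ Rf q) *
            ∏ q ∈ S \ insert p T, q ^ N.factorization q) * N₁ = p ^ Rf p * N₀ := by
          rw [Finset.prod_insert hpT, hN₀]
          ring
        rw [h10, mul_assoc]
        exact (Nat.mul_le_mul_left _ hdg₂).trans hdg₁
  obtain ⟨E, hE, γ', hγ', y', hy'0, heq, hfin⟩ := key S (Finset.Subset.refl S)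
  refine ⟨E, hE, γ', hγ', y', hy'0, heq, ?_⟩
  rw [Finset.sdiff_self, Finset.prod_empty, mul_one] at hfin
  exact hfin

end Pool.Agent.H72.PB
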