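import Pool.Agent.H72.PB.BadCount
import Pool.Agent.H72.RM.PStep

/-!
# Module Cluster: small height forces most conjugates of `θ₀^(p^l)` to preserve the class of `y^(p^s)`

`z = y^(p^s)`. `E` a finite stable field with `Lt ≤ E`, `y, γ ∈ E` (`pstep_field`, file `H72/RM/PStep.lean`,
twice). `G = E ≃ₐ[K] E` (finite; `E` is normal over `K`, see `hN` in `Pool/Agent/H72/RG/MStep2.lean`), for `g ∈ G`
let `lift g = g.liftNormal Ω`. `Bad = {g ∈ G | ((lift g)⁻¹ θ₀^(p^l) (lift g)) z ∉ Orb Lt z}`. `bad_count` and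
`hnum` (multiply by `m`): `m #Bad p^l log p ≤ #G * 4 finrank ℚ K m (log A + log dg + 1) < #G p^l log p` if
`m ≥ 1`.. in any case (`#G ≥ 1`) `m #Bad < #G`.
For `φ : Ω ≃ₐ[K] Ω` let `φ_E` be its restriction to `E` (`restrictNormal`). The set of the `g ∈ G` with
`(φ_j)_E g ∈ Bad` has `#Bad` elements. So there is `g ∈ G` with `(φ_j)_E g ∉ Bad` for all `j`. `ψ = lift g`:
`φ_j ψ` and `σ = lift ((φ_j)_E g)` have the same restriction to `E`, so `(φ_j ψ)⁻¹ θ₀^(p^l) (φ_j ψ) u =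
σ⁻¹ θ₀^(p^l) σ u` for `u ∈ E` (all elements stay in `E`), in particular for `u = z`.
-/

set_option autoImplicit false
set_option linter.unusedSectionVars false

open NumberField IntermediateField

namespace Pool.Agent.H72.PB

open Pool.Agent.H72.RM Pool.Agent.H72.RG

variable {p : ℕ} [Fact p.Prime] {C : Type} [NormedField C] [NormedAlgebra ℚ_[p] C]
  [IsUltrametricDist C] [IsAlgClosed C] [Algebra.IsAlgebraic ℚ_[p] C] [IsoEnv p C]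
  {K Ω : Type} [Field K] [NumberField K] [Field Ω] [CharZero Ω] [IsAlgClosed Ω] [Algebra K Ω]
  [IsGalois K Ω]

theorem cluster (ι : Ω →+* C) (Lb Lt : IntermediateField K Ω) [FiniteDimensional K Lt]
    (hle : Lb ≤ Lt)
    (hLb : ∀ σ : Ω ≃ₐ[K] Ω, ∀ x ∈ Lb, σ x ∈ Lb) (hLt : ∀ σ : Ω ≃ₐ[K] Ω, ∀ x ∈ Lt, σ x ∈ Lt)
    (θ₀ : Ω ≃ₐ[K] Ω) (hθb : ∀ x ∈ Lb, θ₀ x = x) (k : ℕ)
    (hθk : ∀ x ∈ Lt, (θ₀ ^ (p ^ k)) x = x)
    (τ : C ≃ₐ[ℚ_[p]] C) (hτ : ∀ x : Ω, ι (θ₀ x) = τ (ι x)) (ρ : ℝ) (hρ0 : 0 < ρ)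
    (hcl : ∀ x ∈ Lt, x ≠ 0 → ‖τ (ι x) / ι x - 1‖ ≤ ρ) (s : ℕ)
    (hs : ∀ η : C, η ^ (p ^ s) = 1 → ‖η - 1‖ ≤ ρ)
    (hρs : ρ ^ (p ^ s) ≤ Real.exp (-(Real.log p / 2)))
    (γ y : Ω) (hγ0 : γ ≠ 0) (hy0 : y ≠ 0)
    (hγ : ∀ θ : Ω ≃ₐ[K] Ω, ∃ k : ℕ, 1 ≤ k ∧ (θ γ) ^ k = γ ^ k) (hT : TP p Lt y)
    (A : ℕ) (hA1 : 1 ≤ A) (hA : dg Lb (y ^ (p ^ s)) ≤ A * dg Lt y) (l : ℕ)
    (hh : (A : ℝ) * (p : ℝ) ^ s * ((dg Lt y : ℝ) * absLogHeight₁ (γ * y)) ≤ 1)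
    {m : ℕ} (φ : Fin m → (Ω ≃ₐ[K] Ω))
    (hnum : 4 * (Module.finrank ℚ K : ℝ) * m * (Real.log A + Real.log (dg Lt y) + 1) <
      (p : ℝ) ^ l * Real.log p) :
    ∃ ψ : Ω ≃ₐ[K] Ω, ∀ j : Fin m,
      ((φ j * ψ)⁻¹ * θ₀ ^ (p ^ l) * (φ j * ψ)) (y ^ (p ^ s)) ∈ Orb Lt (y ^ (p ^ s)) := by
  classical
  have hpp : p.Prime := Fact.out
  have hlogp : 0 < Real.log p := Real.log_pos (by exact_mod_cast hpp.one_lt)
  obtain ⟨E₁, h1fin, h1st, h1le, hγE₁⟩ := pstep_field Lt γ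
  obtain ⟨E, hEfin, hE, hE₁E, hyE⟩ := pstep_field E₁ y
  have hγE : γ ∈ E := hE₁E hγE₁
  have hN : Normal K E := by
    rw [IntermediateField.normal_iff_forall_map_le']
    intro σ x hx
    obtain ⟨z, hz, rfl⟩ := hx
    exact hE σ z hz
  have hGal : IsGalois K E := ⟨⟩
  obtain ⟨lift, hlift⟩ : ∃ lift : (E ≃ₐ[K] E) → (Ω ≃ₐ[K] Ω),
      ∀ (g : E ≃ₐ[K] E) (x : E), lift g x = (g x : Ω) :=
    ⟨fun g => g.liftNormal Ω, fun g x => AlgEquiv.liftNormal_commutes g Ω x⟩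
  obtain ⟨z, hz⟩ : ∃ z, z = y ^ (p ^ s) := ⟨_, rfl⟩
  have hzE : z ∈ E := by rw [hz]; exact pow_mem hyE _
  obtain ⟨Φ, hΦ⟩ : ∃ Φ : Ω ≃ₐ[K] Ω, Φ = θ₀ ^ (p ^ l) := ⟨_, rfl⟩
  obtain ⟨Bad, hBad⟩ : ∃ Bad : Finset (E ≃ₐ[K] E), ∀ g, g ∈ Bad ↔
      ((lift g)⁻¹ * Φ * lift g) z ∉ Orb Lt z :=
    ⟨Finset.univ.filter fun g => ((lift g)⁻¹ * Φ * lift g) z ∉ Orb Lt z, fun g => by
      rw [Finset.mem_filter]; simp⟩
  have hbc := bad_count ι Lb Lt hle hLb hLt θ₀ hθb k hθk τ hτ ρ hρ0 hcl s hs hρs γ y hγ0 hy0 hγ hT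
    A hA1 hA l hh E hE hγE hyE lift hlift Bad (by rw [← hz, ← hΦ]; exact hBad)
  rw [← hz, ← hΦ]
  -- counting
  have hGpos : 0 < Fintype.card (E ≃ₐ[K] E) := Fintype.card_pos
  have hGpos' : (0 : ℝ) < Fintype.card (E ≃ₐ[K] E) := by exact_mod_cast hGpos
  have hlt : m * Bad.card < Fintype.card (E ≃ₐ[K] E) := by
    have h1 : (m : ℝ) * ((Bad.card : ℝ) * ((p : ℝ) ^ l * Real.log p)) <
        Fintype.card (E ≃ₐ[K] E) * ((p : ℝ) ^ l * Real.log p) := by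
      calc (m : ℝ) * ((Bad.card : ℝ) * ((p : ℝ) ^ l * Real.log p)) ≤
          (m : ℝ) * (4 * (Module.finrank ℚ K : ℝ) * Fintype.card (E ≃ₐ[K] E) *
            (Real.log A + Real.log (dg Lt y) + 1)) :=
            mul_le_mul_of_nonneg_left hbc (Nat.cast_nonneg m)
        _ = Fintype.card (E ≃ₐ[K] E) * (4 * (Module.finrank ℚ K : ℝ) * m *
            (Real.log A + Real.log (dg Lt y) + 1)) := by ring
        _ < _ := mul_lt_mul_of_pos_left hnum hGpos'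
    have hpl : (0 : ℝ) < (p : ℝ) ^ l * Real.log p := by
      have : (0 : ℝ) < p := by exact_mod_cast hpp.pos
      positivity
    rw [← mul_assoc] at h1
    have h2 := lt_of_mul_lt_mul_right h1 hpl.le
    exact_mod_cast h2
  have hex : ∃ g : E ≃ₐ[K] E, ∀ j : Fin m, (φ j).restrictNormal E * g ∉ Bad := by
    by_contra hcon
    push Not at hcon
    have h1 : (Finset.univ : Finset (E ≃ₐ[K] E)) ⊆
        Finset.univ.biUnion (fun j : Fin m =>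
          Bad.image (fun b => ((φ j).restrictNormal E)⁻¹ * b)) := by
      intro g _
      obtain ⟨j, hj⟩ := hcon g
      rw [Finset.mem_biUnion]
      refine ⟨j, Finset.mem_univ _, ?_⟩
      rw [Finset.mem_image]
      exact ⟨_, hj, inv_mul_cancel_left _ _⟩
    have h2 := Finset.card_le_card h1
    have h3 : (Finset.univ.biUnion (fun j : Fin m =>
          Bad.image (fun b => ((φ j).restrictNormal E)⁻¹ * b))).card ≤ m * Bad.card := by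
      refine Finset.card_biUnion_le.trans ?_
      calc ∑ j : Fin m, (Bad.image (fun b => ((φ j).restrictNormal E)⁻¹ * b)).card ≤
          ∑ _j : Fin m, Bad.card := Finset.sum_le_sum fun j _ => Finset.card_image_le
        _ = m * Bad.card := by rw [Finset.sum_const, Finset.card_univ, Fintype.card_fin, smul_eq_mul]
    rw [Finset.card_univ] at h2
    omega
  obtain ⟨g, hg⟩ := hex
  refine ⟨lift g, fun j => ?_⟩
  have h1 := hg j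
  rw [hBad, not_not] at h1
  have hinv2 : ∀ (g : Ω ≃ₐ[K] Ω) (x : Ω), g (g⁻¹ x) = x := fun g x => g.apply_symm_apply x
  obtain ⟨σ, hσ⟩ : ∃ σ, σ = lift ((φ j).restrictNormal E * g) := ⟨_, rfl⟩
  rw [← hσ] at h1
  have h2 : ∀ u ∈ E, σ u = (φ j * lift g) u := by
    intro u hu
    rw [hσ, hlift _ ⟨u, hu⟩, AlgEquiv.mul_apply, AlgEquiv.mul_apply, hlift g ⟨u, hu⟩]
    exact AlgEquiv.restrictNormal_commutes (φ j) E (g ⟨u, hu⟩)
  have h3 : (σ⁻¹ * Φ * σ) z = ((φ j * lift g)⁻¹ * Φ * (φ j * lift g)) z := by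
    rw [AlgEquiv.mul_apply, AlgEquiv.mul_apply, AlgEquiv.mul_apply (_ * Φ), AlgEquiv.mul_apply _ Φ,
      ← h2 z hzE]
    have h4 : σ⁻¹ (Φ (σ z)) ∈ E := hE _ _ (hE _ _ (hE _ _ hzE))
    apply (φ j * lift g).injective
    rw [← h2 _ h4, hinv2, hinv2]
  rw [← h3]
  exact h1

end Pool.Agent.H72.PB
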