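import Pool.Agent.H72.PB.OrbA
import Pool.Agent.H72.RG.LfFacts
import Pool.Agent.H72.RM.Desc

/-!
# Module DescB2: descent in the direction of the radicals

`L = Lf b F (p^(n+1)) (p^M)`, `L₁ = Lf b F (p^n) (p^M)`, `n + 1 ≤ M`. (Compare `desc_b` in
`Pool/Agent/H72/RG/DescB.lean`, where `y ∈ L`; read its proof.)
1. `ε_j = σ_j y / y`, `ε_j^(p^s) = 1`, `s ≤ M`, so `ε_j` is a `p^M`-th root of unity, fixed by all `σ_i`. So
   `σ_j^p y = ε_j^p y`. `σ_j^p` fixes `F`, the `p^M`-th roots of unity and the `β i` (`ξ_j^p = 1`), hence `L`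
   (`lf2_gen`: `L = K(F, ζ, β)`). So `ε_j^p y ∈ Orb L y` and `hT` gives `ε_j^p = 1`: `ε_j = ξ_j^(k_j)`.
2. `y' = y ∏ (β i)^(- k_i)`, i.e. `m i = - k_i`. `σ_j y' = ε_j ξ_j^(-k_j) y' = y'`.
3. `Orb L y' ⊆ Orb L₁ y'` since `L₁ ≤ L` (`lf2_mono`, `orb_mono`). Conversely let `ρ` fix `L₁`.
   `ρ (β i) = ω_i (β i)` with `ω_i^p = 1` (`(β i)^p ∈ L₁`), `ω_i = ξ_i^(c_i)`. By induction over a finite set
   `T` of indices (as in `hind` of `desc_b`): for every `ρ` fixing `F`, the `p^M`-th roots of unity, all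
   `(β i)^p`, and all `β i` with `i ∉ T`, one has `ρ y' ∈ Orb L y'`. `T = ∅`: `ρ` fixes `L`. Step `insert j T`:
   `ρ (β j) = ξ_j^c β j`; `ρ' = ρ * (σ_j^c)⁻¹` fixes also `β j`: `(σ_j^c)⁻¹ β_j = ξ_j^(-c) β_j`, `ρ` of it is
   `β_j`. So `ρ' y' ∈ Orb L y'`, and `ρ y' = ρ' (σ_j^c y') = ρ' y'`.
-/

set_option autoImplicit false
set_option linter.unusedSectionVars false

open NumberField IntermediateField

namespace Pool.Agent.H72.PB

open Pool.Agent.H72.RM Pool.Agent.H72.RG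

variable {K Ω : Type} [Field K] [Field Ω] [CharZero Ω] [IsAlgClosed Ω] [Algebra K Ω]
  [IsGalois K Ω] {r : ℕ}

theorem desc_b2 (p : ℕ) [Fact p.Prime] (b : Fin r → K) (hb : ∀ i, b i ≠ 0)
    (F : IntermediateField K Ω) (n M s : ℕ) (hnM : n + 1 ≤ M) (hsM : s ≤ M) (β : Fin r → Ω)
    (hβ : ∀ i, β i ^ (p ^ (n + 1)) = algebraMap K Ω (b i)) (ξ : Fin r → Ω)
    (hξ : ∀ j, IsPrimitiveRoot (ξ j) p) (σ : Fin r → (Ω ≃ₐ[K] Ω))
    (hσF : ∀ j, ∀ x ∈ F, σ j x = x) (hσM : ∀ j, ∀ x : Ω, x ^ (p ^ M) = 1 → σ j x = x)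
    (hσβ : ∀ j i, σ j (β i) = (if i = j then ξ j else 1) * β i) (y : Ω) (hy0 : y ≠ 0)
    (hys : ∀ j, (σ j y) ^ (p ^ s) = y ^ (p ^ s)) (hT : TP p (Lf b F (p ^ (n + 1)) (p ^ M)) y) :
    ∃ m : Fin r → ℤ,
      Orb (Lf b F (p ^ n) (p ^ M)) (y * ∏ i, (β i) ^ (m i)) =
        Orb (Lf b F (p ^ (n + 1)) (p ^ M)) (y * ∏ i, (β i) ^ (m i)) := by
  classical
  have hpp : p.Prime := Fact.out
  have hβ0 : ∀ i, β i ≠ 0 := by
    intro i h0
    have h1 := hβ i
    rw [h0, zero_pow (pow_pos hpp.pos _).ne'] at h1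
    exact hb i ((map_eq_zero (algebraMap K Ω)).1 h1.symm)
  have hpow : ∀ (e : ℕ), e ≤ M → ∀ x : Ω, x ^ (p ^ e) = 1 → x ^ (p ^ M) = 1 := by
    intro e he x hx
    have h1 : p ^ M = p ^ e * p ^ (M - e) := by
      rw [← pow_add]
      congr 1
      omega
    rw [h1, pow_mul, hx, one_pow]
  have hpM : ∀ x : Ω, x ^ p = 1 → x ^ (p ^ M) = 1 := by
    intro x hx
    exact hpow 1 (by omega) x (by rw [pow_one]; exact hx)
  -- an automorphism fixing the generators fixes the field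
  have hagree : ∀ g : Ω ≃ₐ[K] Ω, (∀ x ∈ F, g x = x) → (∀ x : Ω, x ^ (p ^ M) = 1 → g x = x) →
      (∀ i, g (β i) = β i) → ∀ x ∈ Lf b F (p ^ (n + 1)) (p ^ M), g x = x := by
    intro g h1 h2 h3 x hx
    refine fixed_of_mem_adjoin _ (g : Ω →ₐ[K] Ω) ?_ x hx
    rintro z (hz | hz | ⟨i, hi⟩)
    · exact h1 z hz
    · exact h2 z hz
    · have h4 : (z / β i) ^ (p ^ (n + 1)) = 1 := by
        rw [div_pow, hi, hβ i, div_self]
        intro h0
        exact hb i ((map_eq_zero (algebraMap K Ω)).1 h0)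
      have h5 := h2 _ (hpow (n + 1) hnM _ h4)
      have h6 : z = z / β i * β i := by rw [div_mul_cancel₀ _ (hβ0 i)]
      have h7 : g z = z := by
        conv_lhs => rw [h6]
        rw [map_mul, h5, h3 i]
        exact h6.symm
      exact h7
  have hσξ : ∀ j, σ j (ξ j) = ξ j := fun j => hσM j _ (hpM _ (hξ j).pow_eq_one)
  have hσβt : ∀ j i (t : ℕ), ((σ j) ^ t) (β i) = (if i = j then ξ j else 1) ^ t * β i := by
    intro j i t
    induction t with
    | zero => rw [pow_zero, pow_zero, one_mul, AlgEquiv.one_apply]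
    | succ t ih =>
      rw [pow_succ', AlgEquiv.mul_apply, ih, map_mul, map_pow, hσβ]
      have h1 : σ j (if i = j then ξ j else 1) = (if i = j then ξ j else 1) := by
        split_ifs
        · exact hσξ j
        · exact map_one _
      rw [h1]
      ring
  have hσFt : ∀ j (t : ℕ), ∀ x ∈ F, ((σ j) ^ t) x = x := by
    intro j t x hx
    induction t with
    | zero => rw [pow_zero, AlgEquiv.one_apply]
    | succ t ih => rw [pow_succ', AlgEquiv.mul_apply, ih, hσF j x hx]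
  have hσrt : ∀ j (t : ℕ), ∀ x : Ω, x ^ (p ^ M) = 1 → ((σ j) ^ t) x = x := by
    intro j t x hx
    induction t with
    | zero => rw [pow_zero, AlgEquiv.one_apply]
    | succ t ih => rw [pow_succ', AlgEquiv.mul_apply, ih, hσM j x hx]
  -- the quotients `σ j y / y`
  have key : ∀ j, ∃ k : ℕ, σ j y = ξ j ^ k * y := by
    intro j
    obtain ⟨ε, hε⟩ : ∃ ε, ε = σ j y / y := ⟨_, rfl⟩
    have hεy : σ j y = ε * y := by rw [hε, div_mul_cancel₀ _ hy0]
    have hεs : ε ^ (p ^ s) = 1 := by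
      rw [hε, div_pow, hys j, div_self (pow_ne_zero _ hy0)]
    have hεM := hpow s hsM ε hεs
    have hεt : ∀ t : ℕ, ((σ j) ^ t) y = ε ^ t * y := by
      intro t
      induction t with
      | zero => rw [pow_zero, pow_zero, one_mul, AlgEquiv.one_apply]
      | succ t ih =>
        rw [pow_succ', AlgEquiv.mul_apply, ih, map_mul, map_pow, hσM j ε hεM, hεy]
        ring
    have h1 : ε ^ p * y ∈ Orb (Lf b F (p ^ (n + 1)) (p ^ M)) y := by
      refine ⟨(σ j) ^ p, hagree ((σ j) ^ p) (hσFt j p) (hσrt j p) (fun i => ?_), hεt p⟩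
      rw [hσβt]
      split_ifs
      · rw [(hξ j).pow_eq_one, one_mul]
      · rw [one_pow, one_mul]
    have h2 : ε ^ p = 1 := by
      refine hT (ε ^ p) s ?_ h1
      rw [← pow_mul, mul_comm, pow_mul, hεs, one_pow]
    have hNZp : NeZero p := ⟨hpp.pos.ne'⟩
    obtain ⟨k, -, hk⟩ := (hξ j).eq_pow_of_pow_eq_one h2
    exact ⟨k, by rw [hk, hεy]⟩
  choose k hk using key
  have hξ0 : ∀ j, ξ j ≠ 0 := fun j => (hξ j).ne_zero hpp.pos.ne'
  refine ⟨fun i => - (k i : ℤ), ?_⟩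
  obtain ⟨y', hy'⟩ : ∃ y', y' = y * ∏ i, (β i) ^ (- (k i : ℤ)) := ⟨_, rfl⟩
  rw [← hy']
  have hσy' : ∀ j, σ j y' = y' := by
    intro j
    rw [hy', map_mul, hk j, map_prod]
    have h1 : ∀ i, σ j ((β i) ^ (- (k i : ℤ))) =
        (if i = j then (ξ j) ^ (- (k j : ℤ)) else 1) * (β i) ^ (- (k i : ℤ)) := by
      intro i
      rw [map_zpow₀, hσβ, mul_zpow]
      congr 1
      split_ifs with h
      · rw [h]
      · exact one_zpow _
    rw [Finset.prod_congr rfl fun i _ => h1 i, Finset.prod_mul_distrib, Finset.prod_ite_eq',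
      if_pos (Finset.mem_univ j), zpow_neg, zpow_natCast]
    field_simp [hξ0 j]
  have hσy't : ∀ j (t : ℕ), ((σ j) ^ t) y' = y' := by
    intro j t
    induction t with
    | zero => rw [pow_zero, AlgEquiv.one_apply]
    | succ t ih => rw [pow_succ', AlgEquiv.mul_apply, ih, hσy' j]
  -- the induction
  have hind : ∀ T : Finset (Fin r), ∀ ρ : Ω ≃ₐ[K] Ω, (∀ x ∈ F, ρ x = x) →
      (∀ x : Ω, x ^ (p ^ M) = 1 → ρ x = x) → (∀ i, ρ (β i ^ p) = β i ^ p) →
      (∀ i, i ∉ T → ρ (β i) = β i) → ρ y' ∈ Orb (Lf b F (p ^ (n + 1)) (p ^ M)) y' := by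
    intro T
    induction T using Finset.induction_on with
    | empty =>
      intro ρ h1 h2 h3 h4
      exact ⟨ρ, hagree ρ h1 h2 (fun i => h4 i (Finset.notMem_empty i)), rfl⟩
    | insert j T hj ih =>
      intro ρ h1 h2 h3 h4
      have h5 : (ρ (β j) / β j) ^ p = 1 := by
        rw [div_pow, ← map_pow, h3, div_self (pow_ne_zero _ (hβ0 j))]
      have h6 : ((ρ (β j) / β j)⁻¹) ^ p = 1 := by rw [inv_pow, h5, inv_one]
      have hNZp : NeZero p := ⟨hpp.pos.ne'⟩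
      obtain ⟨c, -, hc⟩ := (hξ j).eq_pow_of_pow_eq_one h6
      have h7 : ρ (β j) = (ρ (β j) / β j) * β j := by rw [div_mul_cancel₀ _ (hβ0 j)]
      have hρξ : ρ (ξ j ^ c) = ξ j ^ c := by
        apply h2
        rw [hc]
        exact hpM _ h6
      have h8 : (ρ * (σ j) ^ c) y' ∈ Orb (Lf b F (p ^ (n + 1)) (p ^ M)) y' := by
        refine ih (ρ * (σ j) ^ c) ?_ ?_ ?_ ?_
        · intro x hx
          rw [AlgEquiv.mul_apply, hσFt j c x hx, h1 x hx]
        · intro x hx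
          rw [AlgEquiv.mul_apply, hσrt j c x hx, h2 x hx]
        · intro i
          have h9 : ((σ j) ^ c) (β i ^ p) = β i ^ p := by
            rw [map_pow, hσβt, mul_pow, ← pow_mul, mul_comm c p, pow_mul]
            split_ifs
            · rw [(hξ j).pow_eq_one, one_pow, one_mul]
            · rw [one_pow, one_pow, one_mul]
          rw [AlgEquiv.mul_apply, h9, h3 i]
        · intro i hi
          by_cases hij : i = j
          · subst hij
            rw [AlgEquiv.mul_apply, hσβt, if_pos rfl, map_mul, hρξ, h7, hc, ← mul_assoc,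
              inv_mul_cancel₀, one_mul]
            intro h0
            rw [h0, zero_pow hpp.pos.ne'] at h5
            exact zero_ne_one h5
          · rw [AlgEquiv.mul_apply, hσβt, if_neg hij, one_pow, one_mul,
              h4 i (by simp [hij, hi])]
      rw [AlgEquiv.mul_apply, hσy't] at h8
      exact h8
  apply Set.Subset.antisymm
  · rintro x ⟨ρ, hρ, rfl⟩
    have hsub : ∀ z ∈ ((F : Set Ω) ∪ ({x | x ^ (p ^ M) = 1} ∪
        {x | ∃ i, x ^ (p ^ n) = algebraMap K Ω (b i)})), ρ z = z := fun z hz =>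
      hρ z (IntermediateField.subset_adjoin K _ hz)
    refine hind Finset.univ ρ (fun x hx => hsub x (Or.inl hx))
      (fun x hx => hsub x (Or.inr (Or.inl hx))) (fun i => ?_) (fun i hi => ?_)
    · refine hsub _ (Or.inr (Or.inr ⟨i, ?_⟩))
      rw [← pow_mul, ← pow_succ', hβ]
    · exact absurd (Finset.mem_univ i) hi
  · exact orb_mono (lf2_mono b F (p ^ n) (p ^ M) (p ^ (n + 1)) (p ^ M)
      (pow_dvd_pow p (Nat.le_succ n)) dvd_rfl (Nat.one_le_pow _ _ hpp.pos)) y'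

end Pool.Agent.H72.PB
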