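import Mathlib

/-!
# Module Vdm: the archimedean bound for homogeneous discriminants

`m = card I`. Choose an equivalence `I ≃ Fin m` and reduce to `I = Fin m`.
`Matrix.projVandermonde v u` has the entries `v_i^j u_i^(m-1-j)` and determinant
`∏_i ∏_{j > i} (v_j u_i - v_i u_j)` (`Matrix.det_projVandermonde`). Every product over a permutation is in
norm `≤ ∏_i (max ‖u_i‖ ‖v_i‖)^(m-1)`, so `‖det‖ ≤ m! ∏_i (max ‖u_i‖ ‖v_i‖)^(m-1)` (`Matrix.det_apply`,
`norm_sum_le`). The product over all ordered pairs `i ≠ j` is the square of the norm of the determinant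
(split into `j > i` and `j < i` and exchange the roles, `norm_sub_rev`).
-/

set_option autoImplicit false

namespace Pool.Agent.H72.PB

/-- the determinant bound -/
theorem norm_det_pv (m : ℕ) (u v : Fin m → ℂ) :
    ‖(Matrix.projVandermonde v u).det‖ ≤ (m.factorial : ℝ) *
      ∏ i, (max ‖u i‖ ‖v i‖) ^ (m - 1) := by
  have hent : ∀ i j : Fin m, ‖Matrix.projVandermonde v u i j‖ ≤ (max ‖u i‖ ‖v i‖) ^ (m - 1) := by
    intro i j
    rw [Matrix.projVandermonde_apply, norm_mul, norm_pow, norm_pow]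
    have h1 : j.1 + j.rev.1 = m - 1 := by
      rw [Fin.val_rev]
      have := j.2
      omega
    calc ‖v i‖ ^ j.1 * ‖u i‖ ^ j.rev.1
        ≤ (max ‖u i‖ ‖v i‖) ^ j.1 * (max ‖u i‖ ‖v i‖) ^ j.rev.1 :=
          mul_le_mul (pow_le_pow_left₀ (norm_nonneg _) (le_max_right _ _) _)
            (pow_le_pow_left₀ (norm_nonneg _) (le_max_left _ _) _)
            (pow_nonneg (norm_nonneg _) _)
            (pow_nonneg (le_max_of_le_left (norm_nonneg _)) _)
      _ = (max ‖u i‖ ‖v i‖) ^ (m - 1) := by rw [← pow_add, h1]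
  rw [Matrix.det_apply']
  calc ‖∑ σ : Equiv.Perm (Fin m), ((Equiv.Perm.sign σ : ℤ) : ℂ) *
        ∏ i, Matrix.projVandermonde v u (σ i) i‖
      ≤ ∑ σ : Equiv.Perm (Fin m), ‖((Equiv.Perm.sign σ : ℤ) : ℂ) *
        ∏ i, Matrix.projVandermonde v u (σ i) i‖ := norm_sum_le _ _
    _ ≤ ∑ _σ : Equiv.Perm (Fin m), ∏ i, (max ‖u i‖ ‖v i‖) ^ (m - 1) := by
        refine Finset.sum_le_sum fun σ _ => ?_
        have h2 : ‖((Equiv.Perm.sign σ : ℤ) : ℂ)‖ = 1 := by
          rcases Int.units_eq_one_or (Equiv.Perm.sign σ) with h | h <;> rw [h] <;> simp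
        rw [norm_mul, h2, one_mul, norm_prod]
        calc ∏ i, ‖Matrix.projVandermonde v u (σ i) i‖
            ≤ ∏ i, (max ‖u (σ i)‖ ‖v (σ i)‖) ^ (m - 1) :=
              Finset.prod_le_prod (fun i _ => norm_nonneg _) fun i _ => hent (σ i) i
          _ = ∏ i, (max ‖u i‖ ‖v i‖) ^ (m - 1) :=
              Equiv.prod_comp σ (fun i => (max ‖u i‖ ‖v i‖) ^ (m - 1))
    _ = (m.factorial : ℝ) * ∏ i, (max ‖u i‖ ‖v i‖) ^ (m - 1) := by
        rw [Finset.sum_const, Finset.card_univ, Fintype.card_perm, Fintype.card_fin, nsmul_eq_mul]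

theorem vdm_fin (m : ℕ) (u v : Fin m → ℂ) :
    ∏ i, ∏ j ∈ Finset.univ.erase i, ‖v i * u j - v j * u i‖ ≤
      ((m.factorial : ℝ)) ^ 2 *
        ∏ i, (max ‖u i‖ ‖v i‖) ^ (2 * (m - 1)) := by
  have hsplit : ∀ i : Fin m, ∏ j ∈ Finset.univ.erase i, ‖v i * u j - v j * u i‖ =
      (∏ j ∈ Finset.Ioi i, ‖v i * u j - v j * u i‖) *
        ∏ j ∈ Finset.Iio i, ‖v i * u j - v j * u i‖ := by
    intro i
    rw [← Finset.prod_union]
    · refine Finset.prod_congr ?_ fun _ _ => rfl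
      ext j
      simp only [Finset.mem_erase, Finset.mem_univ, and_true, Finset.mem_union, Finset.mem_Ioi,
        Finset.mem_Iio]
      constructor
      · intro h
        rcases lt_or_gt_of_ne h with h | h
        · exact Or.inr h
        · exact Or.inl h
      · rintro (h | h)
        · exact ne_of_gt h
        · exact ne_of_lt h
    · rw [Finset.disjoint_left]
      intro j h1 h2
      rw [Finset.mem_Ioi] at h1
      rw [Finset.mem_Iio] at h2
      exact absurd h1 (not_lt.mpr h2.le)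
  have hdet : ‖(Matrix.projVandermonde v u).det‖ =
      ∏ i : Fin m, ∏ j ∈ Finset.Ioi i, ‖v i * u j - v j * u i‖ := by
    rw [Matrix.det_projVandermonde, norm_prod]
    refine Finset.prod_congr rfl fun i _ => ?_
    rw [norm_prod]
    refine Finset.prod_congr rfl fun j _ => ?_
    rw [norm_sub_rev]
  have hdet2 : ‖(Matrix.projVandermonde v u).det‖ =
      ∏ i : Fin m, ∏ j ∈ Finset.Iio i, ‖v i * u j - v j * u i‖ := by
    rw [hdet]
    rw [Finset.prod_comm' (s := Finset.univ) (t := fun i : Fin m => Finset.Ioi i)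
      (t' := Finset.univ) (s' := fun j : Fin m => Finset.Iio j)]
    · refine Finset.prod_congr rfl fun j _ => ?_
      refine Finset.prod_congr rfl fun i _ => ?_
      rw [norm_sub_rev]
    · intro x y
      simp
  calc ∏ i, ∏ j ∈ Finset.univ.erase i, ‖v i * u j - v j * u i‖
      = (∏ i : Fin m, ∏ j ∈ Finset.Ioi i, ‖v i * u j - v j * u i‖) *
        ∏ i : Fin m, ∏ j ∈ Finset.Iio i, ‖v i * u j - v j * u i‖ := by
        rw [← Finset.prod_mul_distrib]
        exact Finset.prod_congr rfl fun i _ => hsplit i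
    _ = ‖(Matrix.projVandermonde v u).det‖ ^ 2 := by rw [← hdet, ← hdet2, sq]
    _ ≤ ((m.factorial : ℝ) * ∏ i, (max ‖u i‖ ‖v i‖) ^ (m - 1)) ^ 2 :=
        pow_le_pow_left₀ (norm_nonneg _) (norm_det_pv m u v) 2
    _ = ((m.factorial : ℝ)) ^ 2 * ∏ i, (max ‖u i‖ ‖v i‖) ^ (2 * (m - 1)) := by
        rw [mul_pow, ← Finset.prod_pow]
        congr 1
        refine Finset.prod_congr rfl fun i _ => ?_
        rw [← pow_mul, mul_comm]

theorem vdm_arch {I : Type} [Fintype I] [DecidableEq I] (u v : I → ℂ) :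
    ∏ i, ∏ j ∈ Finset.univ.erase i, ‖v i * u j - v j * u i‖ ≤
      (((Fintype.card I).factorial : ℝ)) ^ 2 *
        ∏ i, (max ‖u i‖ ‖v i‖) ^ (2 * (Fintype.card I - 1)) := by
  have e := (Fintype.equivFin I).symm
  have h := vdm_fin (Fintype.card I) (u ∘ e) (v ∘ e)
  have h1 : ∏ i, (max ‖u i‖ ‖v i‖) ^ (2 * (Fintype.card I - 1)) =
      ∏ i, (max ‖(u ∘ e) i‖ ‖(v ∘ e) i‖) ^ (2 * (Fintype.card I - 1)) :=
    (Equiv.prod_comp e (fun i => (max ‖u i‖ ‖v i‖) ^ (2 * (Fintype.card I - 1)))).symm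
  have h2 : ∏ i, ∏ j ∈ Finset.univ.erase i, ‖v i * u j - v j * u i‖ =
      ∏ i, ∏ j ∈ Finset.univ.erase i,
        ‖(v ∘ e) i * (u ∘ e) j - (v ∘ e) j * (u ∘ e) i‖ := by
    rw [← Equiv.prod_comp e (fun i => ∏ j ∈ Finset.univ.erase i, ‖v i * u j - v j * u i‖)]
    refine Finset.prod_congr rfl fun i _ => ?_
    symm
    refine Finset.prod_bij (fun j _ => e j) ?_ ?_ ?_ ?_
    · intro j hj
      rw [Finset.mem_erase] at hj ⊢
      exact ⟨fun h => hj.1 (e.injective h), Finset.mem_univ _⟩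
    · intro a _ b _ hab
      exact e.injective hab
    · intro b hb
      rw [Finset.mem_erase] at hb
      refine ⟨e.symm b, ?_, e.apply_symm_apply b⟩
      rw [Finset.mem_erase]
      refine ⟨fun h => hb.1 ?_, Finset.mem_univ _⟩
      rw [← h, e.apply_symm_apply]
    · intro j _
      rfl
  rw [h1, h2]
  exact h

end Pool.Agent.H72.PB
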