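import Pool.Agent.H72.PB.PadicProd2
import Pool.Agent.H72.PB.Vdm
import Pool.Agent.H4.RR.BogCyc

/-!
# Module DiscPF: the product formula for a discriminant, with `p`-adic gains

`m = card I`. `bogCyc_rep` (file `H4/RR/BogCyc.lean`): `x i = v_i / u_i`, `u_i, v_i ∈ 𝓞 E` nonzero,
`I_i = (u_i, v_i)` prime to `p`. `δ = ∏_i ∏_{j ≠ i} (v_i u_j - v_j u_i) ∈ 𝓞 E`, nonzero since `x` is injective
(`v_i u_j - v_j u_i = u_i u_j (x i - x j)`). It lies in
`∏_i ∏_{j ≠ i} I_i I_j = ∏_i I_i^(2 (m-1)) =: I'`, prime to `p` (`IsCoprime.prod_left`, `.pow_left`),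
`absNorm I' = ∏_i (absNorm I_i)^(2(m-1))`.
`p`-adic side: for `κ : E →+* C`: `max ‖κ u_i‖ ‖κ v_i‖ = 1` (`norm_max_eq_one`, file `H72/RM/MetricA.lean`), so
`‖κ u_i‖ max(1, ‖κ (x i)‖) = 1`, and
`‖κ δ‖ = ∏_i ∏_{j≠i} ‖κ u_i‖ ‖κ u_j‖ ‖κ (x i) - κ (x j)‖ ≤ ∏_i G κ i ∏_{j≠i} 1 = ∏_i G κ i =: B κ` (`hκ`).
`padic_prod2`: `∏_i (absNorm I_i)^(2(m-1)) ≤ (∏_τ ‖τ δ‖) ∏_κ ∏_i G κ i`.
Complex side: `vdm_arch`: `‖τ δ‖ ≤ (m!)^2 ∏_i M_{τ,i}^(2(m-1))`, `M_{τ,i} = max ‖τ u_i‖ ‖τ v_i‖`, and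
`∏_τ M_{τ,i} = mulHeight₁ (x i) * absNorm I_i` (`Pool.Agent.H4.RR.height_mul_absNorm`; see how it is used in
`Pool/Agent/H72/RM/MetricB.lean`), `#(E →+* ℂ) = finrank ℚ E` (`NumberField.Embeddings.card`).
Cancel the norms of the ideals (positive), take logarithms: `log (m!) ≤ m log m`
(`Nat.factorial_le_pow`), `logHeight₁ = log mulHeight₁` (`Height.logHeight₁_eq_log_mulHeight₁`).
For `m = 0` all products are empty.
-/

set_option autoImplicit false
set_option linter.unusedSectionVars false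

open NumberField

namespace Pool.Agent.H72.PB

open Pool.Agent.H72.RM

variable {p : ℕ} [Fact p.Prime] {C : Type} [NormedField C] [NormedAlgebra ℚ_[p] C]
  [IsUltrametricDist C] [IsAlgClosed C] [CharZero C]

private theorem dpf_pairs {I M : Type} [Fintype I] [DecidableEq I] [CommMonoid M] (f : I → M) :
    ∏ i, ∏ j ∈ Finset.univ.erase i, (f i * f j) = ∏ i, f i ^ (2 * (Fintype.card I - 1)) := by
  have h1 : ∀ i : I, ∏ _j ∈ Finset.univ.erase i, f i = f i ^ (Fintype.card I - 1) := by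
    intro i
    rw [Finset.prod_const, Finset.card_erase_of_mem (Finset.mem_univ i), Finset.card_univ]
  have h2 : ∏ i, ∏ j ∈ Finset.univ.erase i, f j = ∏ j, ∏ _i ∈ Finset.univ.erase j, f j := by
    refine Finset.prod_comm' ?_
    intro i j
    simp only [Finset.mem_univ, Finset.mem_erase, true_and, and_true]
    exact ne_comm
  simp only [Finset.prod_mul_distrib]
  rw [h2]
  simp only [h1]
  rw [← Finset.prod_mul_distrib]
  refine Finset.prod_congr rfl fun i _ => ?_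
  rw [← pow_add]
  congr 1
  omega

include p in
theorem disc_pf (E : Type) [Field E] [NumberField E] {I : Type} [Fintype I] [DecidableEq I]
    (x : I → E) (hx : Function.Injective x) (hx0 : ∀ i, x i ≠ 0) (G : (E →+* C) → I → ℝ)
    (hG0 : ∀ κ i, 0 < G κ i)
    (hκ : ∀ (κ : E →+* C) (i : I), ∏ j ∈ Finset.univ.erase i, ‖κ (x i) - κ (x j)‖ ≤
      G κ i * ∏ j ∈ Finset.univ.erase i, (max 1 ‖κ (x i)‖ * max 1 ‖κ (x j)‖)) :
    0 ≤ 2 * (Module.finrank ℚ E : ℝ) * (Fintype.card I * Real.log (Fintype.card I)) +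
      2 * ((Fintype.card I - 1 : ℕ) : ℝ) * ∑ i, Height.logHeight₁ (x i) +
      ∑ κ : E →+* C, ∑ i, Real.log (G κ i) := by
  have hpp : p.Prime := Fact.out
  choose u v hu hv hxv hcop using fun i => Pool.Agent.H4.RR.bogCyc_rep E p hpp (x i) (hx0 i)
  obtain ⟨m, hm⟩ : ∃ m, m = Fintype.card I := ⟨_, rfl⟩
  obtain ⟨n, hn⟩ : ∃ n, n = Module.finrank ℚ E := ⟨_, rfl⟩
  set J : I → Ideal (𝓞 E) := fun i => Ideal.span {u i, v i} with hJ
  have huJ : ∀ i, u i ∈ J i := fun i => Ideal.subset_span (by simp)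
  have hvJ : ∀ i, v i ∈ J i := fun i => Ideal.subset_span (by simp)
  have hue : ∀ i, (u i : E) ≠ 0 := fun i => by exact_mod_cast hu i
  have hve : ∀ i, (v i : E) = x i * (u i : E) := by
    intro i
    have := hue i
    rw [hxv i]
    field_simp
  have hJ0 : ∀ i, J i ≠ ⊥ := by
    intro i h0
    have h1 := huJ i
    rw [h0] at h1
    exact hu i (by simpa using h1)
  set δ : 𝓞 E := ∏ i, ∏ j ∈ Finset.univ.erase i, (v i * u j - v j * u i) with hδ
  have hfac : ∀ i j, ((v i * u j - v j * u i : 𝓞 E) : E) = (u i : E) * (u j : E) * (x i - x j) := by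
    intro i j
    have h1 : ((v i * u j - v j * u i : 𝓞 E) : E) = (v i : E) * (u j : E) - (v j : E) * (u i : E) := by
      push_cast
      rfl
    rw [h1, hve i, hve j]
    ring
  have hδ0 : δ ≠ 0 := by
    rw [hδ]
    refine Finset.prod_ne_zero_iff.2 fun i _ => Finset.prod_ne_zero_iff.2 fun j hj h0 => ?_
    have h1 := hfac i j
    rw [h0] at h1
    have h2 : (u i : E) * (u j : E) * (x i - x j) = 0 := by
      rw [← h1]
      rfl
    rcases mul_eq_zero.1 h2 with h3 | h3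
    · rcases mul_eq_zero.1 h3 with h4 | h4
      · exact hue i h4
      · exact hue j h4
    · exact (Finset.mem_erase.1 hj).1 (hx (sub_eq_zero.1 h3)).symm
  set I' : Ideal (𝓞 E) := ∏ i, J i ^ (2 * (Fintype.card I - 1)) with hI'
  have hδI : δ ∈ I' := by
    rw [hI', ← dpf_pairs J, hδ]
    refine Ideal.prod_mem_prod fun i _ => Ideal.prod_mem_prod fun j _ => ?_
    refine Ideal.sub_mem _ (Ideal.mul_mem_mul (hvJ i) (huJ j)) ?_
    rw [mul_comm (v j) (u i)]
    exact Ideal.mul_mem_mul (huJ i) (hvJ j)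
  have hcop' : IsCoprime I' (Ideal.span {(p : 𝓞 E)}) := by
    rw [hI']
    exact IsCoprime.prod_left fun i _ => (hcop i).pow_left
  -- the p-adic side
  have hB : ∀ κ : E →+* C, ‖κ (δ : E)‖ ≤ ∏ i, G κ i := by
    intro κ
    have hmax : ∀ i, ‖κ (u i : E)‖ * max 1 ‖κ (x i)‖ = 1 := by
      intro i
      have h1 := norm_max_eq_one E κ (u i) (v i) (hcop i)
      rw [hve i, map_mul, norm_mul] at h1
      rw [mul_max_of_nonneg _ _ (norm_nonneg _), mul_one, mul_comm ‖κ (u i : E)‖]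
      exact h1
    have h2 : ‖κ (δ : E)‖ = ∏ i, ((∏ j ∈ Finset.univ.erase i, ‖κ (u i : E)‖ * ‖κ (u j : E)‖) *
        ∏ j ∈ Finset.univ.erase i, ‖κ (x i) - κ (x j)‖) := by
      have h3 : (δ : E) = ∏ i, ∏ j ∈ Finset.univ.erase i, ((u i : E) * (u j : E) * (x i - x j)) := by
        have h4 : (δ : E) = algebraMap (𝓞 E) E
            (∏ i, ∏ j ∈ Finset.univ.erase i, (v i * u j - v j * u i)) := rfl
        rw [h4, map_prod]
        refine Finset.prod_congr rfl fun i _ => ?_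
        rw [map_prod]
        refine Finset.prod_congr rfl fun j _ => hfac i j
      rw [h3, map_prod, norm_prod]
      refine Finset.prod_congr rfl fun i _ => ?_
      rw [map_prod, norm_prod, ← Finset.prod_mul_distrib]
      refine Finset.prod_congr rfl fun j _ => ?_
      rw [map_mul, map_mul, map_sub, norm_mul, norm_mul]
    rw [h2]
    refine Finset.prod_le_prod (fun i _ => mul_nonneg
      (Finset.prod_nonneg fun j _ => mul_nonneg (norm_nonneg _) (norm_nonneg _))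
      (Finset.prod_nonneg fun j _ => norm_nonneg _)) fun i _ => ?_
    have h4 : 0 ≤ ∏ j ∈ Finset.univ.erase i, ‖κ (u i : E)‖ * ‖κ (u j : E)‖ :=
      Finset.prod_nonneg fun j _ => mul_nonneg (norm_nonneg _) (norm_nonneg _)
    refine (mul_le_mul_of_nonneg_left (hκ κ i) h4).trans (le_of_eq ?_)
    rw [mul_left_comm, ← Finset.prod_mul_distrib]
    have h5 : ∏ j ∈ Finset.univ.erase i, (‖κ (u i : E)‖ * ‖κ (u j : E)‖ *
        (max 1 ‖κ (x i)‖ * max 1 ‖κ (x j)‖)) = 1 := by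
      refine Finset.prod_eq_one fun j _ => ?_
      calc ‖κ (u i : E)‖ * ‖κ (u j : E)‖ * (max 1 ‖κ (x i)‖ * max 1 ‖κ (x j)‖) =
          (‖κ (u i : E)‖ * max 1 ‖κ (x i)‖) * (‖κ (u j : E)‖ * max 1 ‖κ (x j)‖) := by ring
        _ = 1 := by rw [hmax i, hmax j, one_mul]
    rw [h5, mul_one]
  have hlow := padic_prod2 (p := p) E δ hδ0 I' hδI hcop' (fun κ => ∏ i, G κ i) hB
  have hN : (Ideal.absNorm I' : ℝ) = ∏ i, (Ideal.absNorm (J i) : ℝ) ^ (2 * (m - 1)) := by
    rw [hI', map_prod, Nat.cast_prod, hm]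
    refine Finset.prod_congr rfl fun i _ => ?_
    rw [map_pow, Nat.cast_pow]
  rw [hN] at hlow
  -- the complex side
  have hH : ∀ i, Height.mulHeight₁ (x i) * (Ideal.absNorm (J i) : ℝ) =
      ∏ τ : E →+* ℂ, max ‖τ (u i : E)‖ ‖τ (v i : E)‖ := by
    intro i
    have h1 := Pool.Agent.H4.RR.height_mul_absNorm E (u i) (v i) (hu i)
    rw [← hxv i] at h1
    exact h1
  have hup : ∏ τ : E →+* ℂ, ‖τ (δ : E)‖ ≤
      ((m.factorial : ℝ) ^ 2) ^ n * ∏ i, (Height.mulHeight₁ (x i) * (Ideal.absNorm (J i) : ℝ)) ^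
        (2 * (m - 1)) := by
    have h1 : ∀ τ : E →+* ℂ, ‖τ (δ : E)‖ ≤ (m.factorial : ℝ) ^ 2 *
        ∏ i, (max ‖τ (u i : E)‖ ‖τ (v i : E)‖) ^ (2 * (m - 1)) := by
      intro τ
      have h2 : ‖τ (δ : E)‖ = ∏ i, ∏ j ∈ Finset.univ.erase i,
          ‖τ (v i : E) * τ (u j : E) - τ (v j : E) * τ (u i : E)‖ := by
        have h5 : (δ : E) = algebraMap (𝓞 E) E
            (∏ i, ∏ j ∈ Finset.univ.erase i, (v i * u j - v j * u i)) := rfl
        rw [h5, map_prod, map_prod, norm_prod]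
        refine Finset.prod_congr rfl fun i _ => ?_
        rw [map_prod, map_prod, norm_prod]
        refine Finset.prod_congr rfl fun j _ => ?_
        have h3 : ((v i * u j - v j * u i : 𝓞 E) : E) =
            (v i : E) * (u j : E) - (v j : E) * (u i : E) := by
          push_cast
          rfl
        have h4 : τ ((v i * u j - v j * u i : 𝓞 E) : E) =
            τ (v i : E) * τ (u j : E) - τ (v j : E) * τ (u i : E) := by
          rw [h3, map_sub, map_mul, map_mul]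
        exact congrArg norm h4
      rw [h2, hm]
      exact vdm_arch (fun i => τ (u i : E)) (fun i => τ (v i : E))
    refine (Finset.prod_le_prod (fun τ _ => norm_nonneg _) fun τ _ => h1 τ).trans (le_of_eq ?_)
    rw [Finset.prod_mul_distrib, Finset.prod_const, Finset.card_univ,
      NumberField.Embeddings.card, ← hn, Finset.prod_comm]
    congr 1
    refine Finset.prod_congr rfl fun i _ => ?_
    rw [hH i, Finset.prod_pow]
  have hNpos : ∀ i, (0 : ℝ) < (Ideal.absNorm (J i) : ℝ) := by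
    intro i
    have : Ideal.absNorm (J i) ≠ 0 := fun h0 => hJ0 i (Ideal.absNorm_eq_zero_iff.1 h0)
    exact_mod_cast Nat.pos_of_ne_zero this
  have hNN : 0 < ∏ i, (Ideal.absNorm (J i) : ℝ) ^ (2 * (m - 1)) :=
    Finset.prod_pos fun i _ => pow_pos (hNpos i) _
  have hGG : 0 < ∏ κ : E →+* C, ∏ i, G κ i :=
    Finset.prod_pos fun κ _ => Finset.prod_pos fun i _ => hG0 κ i
  have hHi : ∀ i, 0 < Height.mulHeight₁ (x i) := fun i => Height.mulHeight₁_pos (x i)
  have hHH : 0 < ∏ i, Height.mulHeight₁ (x i) ^ (2 * (m - 1)) :=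
    Finset.prod_pos fun i _ => pow_pos (hHi i) _
  have hfm : (0 : ℝ) < m.factorial := by exact_mod_cast Nat.factorial_pos m
  have h7 := hlow.trans (mul_le_mul_of_nonneg_right hup hGG.le)
  have h8 : 1 * ∏ i, (Ideal.absNorm (J i) : ℝ) ^ (2 * (m - 1)) ≤
      (((m.factorial : ℝ) ^ 2) ^ n * (∏ i, Height.mulHeight₁ (x i) ^ (2 * (m - 1))) *
        ∏ κ : E →+* C, ∏ i, G κ i) * ∏ i, (Ideal.absNorm (J i) : ℝ) ^ (2 * (m - 1)) := by
    rw [one_mul]
    refine h7.trans (le_of_eq ?_)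
    simp only [mul_pow, Finset.prod_mul_distrib]
    ring
  have h9 := le_of_mul_le_mul_right h8 hNN
  have h10 := Real.log_le_log one_pos h9
  rw [Real.log_one, Real.log_mul (by positivity) hGG.ne', Real.log_mul (by positivity) hHH.ne',
    Real.log_pow, Real.log_pow, Real.log_prod (fun i _ => (pow_pos (hHi i) _).ne'),
    Real.log_prod (fun κ _ => (Finset.prod_pos fun i _ => hG0 κ i).ne')] at h10
  have h11 : ∑ κ : E →+* C, Real.log (∏ i, G κ i) = ∑ κ : E →+* C, ∑ i, Real.log (G κ i) := by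
    refine Finset.sum_congr rfl fun κ _ => ?_
    rw [Real.log_prod (fun i _ => (hG0 κ i).ne')]
  have h12 : ∑ i, Real.log (Height.mulHeight₁ (x i) ^ (2 * (m - 1))) =
      2 * ((m - 1 : ℕ) : ℝ) * ∑ i, Height.logHeight₁ (x i) := by
    rw [Finset.mul_sum]
    refine Finset.sum_congr rfl fun i _ => ?_
    rw [Real.log_pow, Height.logHeight₁_eq_log_mulHeight₁]
    push_cast
    ring
  rw [h11, h12] at h10
  have h13 : Real.log (m.factorial : ℝ) ≤ m * Real.log m := by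
    rw [← Real.log_pow]
    refine Real.log_le_log hfm ?_
    exact_mod_cast Nat.factorial_le_pow m
  rw [← hm, ← hn]
  push_cast at h10
  have hn0 : (0 : ℝ) ≤ n := Nat.cast_nonneg n
  nlinarith [mul_le_mul_of_nonneg_left h13 hn0]

end Pool.Agent.H72.PB
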