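import Pool.Agent.H72.PB.RowGain
import Pool.Agent.H72.PB.DiscPF
import Pool.Agent.H72.PB.HTwist
import Pool.Agent.H72.RM.PStep

/-!
# Module BadCount: few conjugates of `θ₀^(p^l)` move the class of `y^(p^s)` if the height is small

`q = p^s`, `z = y^q`, `X = Orb Lb z` (finite, `orb_finite`). `E` is a finite stable field, a number field,
Galois over `K` (as in the proof of `mstep2`, `Pool/Agent/H72/RG/MStep2.lean`, read it), `G = E ≃ₐ[K] E`,
`lift g` an extension of `g ∈ G` to `Ω`; for `h : Ω ≃ₐ[K] Ω` let `h_E` be its restriction (`restrictNormal`).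
1. `X ⊂ E` (stable). Index set `I = X` (the subtype of the finset), `x i = γ^q i ∈ E`: injective, nonzero.
2. For `σ, σ'` with the same restriction to `E`: `σ⁻¹ θ₀^(p^l) σ u = σ'⁻¹ θ₀^(p^l) σ' u` for `u ∈ E` (everything
   stays in `E`). Call `(g, i)` bad if `((lift g)⁻¹ θ₀^(p^l) (lift g)) i ∉ Orb Lt i`. For `i = h z ∈ X` (`h` fixes
   `Lb`): `(g, i)` is bad iff `g h_E ∈ Bad`: with `σ = lift g`, `(σ h)⁻¹ θ₀^(p^l) (σ h) z = h⁻¹ ((σ⁻¹ θ₀^(p^l) σ) i)`,
   and `h⁻¹` maps `Orb Lt (h z)` onto `Orb Lt z` (`orb_map`). So for every `i` the number of the `g` with `(g, i)`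
   bad is `#Bad` (`g ↦ g h_E` is a bijection).
3. `disc_pf` (instance `CharZero C`: `charZero_C p C`) with `G κ i = exp(-(p^l log p/2))` if `κ = ι ∘ g` for some
   `g ∈ G` with `(g, i)` bad, and `1` otherwise (`g ↦ ι ∘ g` is injective, see `hmkinj` in `MStep2.lean`).
   `hκ`: for `κ = ι ∘ g`, `(g, i)` bad: `row_gain` with `κ := ι ∘ lift g`, `θ := (lift g)⁻¹ θ₀ (lift g)`
   (`κ (θ x) = ι (θ₀ (σ x)) = τ (ι (σ x)) = τ (κ x)`; it fixes `Lb`, its `p^k`-th power `σ⁻¹ θ₀^(p^k) σ` fixes `Lt`;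
   closeness: `σ x ∈ Lt`; `θ^(p^l) = σ⁻¹ θ₀^(p^l) σ`); otherwise
   `‖a - b‖ ≤ max ‖a‖ ‖b‖ ≤ max 1 ‖a‖ * max 1 ‖b‖` for every factor.
   `∑_κ ∑_i log (G κ i) = - (p^l log p / 2) #{(g, i) bad} = - (p^l log p / 2) #X #Bad`.
4. Heights: `logHeight₁ (x i) = finrank ℚ E * absLogHeight₁ (γ^q i)` (`Pool.Agent.H4.RR.absLogHeight_eq`, used at
   the end of `mstep2`), `i = h (y^q) = (h y)^q`, `absLogHeight₁ ((γ h y)^q) = q absLogHeight₁ (γ h y)`
   (`Pool.Agent.H4.RR.absLogHeight_pow`) and `absLogHeight₁ (γ h y) = absLogHeight₁ (γ y)` (`height_twist`).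
5. With `n = #X = dg Lb z`, `N = finrank ℚ E = finrank ℚ K * #G`, `H = absLogHeight₁ (γ y)`:
   `0 ≤ 2 N n log n + 2 (n - 1) n N q H - n #Bad p^l log p / 2`; divide by `n` (`n ≥ 1`):
   `#Bad p^l log p ≤ 4 N (log n + n q H) ≤ 4 N (log A + log (dg Lt y) + 1)` as `n ≤ A dg Lt y` (`hA`), `hh`,
   `H ≥ 0`.
-/

set_option autoImplicit false
set_option linter.unusedSectionVars false

open NumberField IntermediateField

namespace Pool.Agent.H72.PB

open Pool.Agent.H72.RM Pool.Agent.H72.RG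

variable {p : ℕ} [Fact p.Prime] {C : Type} [NormedField C] [NormedAlgebra ℚ_[p] C]
  [IsUltrametricDist C] [IsAlgClosed C] [Algebra.IsAlgebraic ℚ_[p] C] [IsoEnv p C]
  {K Ω : Type} [Field K] [NumberField K] [Field Ω] [CharZero Ω] [IsAlgClosed Ω] [Algebra K Ω]
  [IsGalois K Ω]

theorem bad_count (ι : Ω →+* C) (Lb Lt : IntermediateField K Ω)
    (hle : Lb ≤ Lt)
    (hLb : ∀ σ : Ω ≃ₐ[K] Ω, ∀ x ∈ Lb, σ x ∈ Lb) (hLt : ∀ σ : Ω ≃ₐ[K] Ω, ∀ x ∈ Lt, σ x ∈ Lt)
    (θ₀ : Ω ≃ₐ[K] Ω) (hθb : ∀ x ∈ Lb, θ₀ x = x) (k : ℕ)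
    (hθk : ∀ x ∈ Lt, (θ₀ ^ (p ^ k)) x = x)
    (τ : C ≃ₐ[ℚ_[p]] C) (hτ : ∀ x : Ω, ι (θ₀ x) = τ (ι x)) (ρ : ℝ) (hρ0 : 0 < ρ)
    (hcl : ∀ x ∈ Lt, x ≠ 0 → ‖τ (ι x) / ι x - 1‖ ≤ ρ) (s : ℕ)
    (hs : ∀ η : C, η ^ (p ^ s) = 1 → ‖η - 1‖ ≤ ρ)
    (hρs : ρ ^ (p ^ s) ≤ Real.exp (-(Real.log p / 2)))
    (γ y : Ω) (hγ0 : γ ≠ 0) (hy0 : y ≠ 0)
    (hγ : ∀ θ : Ω ≃ₐ[K] Ω, ∃ k : ℕ, 1 ≤ k ∧ (θ γ) ^ k = γ ^ k) (hT : TP p Lt y)
    (A : ℕ) (hA1 : 1 ≤ A) (hA : dg Lb (y ^ (p ^ s)) ≤ A * dg Lt y) (l : ℕ)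
    (hh : (A : ℝ) * (p : ℝ) ^ s * ((dg Lt y : ℝ) * absLogHeight₁ (γ * y)) ≤ 1)
    (E : IntermediateField K Ω) [FiniteDimensional K E]
    (hE : ∀ σ : Ω ≃ₐ[K] Ω, ∀ x ∈ E, σ x ∈ E) (hγE : γ ∈ E) (hyE : y ∈ E)
    (lift : (E ≃ₐ[K] E) → (Ω ≃ₐ[K] Ω)) (hlift : ∀ (g : E ≃ₐ[K] E) (x : E), lift g x = (g x : Ω))
    (Bad : Finset (E ≃ₐ[K] E))
    (hBad : ∀ g, g ∈ Bad ↔
      ((lift g)⁻¹ * θ₀ ^ (p ^ l) * lift g) (y ^ (p ^ s)) ∉ Orb Lt (y ^ (p ^ s))) :
    (Bad.card : ℝ) * ((p : ℝ) ^ l * Real.log p) ≤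
      4 * (Module.finrank ℚ K : ℝ) * Fintype.card (E ≃ₐ[K] E) *
        (Real.log A + Real.log (dg Lt y) + 1) := by
  classical
  have hpp : p.Prime := Fact.out
  have hC0 : CharZero C := charZero_C p C
  have hN : Normal K E := by
    rw [IntermediateField.normal_iff_forall_map_le']
    intro σ x hx
    obtain ⟨z, hz, rfl⟩ := hx
    exact hE σ z hz
  have hNF : NumberField E := NumberField.of_module_finite K E
  have hGal : IsGalois K E := ⟨⟩
  have hlogp : 0 < Real.log p := Real.log_pos (by exact_mod_cast hpp.one_lt)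
  obtain ⟨q, hq⟩ : ∃ q, q = p ^ s := ⟨_, rfl⟩
  have hq0 : 0 < q := hq ▸ pow_pos hpp.pos s
  obtain ⟨z, hz⟩ : ∃ z, z = y ^ q := ⟨_, rfl⟩
  have hz' : z = y ^ (p ^ s) := by rw [hz, hq]
  rw [← hz'] at hA
  simp only [← hz'] at hBad
  have hzE : z ∈ E := by rw [hz]; exact pow_mem hyE q
  have hz0 : z ≠ 0 := by rw [hz]; exact pow_ne_zero _ hy0
  -- restrictions
  have hres : ∀ (h : Ω ≃ₐ[K] Ω) (x : E), (((h.restrictNormal E) x : E) : Ω) = h (x : Ω) :=
    fun h x => AlgEquiv.restrictNormal_commutes h E x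
  -- the conjugates of `θ₀ ^ (p ^ l)`
  obtain ⟨Φ, hΦ⟩ : ∃ Φ : Ω ≃ₐ[K] Ω, Φ = θ₀ ^ (p ^ l) := ⟨_, rfl⟩
  rw [← hΦ] at hBad
  have hinv2 : ∀ (g : Ω ≃ₐ[K] Ω) (x : Ω), g (g⁻¹ x) = x := fun g x => g.apply_symm_apply x
  have hinv3 : ∀ (g : Ω ≃ₐ[K] Ω) (x : Ω), g⁻¹ (g x) = x := fun g x => g.symm_apply_apply x
  have hA1' : ∀ σ σ' : Ω ≃ₐ[K] Ω, (∀ u ∈ E, σ u = σ' u) → ∀ u ∈ E,
      (σ⁻¹ * Φ * σ) u = (σ'⁻¹ * Φ * σ') u := by
    intro σ σ' h u hu
    rw [AlgEquiv.mul_apply, AlgEquiv.mul_apply, AlgEquiv.mul_apply, AlgEquiv.mul_apply, ← h u hu]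
    have h1 : σ⁻¹ (Φ (σ u)) ∈ E := hE _ _ (hE _ _ (hE _ _ hu))
    apply σ'.injective
    rw [← h _ h1, hinv2, hinv2]
  -- the orbit
  obtain ⟨X, hX0⟩ : ∃ X : Finset Ω, X = (orb_finite Lb z).toFinset := ⟨_, rfl⟩
  have hX : (X : Set Ω) = Orb Lb z := by rw [hX0, Set.Finite.coe_toFinset]
  have hXmem : ∀ i, i ∈ X ↔ i ∈ Orb Lb z := by
    intro i
    rw [← Finset.mem_coe, hX]
  have hXcard : X.card = dg Lb z := by
    unfold dg
    rw [← hX, Set.ncard_coe_finset]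
  have hXE : ∀ i ∈ X, i ∈ E := by
    intro i hi
    obtain ⟨h, -, rfl⟩ := (hXmem i).1 hi
    exact hE h z hzE
  have hX0' : ∀ i ∈ X, i ≠ 0 := by
    intro i hi
    obtain ⟨h, -, rfl⟩ := (hXmem i).1 hi
    intro h0
    exact hz0 (by simpa using h0)
  have hXpos : 0 < X.card := by rw [hXcard]; exact dg_pos Lb z
  obtain ⟨n, hn⟩ : ∃ n, n = X.card := ⟨_, rfl⟩
  -- bad pairs
  let bad : (E ≃ₐ[K] E) → Ω → Prop := fun g i => ((lift g)⁻¹ * Φ * lift g) i ∉ Orb Lt i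
  have hbad : ∀ (g : E ≃ₐ[K] E) (h : Ω ≃ₐ[K] Ω), bad g (h z) ↔ g * h.restrictNormal E ∈ Bad := by
    intro g h
    rw [hBad]
    have h1 : ∀ u ∈ E, lift (g * h.restrictNormal E) u = (lift g * h) u := by
      intro u hu
      rw [hlift (g * h.restrictNormal E) ⟨u, hu⟩, AlgEquiv.mul_apply, AlgEquiv.mul_apply,
        ← hlift g, hres]
    rw [hA1' _ _ h1 z hzE]
    have h2 : ((lift g * h)⁻¹ * Φ * (lift g * h)) z =
        h⁻¹ (((lift g)⁻¹ * Φ * lift g) (h z)) := by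
      rw [mul_inv_rev]
      rfl
    rw [h2]
    show ¬ _ ↔ ¬ _
    rw [not_iff_not, orb_map hLt h z]
    constructor
    · rintro ⟨x, hx, hx2⟩
      rw [← hx2, hinv3]
      exact hx
    · intro hx
      exact ⟨_, hx, hinv2 _ _⟩
  have hcount : ∀ i ∈ X, (Finset.univ.filter fun g : E ≃ₐ[K] E => bad g i).card = Bad.card := by
    intro i hi
    obtain ⟨h, -, rfl⟩ := (hXmem i).1 hi
    apply Finset.card_bij (fun g _ => g * h.restrictNormal E)
    · intro g hg
      exact (hbad g h).1 (Finset.mem_filter.1 hg).2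
    · intro g _ g' _ hgg
      exact mul_right_cancel hgg
    · intro g hg
      refine ⟨g * (h.restrictNormal E)⁻¹, ?_, inv_mul_cancel_right _ _⟩
      rw [Finset.mem_filter]
      refine ⟨Finset.mem_univ _, (hbad _ h).2 ?_⟩
      rw [inv_mul_cancel_right]
      exact hg
  -- the embeddings
  let mk : (E ≃ₐ[K] E) → (E →+* C) := fun g => (ι.comp (algebraMap E Ω)).comp (g : E →+* E)
  have hmk : ∀ g (x : E), mk g x = ι ((g x : E) : Ω) := fun g x => rfl
  have hmkinj : Function.Injective mk := by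
    intro g g' hgg
    apply AlgEquiv.ext
    intro x
    have h1 := congrArg (fun f : E →+* C => f x) hgg
    simp only [hmk] at h1
    exact Subtype.ext (ι.injective h1)
  have hmk2 : ∀ g (x : E), mk g x = ι (lift g (x : Ω)) := fun g x => by rw [hmk, hlift]
  -- the points
  have hγq : ∀ i : X, γ ^ q * (i : Ω) ∈ E := fun i => mul_mem (pow_mem hγE q) (hXE i i.2)
  let x : X → E := fun i => ⟨γ ^ q * (i : Ω), hγq i⟩
  have hxval : ∀ i : X, ((x i : E) : Ω) = γ ^ q * (i : Ω) := fun i => rfl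
  have hxinj : Function.Injective x := by
    intro i j hij
    have h1 := congrArg (fun t : E => (t : Ω)) hij
    simp only [hxval] at h1
    exact Subtype.ext (mul_left_cancel₀ (pow_ne_zero _ hγ0) h1)
  have hx0 : ∀ i, x i ≠ 0 := by
    intro i h0
    have h1 := congrArg (fun t : E => (t : Ω)) h0
    simp only [hxval] at h1
    exact mul_ne_zero (pow_ne_zero _ hγ0) (hX0' i i.2) h1
  obtain ⟨c, hc⟩ : ∃ c : ℝ, c = (p : ℝ) ^ l * Real.log p / 2 := ⟨_, rfl⟩
  have hc0 : 0 ≤ c := by rw [hc]; positivity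
  let G : (E →+* C) → X → ℝ := fun κ i =>
    if ∃ g, κ = mk g ∧ bad g i then Real.exp (-c) else 1
  have hG0 : ∀ κ i, 0 < G κ i := by
    intro κ i
    show 0 < (if _ then _ else _ : ℝ)
    split_ifs
    · exact Real.exp_pos _
    · exact one_pos
  have hgain : ∀ (κ : E →+* C) (i : X),
      ∏ j ∈ Finset.univ.erase i, ‖κ (x i) - κ (x j)‖ ≤
      G κ i * ∏ j ∈ Finset.univ.erase i, (max 1 ‖κ (x i)‖ * max 1 ‖κ (x j)‖) := by
    intro κ i
    by_cases hb : ∃ g, κ = mk g ∧ bad g i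
    · have hGv : G κ i = Real.exp (-c) := if_pos hb
      obtain ⟨g, rfl, hb⟩ := hb
      rw [hGv]
      have hrow := row_gain (ι.comp ((lift g : Ω →+* Ω))) Lb Lt hle hLt ((lift g)⁻¹ * θ₀ * lift g)
        (fun u hu => by
          rw [AlgEquiv.mul_apply, AlgEquiv.mul_apply, hθb _ (hLb _ _ hu), hinv3]) k
        (fun u hu => by
          have h1 : ((lift g)⁻¹ * θ₀ * lift g) ^ (p ^ k) = (lift g)⁻¹ * θ₀ ^ (p ^ k) * lift g := by
            have h2 := conj_pow (a := (lift g)⁻¹) (b := θ₀) (i := p ^ k)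
            rw [inv_inv] at h2
            exact h2
          rw [h1, AlgEquiv.mul_apply, AlgEquiv.mul_apply, hθk _ (hLt _ _ hu), hinv3]) τ
        (fun u => by
          show ι (lift g (((lift g)⁻¹ * θ₀ * lift g) u)) = τ (ι (lift g u))
          rw [AlgEquiv.mul_apply, AlgEquiv.mul_apply, hinv2, hτ]) ρ hρ0
        (fun u hu hu0 => by
          refine hcl (lift g u) (hLt _ _ hu) ?_
          intro h0
          exact hu0 (by simpa using h0)) s hs hρs γ y hy0 hT X (by rw [hX, hz']) (i : Ω) i.2 l (by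
          have h1 : ((lift g)⁻¹ * θ₀ * lift g) ^ (p ^ l) = (lift g)⁻¹ * Φ * lift g := by
            have h2 := conj_pow (a := (lift g)⁻¹) (b := θ₀) (i := p ^ l)
            rw [inv_inv] at h2
            rw [hΦ]
            exact h2
          rw [h1]
          exact hb)
      rw [← hc, ← hq] at hrow
      have e1 : ∀ f : Ω → ℝ, ∏ j ∈ Finset.univ.erase i, f (j : Ω) = ∏ j ∈ X.erase (i : Ω), f j := by
        intro f
        symm
        refine Finset.prod_bij' (fun j hj => (⟨j, Finset.mem_of_mem_erase hj⟩ : X))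
          (fun j _ => (j : Ω)) ?_ ?_ ?_ ?_ ?_
        · intro j hj
          rw [Finset.mem_erase]
          refine ⟨?_, Finset.mem_univ _⟩
          intro h
          exact (Finset.ne_of_mem_erase hj) (congrArg Subtype.val h)
        · intro j hj
          rw [Finset.mem_erase]
          exact ⟨fun h => (Finset.ne_of_mem_erase hj) (Subtype.ext h), j.2⟩
        · intro j _
          rfl
        · intro j _
          rfl
        · intro j _
          rfl
      have e2 : ∀ j : X, mk g (x j) = (ι.comp ((lift g : Ω →+* Ω))) (γ ^ q * (j : Ω)) := by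
        intro j
        rw [hmk2, hxval]
        rfl
      simp only [e2]
      rw [e1 (fun j => ‖(ι.comp ((lift g : Ω →+* Ω))) (γ ^ q * (i : Ω)) -
          (ι.comp ((lift g : Ω →+* Ω))) (γ ^ q * j)‖),
        e1 (fun j => max 1 ‖(ι.comp ((lift g : Ω →+* Ω))) (γ ^ q * (i : Ω))‖ *
          max 1 ‖(ι.comp ((lift g : Ω →+* Ω))) (γ ^ q * j)‖)]
      exact hrow
    · have hGv : G κ i = 1 := if_neg hb
      rw [hGv, one_mul]
      apply Finset.prod_le_prod
      · intro j _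
        exact norm_nonneg _
      · intro j _
        have h1 : ‖κ (x i) - κ (x j)‖ ≤ max ‖κ (x i)‖ ‖κ (x j)‖ := by
          have h2 := IsUltrametricDist.norm_add_le_max (κ (x i)) (-κ (x j))
          rw [norm_neg, ← sub_eq_add_neg] at h2
          exact h2
        refine h1.trans (max_le ?_ ?_)
        · calc ‖κ (x i)‖ ≤ max 1 ‖κ (x i)‖ := le_max_right _ _
            _ ≤ _ := le_mul_of_one_le_right (by positivity) (le_max_left _ _)
        · calc ‖κ (x j)‖ ≤ max 1 ‖κ (x j)‖ := le_max_right _ _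
            _ ≤ _ := le_mul_of_one_le_left (by positivity) (le_max_left _ _)
  have hpf := disc_pf (p := p) (C := C) E x hxinj hx0 G hG0 hgain
  -- the sum of the gains
  have hsum : ∑ κ : E →+* C, ∑ i, Real.log (G κ i) = -(c * n * Bad.card) := by
    rw [Finset.sum_comm]
    have h1 : ∀ i : X, ∑ κ : E →+* C, Real.log (G κ i) = -(c * Bad.card) := by
      intro i
      have h2 : ∀ κ : E →+* C, Real.log (G κ i) = if ∃ g, κ = mk g ∧ bad g i then -c else 0 := by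
        intro κ
        show Real.log (if _ then _ else _ : ℝ) = _
        split_ifs
        · rw [Real.log_exp]
        · rw [Real.log_one]
      rw [Finset.sum_congr rfl fun κ _ => h2 κ, Finset.sum_ite, Finset.sum_const_zero, add_zero,
        Finset.sum_const, nsmul_eq_mul]
      have h3 : (Finset.univ.filter fun κ : E →+* C => ∃ g, κ = mk g ∧ bad g i) =
          (Finset.univ.filter fun g : E ≃ₐ[K] E => bad g i).image mk := by
        ext κ
        simp only [Finset.mem_filter, Finset.mem_univ, true_and, Finset.mem_image]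
        constructor
        · rintro ⟨g, rfl, hb⟩
          exact ⟨g, hb, rfl⟩
        · rintro ⟨g, hb, rfl⟩
          exact ⟨g, rfl, hb⟩
      rw [h3, Finset.card_image_of_injective _ hmkinj, hcount i i.2]
      ring
    rw [Finset.sum_congr rfl fun i _ => h1 i, Finset.sum_const, Finset.card_univ,
      Fintype.card_coe, nsmul_eq_mul, ← hn]
    ring
  -- heights
  obtain ⟨H, hH⟩ : ∃ H, H = absLogHeight₁ (γ * y) := ⟨_, rfl⟩
  rw [← hH] at hh
  have hN0 : 0 < Module.finrank ℚ E := Module.finrank_pos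
  have hN0' : (0 : ℝ) < Module.finrank ℚ E := by exact_mod_cast hN0
  have hht : ∀ i : X, Height.logHeight₁ (x i) = (Module.finrank ℚ E : ℝ) * (q * H) := by
    intro i
    obtain ⟨h, -, hi⟩ := (hXmem i).1 i.2
    have h1 := Pool.Agent.H4.RR.absLogHeight_eq E Ω (algebraMap E Ω) (x i)
    have h2 : algebraMap E Ω (x i) = (γ * h y) ^ q := by
      have h3 : algebraMap E Ω (x i) = γ ^ q * (i : Ω) := rfl
      rw [h3, ← hi, hz, map_pow, mul_pow]
    rw [h2, Pool.Agent.H4.RR.absLogHeight_pow Ω _ (int_all K _), height_twist γ y hγ h,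
      ← hH] at h1
    rw [h1]
    field_simp
  have hH0 : 0 ≤ H := by
    have h1 : ∃ i, i ∈ X := Finset.card_pos.1 hXpos
    obtain ⟨i, hi⟩ := h1
    have h2 := hht ⟨i, hi⟩
    have h3 := Height.zero_le_logHeight₁ (x ⟨i, hi⟩)
    rw [h2] at h3
    have hq0' : (0 : ℝ) < q := by exact_mod_cast hq0
    by_contra hneg
    push Not at hneg
    have h4 : (Module.finrank ℚ E : ℝ) * (q * H) < 0 :=
      mul_neg_of_pos_of_neg hN0' (mul_neg_of_pos_of_neg hq0' hneg)
    linarith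
  rw [hsum, Finset.sum_congr rfl fun i _ => hht i, Finset.sum_const, Finset.card_univ,
    Fintype.card_coe, nsmul_eq_mul, ← hn] at hpf
  -- conclusion
  have hD : Module.finrank ℚ K * Module.finrank K E = Module.finrank ℚ E :=
    Module.finrank_mul_finrank ℚ K E
  have hG : Fintype.card (E ≃ₐ[K] E) = Module.finrank K E := by
    rw [← Nat.card_eq_fintype_card]
    exact IsGalois.card_aut_eq_finrank K E
  rw [← hG] at hD
  have hD' : (Module.finrank ℚ K : ℝ) * Fintype.card (E ≃ₐ[K] E) = Module.finrank ℚ E := by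
    exact_mod_cast hD
  have hn1 : (1 : ℝ) ≤ n := by
    have : 1 ≤ n := by omega
    exact_mod_cast this
  have hsub : (((n - 1 : ℕ) : ℝ)) ≤ n := by exact_mod_cast Nat.sub_le n 1
  have hq1 : (q : ℝ) = (p : ℝ) ^ s := by rw [hq]; push_cast; rfl
  have hnA : (n : ℝ) ≤ A * dg Lt y := by
    have h1 : n ≤ A * dg Lt y := by rw [hn, hXcard]; exact hA
    exact_mod_cast h1
  have hdg1 : (1 : ℝ) ≤ dg Lt y := by exact_mod_cast dg_pos Lt y
  have hA1r : (1 : ℝ) ≤ A := by exact_mod_cast hA1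
  have hlogn : Real.log n ≤ Real.log A + Real.log (dg Lt y) := by
    rw [← Real.log_mul (by positivity) (by positivity)]
    exact Real.log_le_log (by positivity) hnA
  have hnq : (n : ℝ) * (q * H) ≤ 1 := by
    have hqH : 0 ≤ (q : ℝ) * H := by positivity
    calc (n : ℝ) * (q * H) ≤ (A * dg Lt y) * (q * H) := mul_le_mul_of_nonneg_right hnA hqH
      _ = (A : ℝ) * (p : ℝ) ^ s * ((dg Lt y : ℝ) * H) := by rw [hq1]; ring
      _ ≤ 1 := hh
  have hN2 : (Module.finrank ℚ E : ℝ) * (2 * Real.log n + 2 * (n * (q * H))) ≤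
      (Module.finrank ℚ E : ℝ) * (2 * (Real.log A + Real.log (dg Lt y) + 1)) := by
    apply mul_le_mul_of_nonneg_left _ hN0'.le
    linarith
  have hqH : 0 ≤ (q : ℝ) * H := by positivity
  have hmain : c * Bad.card ≤ (Module.finrank ℚ E : ℝ) * (2 * Real.log n + 2 * (n * (q * H))) := by
    have h1 : 2 * (((n - 1 : ℕ) : ℝ)) * (n * ((Module.finrank ℚ E : ℝ) * (q * H))) ≤
        2 * n * (n * ((Module.finrank ℚ E : ℝ) * (q * H))) := by
      apply mul_le_mul_of_nonneg_right _ (by positivity)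
      linarith
    have h2 : n * (c * Bad.card) ≤
        n * ((Module.finrank ℚ E : ℝ) * (2 * Real.log n + 2 * (n * (q * H)))) := by
      nlinarith
    exact le_of_mul_le_mul_left h2 (by linarith)
  have hfin := hmain.trans hN2
  rw [← hD', hc] at hfin
  nlinarith

end Pool.Agent.H72.PB
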