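import Pool.Agent.H72.PB.OrbB
import Pool.Agent.H72.PL.Transfer
import Pool.Agent.H72.PB.HNonneg

/-!
# Module BaseDeg: Theorem A in terms of `dg`

`final_rank_one` (file `H72/PL/Transfer.lean`) for `Λ = Subgroup.zpowers b'`, `b' = Units.mk0 (algebraMap b)`
(finitely generated; `b'` has infinite order, every element is a power of `b'`). For `N ≥ 1` let
`Γ = {x : Ωˣ | x^N ∈ Λ}` (a subgroup; `Λ ≤ Γ`). Let `α ≠ 0`, `α ∉ DivG`: no power `α^n`, `n ≥ 1`, is in `Γ`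
(`α^(n N) = b^j`, so `α ∈ DivG`; `∏ i : Fin 1, x = x`). `K(Γ) ⊇ RF Ω (fun _ => b) 1 N`: the generators `x` of `RF`
(`x^1 = 1`, `x^N = 1` or `x^N = b`) are nonzero and lie in `Γ`. Let `F = IntermediateField.adjoin K {γ ∈ Γ}`,
`D = natDegree (minpoly F α) ≤ dg F α ≤ dg (RF ..) α =: d` (`natDegree_le_dg`, `dg_mono`), `D ≥ 1`, so
`c ≤ D h (log (3 N D))^A ≤ d h (log (3 N d))^A` (`h ≥ 0`: from `c > 0` and the inequality, or
`absLogHeight₁` is nonnegative).
-/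

set_option autoImplicit false
set_option linter.unusedSectionVars false

open NumberField IntermediateField

namespace Pool.Agent.H72.PB

open Pool.Agent.H72.RM

variable {K Ω : Type} [Field K] [NumberField K] [Field Ω] [CharZero Ω] [IsAlgClosed Ω]
  [Algebra K Ω] [IsGalois K Ω]

theorem height_nonneg (x : Ω) : 0 ≤ absLogHeight₁ x := ht_nonneg x

theorem base_deg (b : K) (hb : b ≠ 0) (hb' : ∀ n : ℕ, 1 ≤ n → b ^ n ≠ 1) :
    ∃ (c : ℝ) (A : ℕ), 0 < c ∧ ∀ N : ℕ, 1 ≤ N → ∀ α : Ω, α ≠ 0 →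
      α ∉ DivG Ω (fun _ : Fin 1 => b) →
      c ≤ (dg (RF Ω (fun _ : Fin 1 => b) 1 N) α : ℝ) * absLogHeight₁ α *
        (Real.log (3 * N * dg (RF Ω (fun _ : Fin 1 => b) 1 N) α)) ^ A := by
  have hbΩ : algebraMap K Ω b ≠ 0 := by
    intro h
    exact hb ((map_eq_zero (algebraMap K Ω)).1 h)
  obtain ⟨β, hβ⟩ : ∃ β : Ωˣ, (β : Ω) = algebraMap K Ω b := ⟨Units.mk0 _ hbΩ, rfl⟩
  have hβ1 : ∀ n : ℕ, 1 ≤ n → β ^ n ≠ 1 := by
    intro n hn h
    apply hb' n hn
    have h1 : ((β ^ n : Ωˣ) : Ω) = 1 := by rw [h, Units.val_one]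
    rw [Units.val_pow_eq_pow_val, hβ, ← map_pow] at h1
    exact (algebraMap K Ω).injective (by rw [h1, map_one])
  have hfg : (Subgroup.zpowers β).FG := by
    rw [Subgroup.zpowers_eq_closure]
    exact ⟨{β}, by simp⟩
  obtain ⟨c, A, hc, H⟩ := Pool.Agent.H72.PL.final_rank_one (K := K) (Subgroup.zpowers β) hfg β
    (Subgroup.mem_zpowers β) hβ1 (fun γ hγ => by
      obtain ⟨j, hj⟩ := Subgroup.mem_zpowers_iff.1 hγ
      exact ⟨1, le_rfl, j, by rw [pow_one, hj]⟩)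
  refine ⟨c, A, hc, fun N hN α hα hαD => ?_⟩
  obtain ⟨α', hα'⟩ : ∃ α' : Ωˣ, (α' : Ω) = α := ⟨Units.mk0 α hα, rfl⟩
  obtain ⟨Γ, hΓ⟩ : ∃ Γ : Subgroup Ωˣ, ∀ γ, γ ∈ Γ ↔ γ ^ N ∈ Subgroup.zpowers β :=
    ⟨(Subgroup.zpowers β).comap (powMonoidHom N), fun γ => by
      rw [Subgroup.mem_comap, powMonoidHom_apply]⟩
  have h1 := H N hN Γ (fun γ hγ => (hΓ γ).2 (Subgroup.pow_mem _ hγ N)) (fun γ hγ => (hΓ γ).1 hγ) α'
    (fun n hn hmem => by
      have h2 := (hΓ _).1 hmem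
      obtain ⟨j, hj⟩ := Subgroup.mem_zpowers_iff.1 h2
      apply hαD
      refine ⟨n * N, Nat.mul_pos hn hN, fun _ => j, ?_⟩
      have h3 := congrArg (fun z : Ωˣ => (z : Ω)) hj
      simp only [Units.val_zpow_eq_zpow_val, Units.val_pow_eq_pow_val, hβ, hα'] at h3
      rw [Fin.prod_univ_one, h3, pow_mul])
  rw [hα'] at h1
  obtain ⟨F, hF⟩ : ∃ F : IntermediateField K Ω,
    F = IntermediateField.adjoin K {y : Ω | ∃ γ ∈ Γ, y = (γ : Ω)} := ⟨_, rfl⟩
  rw [← hF] at h1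
  have hRF : RF Ω (fun _ : Fin 1 => b) 1 N ≤ F := by
    unfold RF
    rw [IntermediateField.adjoin_le_iff, hF]
    intro x hx
    have hx0 : x ≠ 0 := by
      rintro rfl
      rcases hx with h | h | ⟨i, h⟩
      · rw [pow_one] at h
        exact zero_ne_one h
      · rw [zero_pow (by omega)] at h
        exact zero_ne_one h
      · rw [zero_pow (by omega)] at h
        exact hbΩ h.symm
    refine IntermediateField.subset_adjoin K _ ⟨Units.mk0 x hx0, ?_, rfl⟩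
    rw [hΓ]
    rcases hx with h | h | ⟨i, h⟩
    · rw [pow_one] at h
      have h2 : Units.mk0 x hx0 = 1 := Units.ext h
      rw [h2, one_pow]
      exact Subgroup.one_mem _
    · have h2 : Units.mk0 x hx0 ^ N = 1 := by
        apply Units.ext
        rw [Units.val_pow_eq_pow_val, Units.val_mk0, h, Units.val_one]
      rw [h2]
      exact Subgroup.one_mem _
    · have h2 : Units.mk0 x hx0 ^ N = β := by
        apply Units.ext
        rw [Units.val_pow_eq_pow_val, Units.val_mk0, h, hβ]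
      rw [h2]
      exact Subgroup.mem_zpowers β
  have hle : (minpoly F α).natDegree ≤ dg (RF Ω (fun _ : Fin 1 => b) 1 N) α :=
    (natDegree_le_dg F α).trans (dg_mono hRF α)
  obtain ⟨d, hd⟩ : ∃ d, d = dg (RF Ω (fun _ : Fin 1 => b) 1 N) α := ⟨_, rfl⟩
  obtain ⟨D, hD⟩ : ∃ D, D = (minpoly F α).natDegree := ⟨_, rfl⟩
  rw [← hD] at h1 hle
  rw [← hd] at hle ⊢
  have hh := height_nonneg α
  have hD1 : 1 ≤ D := by
    rcases Nat.eq_zero_or_pos D with h0 | h0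
    · rw [h0, Nat.cast_zero, zero_mul, zero_mul] at h1
      linarith
    · exact h0
  have hDR : (1 : ℝ) ≤ D := by exact_mod_cast hD1
  have hNR : (1 : ℝ) ≤ N := by exact_mod_cast hN
  have hdR : (D : ℝ) ≤ d := by exact_mod_cast hle
  have h3 : (1 : ℝ) ≤ 3 * N * D := by nlinarith
  have h4 : Real.log (3 * N * D) ≤ Real.log (3 * N * d) := by
    refine Real.log_le_log (by linarith) ?_
    exact mul_le_mul_of_nonneg_left hdR (by positivity)
  have h5 : 0 ≤ Real.log (3 * N * D) := Real.log_nonneg h3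
  refine h1.trans ?_
  refine mul_le_mul (mul_le_mul_of_nonneg_right hdR hh) (pow_le_pow_left₀ h5 h4 A)
    (pow_nonneg h5 A) (mul_nonneg (by linarith) hh)

end Pool.Agent.H72.PB
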