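import Mathlib

/-!
# Module GainPoly: the local gain

`coeff_bound`: induction on `V`: `(X - u) f` has the coefficients `f_(i-1) - u f_i`, so
`‖.‖ R^i ≤ max (‖f_(i-1)‖ R^(i-1) R, ‖u‖ ‖f_i‖ R^i) ≤ max R ‖u‖ * B`.
`gain_poly`: `P = ∏ (X - u x)`, `Q = ∏ (X - v x)`, `a_i` the coefficients of `P`, `U = u x₀`,
`B = ∏_x max ‖U‖ ‖u x‖`, so `‖a_i‖ ‖U‖^i ≤ B` (`coeff_bound`). For `η^q = 1` (`‖η‖ = 1`):
`Q(η U) = (Q - P)(η U) + (P(η U) - P(U))` as `P(U) = 0`; `‖(Q-P)(η U)‖ ≤ max_i ρ ‖a_i‖ ‖U‖^i ≤ ρ B`, and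
`‖P(η U) - P(U)‖ ≤ max_i ‖a_i‖ ‖U‖^i ‖η^i - 1‖ ≤ ρ B` (`‖η^i - 1‖ ≤ ρ` by `hs` for `η^i`). So
`∏_x ‖η U - v x‖ = ‖Q(η U)‖ ≤ ρ B`. Now `U^q - (v x)^q = ∏_η (U - η v x)` over the `q`-th roots of unity
(`IsPrimitiveRoot.pow_sub_pow_eq_prod_sub_mul`), `‖U - η v x‖ = ‖η⁻¹ U - v x‖`, and so
`∏_x ‖U^q - (v x)^q‖ = ∏_η ∏_x ‖η⁻¹ U - v x‖ ≤ (ρ B)^q` (there are `q` roots `η`).
(Sums: `IsUltrametricDist.norm_sum_le_of_forall_le_of_nonneg`, `Polynomial.eval_eq_sum_range`; use a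
common bound for the degrees of `P`, `Q`, e.g. `Finset.range (V.card + 1)`.)
-/

set_option autoImplicit false
set_option linter.unusedSectionVars false

open Polynomial

namespace Pool.Agent.H72.PB

variable {D : Type} [NormedField D] [IsUltrametricDist D]

theorem coeff_bound {I : Type} (V : Finset I) (u : I → D) (R : ℝ) (hR : 0 ≤ R) (i : ℕ) :
    ‖(∏ x ∈ V, (X - C (u x))).coeff i‖ * R ^ i ≤ ∏ x ∈ V, max R ‖u x‖ := by
  classical
  induction V using Finset.induction_on generalizing i with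
  | empty =>
    rw [Finset.prod_empty, Finset.prod_empty, coeff_one]
    by_cases h : i = 0
    · subst h; simp
    · rw [if_neg h]; simp
  | insert a s ha ih =>
    rw [Finset.prod_insert ha, Finset.prod_insert ha]
    set f : D[X] := ∏ x ∈ s, (X - C (u x)) with hf
    set B : ℝ := ∏ x ∈ s, max R ‖u x‖ with hB
    have hB0 : 0 ≤ B := Finset.prod_nonneg fun x _ => le_max_of_le_right (norm_nonneg _)
    cases i with
    | zero =>
      have h1 : ((X - C (u a)) * f).coeff 0 = - (u a * f.coeff 0) := by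
        rw [sub_mul, coeff_sub, coeff_X_mul_zero, coeff_C_mul, zero_sub]
      have h2 := ih 0
      rw [pow_zero, mul_one] at h2
      rw [h1, norm_neg, norm_mul, pow_zero, mul_one]
      exact mul_le_mul (le_max_right _ _) h2 (norm_nonneg _) (le_max_of_le_right (norm_nonneg _))
    | succ j =>
      have h1 : ((X - C (u a)) * f).coeff (j + 1) = f.coeff j - u a * f.coeff (j + 1) := by
        rw [sub_mul, coeff_sub, coeff_X_mul, coeff_C_mul]
      have h2 := ih j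
      have h3 := ih (j + 1)
      rw [h1]
      have h4 : ‖f.coeff j - u a * f.coeff (j + 1)‖ ≤ max ‖f.coeff j‖ ‖u a * f.coeff (j + 1)‖ := by
        rw [sub_eq_add_neg, ← norm_neg (u a * f.coeff (j + 1))]
        exact IsUltrametricDist.norm_add_le_max _ _
      have h5 : ‖f.coeff j - u a * f.coeff (j + 1)‖ * R ^ (j + 1) ≤
          max (‖f.coeff j‖ * R ^ (j + 1)) (‖u a * f.coeff (j + 1)‖ * R ^ (j + 1)) := by
        rw [← max_mul_of_nonneg _ _ (pow_nonneg hR _)]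
        exact mul_le_mul_of_nonneg_right h4 (pow_nonneg hR _)
      refine h5.trans (max_le ?_ ?_)
      · calc ‖f.coeff j‖ * R ^ (j + 1) = R * (‖f.coeff j‖ * R ^ j) := by ring
          _ ≤ max R ‖u a‖ * B :=
            mul_le_mul (le_max_left _ _) h2 (mul_nonneg (norm_nonneg _) (pow_nonneg hR _))
              (le_max_of_le_right (norm_nonneg _))
      · calc ‖u a * f.coeff (j + 1)‖ * R ^ (j + 1)
            = ‖u a‖ * (‖f.coeff (j + 1)‖ * R ^ (j + 1)) := by rw [norm_mul]; ring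
          _ ≤ max R ‖u a‖ * B :=
            mul_le_mul (le_max_right _ _) h3 (mul_nonneg (norm_nonneg _) (pow_nonneg hR _))
              (le_max_of_le_right (norm_nonneg _))

theorem eval_sum_bound (P Q : D[X]) (n : ℕ) (y : D) (hP : P.natDegree < n) (hQ : Q.natDegree < n)
    (M : ℝ) (hM : 0 ≤ M) (h : ∀ i, ‖(Q.coeff i - P.coeff i) * y ^ i‖ ≤ M) :
    ‖Q.eval y - P.eval y‖ ≤ M := by
  rw [eval_eq_sum_range' hP, eval_eq_sum_range' hQ, ← Finset.sum_sub_distrib]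
  refine IsUltrametricDist.norm_sum_le_of_forall_le_of_nonneg hM fun i _ => ?_
  rw [← sub_mul]
  exact h i

theorem gain_poly {I : Type} (V : Finset I) (u v : I → D) (ρ : ℝ) (hρ : 0 ≤ ρ)
    (hcl : ∀ i, ‖(∏ x ∈ V, (X - C (v x))).coeff i - (∏ x ∈ V, (X - C (u x))).coeff i‖ ≤
      ρ * ‖(∏ x ∈ V, (X - C (u x))).coeff i‖)
    (q : ℕ) (hq : 1 ≤ q) (ζ : D) (hζ : IsPrimitiveRoot ζ q)
    (hs : ∀ η : D, η ^ q = 1 → ‖η - 1‖ ≤ ρ) (x₀ : I) (hx₀ : x₀ ∈ V) :
    ∏ x ∈ V, ‖(u x₀) ^ q - (v x) ^ q‖ ≤ (ρ * ∏ x ∈ V, max ‖u x₀‖ ‖u x‖) ^ q := by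
  classical
  set P : D[X] := ∏ x ∈ V, (X - C (u x)) with hP
  set Q : D[X] := ∏ x ∈ V, (X - C (v x)) with hQ
  set U : D := u x₀ with hU
  set B : ℝ := ∏ x ∈ V, max ‖U‖ ‖u x‖ with hB
  have hB0 : 0 ≤ B := Finset.prod_nonneg fun x _ => le_max_of_le_right (norm_nonneg _)
  have hPd : P.natDegree < V.card + 1 := by
    rw [hP, natDegree_prod_of_monic _ _ (fun x _ => monic_X_sub_C (u x))]
    simp
  have hQd : Q.natDegree < V.card + 1 := by
    rw [hQ, natDegree_prod_of_monic _ _ (fun x _ => monic_X_sub_C (v x))]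
    simp
  have hPU : P.eval U = 0 := by
    rw [hP, eval_prod]
    exact Finset.prod_eq_zero hx₀ (by simp [hU])
  have hnrm : ∀ η : D, η ^ q = 1 → ‖η‖ = 1 := by
    intro η hη
    have h1 : ‖η‖ ^ q = 1 := by rw [← norm_pow, hη, norm_one]
    exact (pow_eq_one_iff_of_nonneg (norm_nonneg _) (by omega)).mp h1
  have hcb : ∀ i, ‖P.coeff i‖ * ‖U‖ ^ i ≤ B := fun i => coeff_bound V u ‖U‖ (norm_nonneg _) i
  have key : ∀ η : D, η ^ q = 1 → ∏ x ∈ V, ‖η * U - v x‖ ≤ ρ * B := by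
    intro η hη
    have hn := hnrm η hη
    have h1 : ∏ x ∈ V, ‖η * U - v x‖ = ‖Q.eval (η * U)‖ := by
      rw [hQ, eval_prod, norm_prod]
      refine Finset.prod_congr rfl fun x _ => ?_
      simp
    have hM : 0 ≤ ρ * B := mul_nonneg hρ hB0
    have h2 : ‖Q.eval (η * U) - P.eval (η * U)‖ ≤ ρ * B := by
      refine eval_sum_bound P Q (V.card + 1) (η * U) hPd hQd _ hM fun i => ?_
      rw [norm_mul, norm_pow, norm_mul, hn, one_mul]
      calc ‖Q.coeff i - P.coeff i‖ * ‖U‖ ^ i ≤ (ρ * ‖P.coeff i‖) * ‖U‖ ^ i :=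
            mul_le_mul_of_nonneg_right (hcl i) (pow_nonneg (norm_nonneg _) _)
        _ = ρ * (‖P.coeff i‖ * ‖U‖ ^ i) := by ring
        _ ≤ ρ * B := mul_le_mul_of_nonneg_left (hcb i) hρ
    have h3 : ‖P.eval (η * U) - P.eval U‖ ≤ ρ * B := by
      rw [eval_eq_sum_range' hPd, eval_eq_sum_range' hPd, ← Finset.sum_sub_distrib]
      refine IsUltrametricDist.norm_sum_le_of_forall_le_of_nonneg hM fun i _ => ?_
      have h4 : P.coeff i * (η * U) ^ i - P.coeff i * U ^ i = (η ^ i - 1) * (P.coeff i * U ^ i) := by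
        rw [mul_pow]; ring
      have h5 : ‖η ^ i - 1‖ ≤ ρ := hs (η ^ i) (by rw [← pow_mul, mul_comm, pow_mul, hη, one_pow])
      rw [h4, norm_mul, norm_mul, norm_pow]
      exact mul_le_mul h5 (hcb i) (mul_nonneg (norm_nonneg _) (pow_nonneg (norm_nonneg _) _)) hρ
    have h6 : Q.eval (η * U) = (Q.eval (η * U) - P.eval (η * U)) + (P.eval (η * U) - P.eval U) := by
      rw [hPU]; ring
    rw [h1, h6]
    exact (IsUltrametricDist.norm_add_le_max _ _).trans (max_le h2 h3)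
  -- the product over the roots of unity
  have hqpos : 0 < q := hq
  have hfac : ∀ x, ‖U ^ q - (v x) ^ q‖ = ∏ η ∈ nthRootsFinset q (1 : D), ‖U - η * v x‖ := by
    intro x
    rw [hζ.pow_sub_pow_eq_prod_sub_mul U (v x) hqpos, norm_prod]
  have hcard : (nthRootsFinset q (1 : D)).card = q := hζ.card_nthRootsFinset
  calc ∏ x ∈ V, ‖U ^ q - (v x) ^ q‖
      = ∏ x ∈ V, ∏ η ∈ nthRootsFinset q (1 : D), ‖U - η * v x‖ :=
        Finset.prod_congr rfl fun x _ => hfac x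
    _ = ∏ η ∈ nthRootsFinset q (1 : D), ∏ x ∈ V, ‖U - η * v x‖ := Finset.prod_comm
    _ ≤ ∏ η ∈ nthRootsFinset q (1 : D), (ρ * B) := by
        refine Finset.prod_le_prod (fun η _ => Finset.prod_nonneg fun x _ => norm_nonneg _)
          fun η hη => ?_
        have hη1 : η ^ q = 1 := (mem_nthRootsFinset hqpos 1).mp hη
        have hη0 : η ≠ 0 := by
          intro h0
          rw [h0, zero_pow (by omega)] at hη1
          exact zero_ne_one hη1
        have h7 : (η⁻¹) ^ q = 1 := by rw [inv_pow, hη1, inv_one]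
        refine le_trans (le_of_eq ?_) (key η⁻¹ h7)
        refine Finset.prod_congr rfl fun x _ => ?_
        have h8 : U - η * v x = η * (η⁻¹ * U - v x) := by
          field_simp
        rw [h8, norm_mul, hnrm η hη1, one_mul]
    _ = (ρ * B) ^ q := by rw [Finset.prod_const, hcard]

end Pool.Agent.H72.PB
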