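import Pool.Agent.H72.PB.OrbB
import Pool.Agent.H72.PB.GainPoly
import Pool.Agent.H72.RG.MulClose

/-!
# Module ClassGain: the gain for a pair of classes

`κ : Ω → C`, `κ (θ x) = τ (κ x)`, so `κ (θ^j x) = τ^j (κ x)`; `τ` is an isometry (`IsoEnv.iso`).
For `a ∈ L`: `‖κ (θ^j a) - κ a‖ = ‖τ^j (κ a) - κ a‖ ≤ ρ ‖κ a‖` (`hcl` for `j = 1` if `a ≠ 0`, then
`mul_close_pow`, file `H72/RG/MulClose.lean`, with `B = ρ ‖κ a‖`).
The coefficients `a_i` of `∏_{x ∈ V} (X - x)` lie in `L` (`orb_poly_mem`). Those of `∏ (X - κ x)` are `κ a_i`,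
those of `∏ (X - κ (θ^j x))` are `κ (θ^j a_i)` (`Polynomial.map_prod`, `coeff_map`). Apply `gain_poly` with
`u x = κ x`, `v x = κ (θ^j x)`, `q = p^s`, `I = Ω`; `ζ` a primitive `q`-th root of unity of `C`
(`HasEnoughRootsOfUnity.exists_primitiveRoot`, `C` algebraically closed of characteristic zero:
`charZero_C p C`, file `H72/RM/Defs.lean`).
-/

set_option autoImplicit false
set_option linter.unusedSectionVars false

open NumberField IntermediateField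

namespace Pool.Agent.H72.PB

open Pool.Agent.H72.RM Pool.Agent.H72.RG

variable {p : ℕ} [Fact p.Prime] {C : Type} [NormedField C] [NormedAlgebra ℚ_[p] C]
  [IsUltrametricDist C] [IsAlgClosed C] [Algebra.IsAlgebraic ℚ_[p] C] [IsoEnv p C]
  {K Ω : Type} [Field K] [NumberField K] [Field Ω] [CharZero Ω] [Algebra K Ω] [IsGalois K Ω]

theorem kappa_pow (κ : Ω →+* C) (θ : Ω ≃ₐ[K] Ω) (τ : C ≃ₐ[ℚ_[p]] C)
    (hτ : ∀ x : Ω, κ (θ x) = τ (κ x)) (j : ℕ) (x : Ω) : κ ((θ ^ j) x) = (τ ^ j) (κ x) := by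
  induction j with
  | zero => rfl
  | succ j ih =>
    rw [pow_succ', pow_succ', AlgEquiv.mul_apply, AlgEquiv.mul_apply, hτ, ih]

theorem norm_theta (κ : Ω →+* C) (θ : Ω ≃ₐ[K] Ω) (τ : C ≃ₐ[ℚ_[p]] C)
    (hτ : ∀ x : Ω, κ (θ x) = τ (κ x)) (j : ℕ) (x : Ω) : ‖κ ((θ ^ j) x)‖ = ‖κ x‖ := by
  rw [kappa_pow κ θ τ hτ, IsoEnv.iso]

theorem theta_close (κ : Ω →+* C) (L : IntermediateField K Ω) (θ : Ω ≃ₐ[K] Ω)
    (τ : C ≃ₐ[ℚ_[p]] C) (hτ : ∀ x : Ω, κ (θ x) = τ (κ x)) (ρ : ℝ) (hρ0 : 0 < ρ)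
    (hcl : ∀ x ∈ L, x ≠ 0 → ‖τ (κ x) / κ x - 1‖ ≤ ρ) (j : ℕ) (a : Ω) (ha : a ∈ L) :
    ‖κ ((θ ^ j) a) - κ a‖ ≤ ρ * ‖κ a‖ := by
  by_cases h0 : a = 0
  · rw [h0, map_zero, map_zero, sub_zero, norm_zero, mul_zero]
  · have h1 : κ a ≠ 0 := (map_ne_zero κ).2 h0
    rw [kappa_pow κ θ τ hτ]
    refine mul_close_pow τ (κ a) (ρ * ‖κ a‖) (by positivity) ?_ j
    have h2 : τ (κ a) - κ a = (τ (κ a) / κ a - 1) * κ a := by
      field_simp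
    rw [h2, norm_mul]
    exact mul_le_mul_of_nonneg_right (hcl a ha h0) (norm_nonneg _)

theorem class_gain (κ : Ω →+* C) (L : IntermediateField K Ω) (θ : Ω ≃ₐ[K] Ω)
    (τ : C ≃ₐ[ℚ_[p]] C) (hτ : ∀ x : Ω, κ (θ x) = τ (κ x)) (ρ : ℝ) (hρ0 : 0 < ρ)
    (hcl : ∀ x ∈ L, x ≠ 0 → ‖τ (κ x) / κ x - 1‖ ≤ ρ) (s : ℕ)
    (hs : ∀ η : C, η ^ (p ^ s) = 1 → ‖η - 1‖ ≤ ρ) (v₀ : Ω) (V : Finset Ω)
    (hV : (V : Set Ω) = Orb L v₀) (v : Ω) (hv : v ∈ V) (j : ℕ) :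
    ∏ x ∈ V, ‖(κ v) ^ (p ^ s) - (κ ((θ ^ j) x)) ^ (p ^ s)‖ ≤
      ρ ^ (p ^ s) * ∏ x ∈ V, (max ‖κ v‖ ‖κ x‖) ^ (p ^ s) := by
  classical
  have hp : p.Prime := Fact.out
  have : CharZero C := charZero_C p C
  have hne : NeZero ((p ^ s : ℕ) : C) := ⟨by
    rw [Nat.cast_ne_zero]
    exact pow_ne_zero _ hp.ne_zero⟩
  obtain ⟨ζ, hζ⟩ := HasEnoughRootsOfUnity.exists_primitiveRoot C (p ^ s)
  have e1 : ∏ x ∈ V, (Polynomial.X - Polynomial.C (κ x)) =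
      (∏ x ∈ V, (Polynomial.X - Polynomial.C x)).map κ := by
    rw [Polynomial.map_prod]
    exact Finset.prod_congr rfl fun x _ => by
      rw [Polynomial.map_sub, Polynomial.map_X, Polynomial.map_C]
  have e2 : ∏ x ∈ V, (Polynomial.X - Polynomial.C (κ ((θ ^ j) x))) =
      (∏ x ∈ V, (Polynomial.X - Polynomial.C x)).map
        (κ.comp ((θ ^ j : Ω ≃ₐ[K] Ω) : Ω →+* Ω)) := by
    rw [Polynomial.map_prod]
    exact Finset.prod_congr rfl fun x _ => by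
      rw [Polynomial.map_sub, Polynomial.map_X, Polynomial.map_C]
      rfl
  have hmain := gain_poly V (fun x => κ x) (fun x => κ ((θ ^ j) x)) ρ hρ0.le (by
    intro i
    rw [e1, e2, Polynomial.coeff_map, Polynomial.coeff_map]
    exact theta_close κ L θ τ hτ ρ hρ0 hcl j _ (orb_poly_mem V hV i))
    (p ^ s) (Nat.one_le_pow _ _ hp.pos) ζ hζ hs v hv
  rw [mul_pow, ← Finset.prod_pow] at hmain
  exact hmain

end Pool.Agent.H72.PB
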