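import Pool.Agent.H72.PB.OrbB
import Pool.Agent.H72.RM.RFa

/-!
# Module CoverB: from `K(Γ)` to the fields `RF 1 (M N₁)`

`bb = fun _ : Fin 1 => b`. `cover_mem`: `t^(M N₁) = b^j`, `M` an `S`-number: choose `g` with `g^(M N₁) = b`; then
`(t / g^j)^(M N₁) = 1` (`t ≠ 0`), so `t = (t/g^j) g^j ∈ RF Ω bb 1 (M N₁)`.
`cover_adj`: `a` in the field generated over `ℚ` (a fortiori over `K`) by elements `t` as above and by elements of
`K`: by `IntermediateField.adjoin_induction`, the property `∃ M, a ∈ RF Ω bb 1 (M N₁)` (`M` an `S`-number) is closed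
under the field operations (`rf_mono` for `M M'`).
`cover_deg`: `P` a nonzero polynomial over `Ω` all of whose coefficients have the property of `cover_adj`:
a common `M` (induction over the finite set of the coefficients, product of the `M`'s, `rf_mono`); then
`dg_le_of_poly`.
-/

set_option autoImplicit false
set_option linter.unusedSectionVars false

open NumberField IntermediateField Polynomial

namespace Pool.Agent.H72.PB

open Pool.Agent.H72.RM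

variable {K Ω : Type} [Field K] [Field Ω] [CharZero Ω] [IsAlgClosed Ω] [Algebra K Ω]
  [IsGalois K Ω]

/-- the elements of the union of the fields `RF 1 (M N₁)`, `M` composed of primes of `S` -/
def CovB (b : K) (S : Finset ℕ) (N₁ : ℕ) (a : Ω) : Prop :=
  ∃ M : ℕ, 1 ≤ M ∧ (∀ q : ℕ, q.Prime → q ∣ M → q ∈ S) ∧ a ∈ RF Ω (fun _ : Fin 1 => b) 1 (M * N₁)

theorem cover_mem (b : K) (hb : b ≠ 0) (S : Finset ℕ) (N₁ : ℕ) (hN₁ : 1 ≤ N₁) (t : Ω)
    (ht : t ≠ 0) (M : ℕ) (hM : 1 ≤ M) (hMS : ∀ q : ℕ, q.Prime → q ∣ M → q ∈ S) (j : ℤ)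
    (h : t ^ (M * N₁) = (algebraMap K Ω b) ^ j) : CovB b S N₁ t := by
  have hMN : 0 < M * N₁ := Nat.mul_pos (by omega) (by omega)
  obtain ⟨g, hg⟩ := IsAlgClosed.exists_pow_nat_eq (algebraMap K Ω b) hMN
  have hb' : algebraMap K Ω b ≠ 0 := (_root_.map_ne_zero _).2 hb
  have hg0 : g ≠ 0 := by
    rintro rfl
    rw [zero_pow hMN.ne'] at hg
    exact hb' hg.symm
  have h1 : t / g ^ j ∈ RF Ω (fun _ : Fin 1 => b) 1 (M * N₁) := by
    refine IntermediateField.subset_adjoin K _ (Or.inr (Or.inl ?_))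
    show (t / g ^ j) ^ (M * N₁) = 1
    rw [div_pow, h, ← hg, ← zpow_natCast, ← zpow_natCast, ← zpow_mul, ← zpow_mul, mul_comm j,
      div_self (zpow_ne_zero _ hg0)]
  have h2 : g ∈ RF Ω (fun _ : Fin 1 => b) 1 (M * N₁) :=
    IntermediateField.subset_adjoin K _ (Or.inr (Or.inr ⟨0, hg⟩))
  refine ⟨M, hM, hMS, ?_⟩
  have h3 : t = (t / g ^ j) * g ^ j := by rw [div_mul_cancel₀ _ (zpow_ne_zero _ hg0)]
  rw [h3]
  exact mul_mem h1 (zpow_mem h2 j)

theorem covB_lift (b : K) (N₁ : ℕ) (hN₁ : 1 ≤ N₁) (M M' : ℕ) (hM : 1 ≤ M) (hM' : 1 ≤ M')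
    (a : Ω) (h : a ∈ RF Ω (fun _ : Fin 1 => b) 1 (M * N₁)) :
    a ∈ RF Ω (fun _ : Fin 1 => b) 1 (M * M' * N₁) ∧
      a ∈ RF Ω (fun _ : Fin 1 => b) 1 (M' * M * N₁) := by
  have h0 : 1 ≤ M * M' * N₁ := Nat.mul_pos (Nat.mul_pos (by omega) (by omega)) (by omega)
  have h1 : 1 ≤ M' * M * N₁ := Nat.mul_pos (Nat.mul_pos (by omega) (by omega)) (by omega)
  constructor
  · exact rf_mono _ 1 (M * N₁) 1 (M * M' * N₁) (dvd_refl 1) ⟨M', by ring⟩ le_rfl h0 h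
  · exact rf_mono _ 1 (M * N₁) 1 (M' * M * N₁) (dvd_refl 1) ⟨M', by ring⟩ le_rfl h1 h

theorem covB_common (b : K) (S : Finset ℕ) (N₁ : ℕ) (hN₁ : 1 ≤ N₁) {a a' : Ω}
    (h : CovB b S N₁ a) (h' : CovB b S N₁ a') :
    ∃ M : ℕ, 1 ≤ M ∧ (∀ q : ℕ, q.Prime → q ∣ M → q ∈ S) ∧
      a ∈ RF Ω (fun _ : Fin 1 => b) 1 (M * N₁) ∧ a' ∈ RF Ω (fun _ : Fin 1 => b) 1 (M * N₁) := by
  obtain ⟨M, hM, hMS, hMa⟩ := h
  obtain ⟨M', hM', hMS', hMa'⟩ := h'
  refine ⟨M * M', Nat.mul_pos (by omega) (by omega), ?_, ?_, ?_⟩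
  · intro q hq hqd
    rcases hq.dvd_mul.1 hqd with h1 | h1
    · exact hMS q hq h1
    · exact hMS' q hq h1
  · exact (covB_lift b N₁ hN₁ M M' hM hM' a hMa).1
  · exact (covB_lift b N₁ hN₁ M' M hM' hM a' hMa').2

theorem cover_adj (b : K) (S : Finset ℕ) (N₁ : ℕ) (hN₁ : 1 ≤ N₁) {k : Type} [Field k]
    [Algebra k Ω] (hk : ∀ x : k, CovB b S N₁ (algebraMap k Ω x)) (T : Set Ω)
    (hT : ∀ t ∈ T, CovB b S N₁ t) (a : Ω) (ha : a ∈ IntermediateField.adjoin k T) :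
    CovB b S N₁ a := by
  induction ha using IntermediateField.adjoin_induction with
  | mem y hy => exact hT y hy
  | algebraMap y => exact hk y
  | add y z _ _ hy hz =>
    obtain ⟨M, h1, h2, h3, h4⟩ := covB_common b S N₁ hN₁ hy hz
    exact ⟨M, h1, h2, add_mem h3 h4⟩
  | inv y _ hy =>
    obtain ⟨M, h1, h2, h3⟩ := hy
    exact ⟨M, h1, h2, inv_mem h3⟩
  | mul y z _ _ hy hz =>
    obtain ⟨M, h1, h2, h3, h4⟩ := covB_common b S N₁ hN₁ hy hz
    exact ⟨M, h1, h2, mul_mem h3 h4⟩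

theorem cover_deg (b : K) (S : Finset ℕ) (N₁ : ℕ) (hN₁ : 1 ≤ N₁) (P : Polynomial Ω) (hP : P ≠ 0)
    (hc : ∀ i, CovB b S N₁ (P.coeff i)) (α : Ω) (h0 : P.eval α = 0) :
    ∃ M : ℕ, 1 ≤ M ∧ (∀ q : ℕ, q.Prime → q ∣ M → q ∈ S) ∧
      dg (RF Ω (fun _ : Fin 1 => b) 1 (M * N₁)) α ≤ P.natDegree := by
  have key : ∀ s : Finset ℕ, ∃ M : ℕ, 1 ≤ M ∧ (∀ q : ℕ, q.Prime → q ∣ M → q ∈ S) ∧
      ∀ i ∈ s, P.coeff i ∈ RF Ω (fun _ : Fin 1 => b) 1 (M * N₁) := by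
    intro s
    classical
    induction s using Finset.induction_on with
    | empty =>
      refine ⟨1, le_rfl, ?_, by simp⟩
      intro q hq h1
      exact absurd (Nat.dvd_one.1 h1) hq.one_lt.ne'
    | insert i s _ ih =>
      obtain ⟨M, hM, hMS, hMs⟩ := ih
      obtain ⟨M', hM', hMS', hMi⟩ := hc i
      refine ⟨M * M', Nat.mul_pos (by omega) (by omega), ?_, ?_⟩
      · intro q hq hqd
        rcases hq.dvd_mul.1 hqd with h1 | h1
        · exact hMS q hq h1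
        · exact hMS' q hq h1
      · intro k hk
        rcases Finset.mem_insert.1 hk with rfl | hk
        · exact (covB_lift b N₁ hN₁ M' M hM' hM _ hMi).2
        · exact (covB_lift b N₁ hN₁ M M' hM hM' _ (hMs k hk)).1
  obtain ⟨M, hM, hMS, hMs⟩ := key P.support
  refine ⟨M, hM, hMS, dg_le_of_poly P hP ?_ h0⟩
  intro i
  by_cases hi : i ∈ P.support
  · exact hMs i hi
  · rw [Polynomial.notMem_support_iff.1 hi]
    exact zero_mem _

end Pool.Agent.H72.PB
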