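import Mathlib

/-!
# Module QChoice: numeric lemmas for the final step

`q_choice`: `H t (log t)^A 3^A = o(t)`-type statement: there is `k' ≥ 3` with `H (3 log t)^A ≤ (c/2) t` for all
real `t ≥ k'` (`Real.isLittleO_pow_log_id_atTop` or similar). For `R, d ≥ 1` put `x = 3 R d ≥ 3` and
`Q = k' x^2` (a natural number): `log (x Q) = 3 log x + log k' ≤ 3 log (k' x)`; with `t = k' x ≥ k'`:
`d H (log (3 R Q d))^A ≤ x H (3 log t)^A ≤ x (c/2) k' x = (c/2) Q`. And
`log (3 R Q d) = 3 log x + log k' ≤ (3 + log k') log x` (`log x ≥ log 3 ≥ 1`); `B ≥ 3 + log k'`.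
`log_combine`: `log (3 R N d) ≤ log (3 N D) + log R ≤ log (3 N D) + A log (A log (3 D)) ≤ B log (3 N D)`,
for `d ≤ D`: `log (A log (3D)) ≤ log A + log (3 D)` (`log x ≤ x`), and `log (3 N D) ≥ 1`.
-/

set_option autoImplicit false

namespace Pool.Agent.H72.PB

theorem q_choice (H c : ℝ) (hH : 0 ≤ H) (hc : 0 < c) (A : ℕ) :
    ∃ B : ℕ, 1 ≤ B ∧ ∀ R d : ℕ, 1 ≤ R → 1 ≤ d → ∃ Q : ℕ, 1 ≤ Q ∧
      (d : ℝ) * H * (Real.log (3 * R * Q * d)) ^ A ≤ c / 2 * Q ∧
      Real.log (3 * R * Q * d) ≤ B * Real.log (3 * R * d) := by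
  have hε : (0 : ℝ) < c / (2 * (H + 1) * 3 ^ A) := by positivity
  have hlo := (Real.isLittleO_pow_log_id_atTop (n := A)).bound hε
  rw [Filter.eventually_atTop] at hlo
  obtain ⟨T, hT⟩ := hlo
  obtain ⟨k₀, hk₀⟩ := exists_nat_ge T
  obtain ⟨k, hk3, hkk⟩ : ∃ k : ℕ, 3 ≤ k ∧ k₀ ≤ k := ⟨max 3 k₀, le_max_left _ _, le_max_right _ _⟩
  have hkR : (3 : ℝ) ≤ k := by exact_mod_cast hk3
  have hkT : T ≤ (k : ℝ) := le_trans hk₀ (by exact_mod_cast hkk)
  have hlog3 : (1 : ℝ) ≤ Real.log 3 := by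
    rw [Real.le_log_iff_exp_le (by norm_num)]
    have := Real.exp_one_lt_d9
    linarith
  obtain ⟨B, hB⟩ := exists_nat_ge (3 + Real.log k)
  have hlogk : 0 ≤ Real.log k := Real.log_nonneg (by linarith)
  have hB1 : 1 ≤ B := by
    have : (1 : ℝ) ≤ B := by linarith
    exact_mod_cast this
  refine ⟨B, hB1, fun R d hR hd => ?_⟩
  have hRr : (1 : ℝ) ≤ R := by exact_mod_cast hR
  have hdr : (1 : ℝ) ≤ d := by exact_mod_cast hd
  set x : ℝ := 3 * R * d with hx
  have hx3 : 3 ≤ x := by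
    rw [hx]
    nlinarith [mul_le_mul hRr hdr (by norm_num) (by linarith)]
  have hx0 : 0 < x := by linarith
  have hdx : (d : ℝ) ≤ x := by
    rw [hx]
    nlinarith
  have hlogx : 1 ≤ Real.log x := le_trans hlog3 (Real.log_le_log (by norm_num) hx3)
  refine ⟨k * (3 * R * d) ^ 2, ?_, ?_, ?_⟩
  · exact Nat.one_le_iff_ne_zero.2 (by positivity)
  · have hQ : ((k * (3 * R * d) ^ 2 : ℕ) : ℝ) = k * x ^ 2 := by
      rw [hx]; push_cast; ring
    have harg : (3 : ℝ) * R * ((k * (3 * R * d) ^ 2 : ℕ) : ℝ) * d = k * x ^ 3 := by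
      rw [hQ, hx]; ring
    rw [harg, hQ]
    set t : ℝ := k * x with ht
    have htk : (k : ℝ) ≤ t := by rw [ht]; nlinarith
    have ht1 : 1 ≤ t := by linarith
    have hbd := hT t (by linarith)
    simp only [id] at hbd
    rw [Real.norm_of_nonneg (pow_nonneg (Real.log_nonneg ht1) _),
      Real.norm_of_nonneg (by linarith : (0 : ℝ) ≤ t)] at hbd
    have hlog : Real.log (k * x ^ 3) ≤ 3 * Real.log t := by
      have h1 : (k : ℝ) * x ^ 3 ≤ t ^ 3 := by
        have h0 : (k : ℝ) ≤ k ^ 3 := le_self_pow₀ (by linarith) (by norm_num)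
        have h2 : t ^ 3 = (k : ℝ) ^ 3 * x ^ 3 := by rw [ht]; ring
        rw [h2]
        exact mul_le_mul_of_nonneg_right h0 (by positivity)
      calc Real.log (k * x ^ 3) ≤ Real.log (t ^ 3) :=
            Real.log_le_log (by positivity) h1
        _ = 3 * Real.log t := by rw [Real.log_pow]; norm_num
    have hlog0 : 0 ≤ Real.log (k * x ^ 3) := Real.log_nonneg (by
      have : (1 : ℝ) ≤ x ^ 3 := one_le_pow₀ (by linarith)
      nlinarith)
    have hpow : (Real.log (k * x ^ 3)) ^ A ≤ 3 ^ A * (Real.log t) ^ A := by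
      rw [← mul_pow]
      exact pow_le_pow_left₀ hlog0 hlog A
    have h3 : 0 < (3 : ℝ) ^ A := by positivity
    calc (d : ℝ) * H * (Real.log (k * x ^ 3)) ^ A
        ≤ d * H * (3 ^ A * (Real.log t) ^ A) :=
          mul_le_mul_of_nonneg_left hpow (by positivity)
      _ ≤ d * H * (3 ^ A * (c / (2 * (H + 1) * 3 ^ A) * t)) := by gcongr
      _ = d * (H / (H + 1)) * (c / 2 * t) := by field_simp
      _ ≤ d * 1 * (c / 2 * t) := by
          have : H / (H + 1) ≤ 1 := by
            rw [div_le_one (by linarith)]; linarith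
          have h5 : 0 ≤ c / 2 * t := by positivity
          gcongr
      _ ≤ x * (c / 2 * t) := by
          have h5 : 0 ≤ c / 2 * t := by positivity
          rw [mul_one]
          exact mul_le_mul_of_nonneg_right hdx h5
      _ = c / 2 * (k * x ^ 2) := by rw [ht]; ring
  · have harg : (3 : ℝ) * R * ((k * (3 * R * d) ^ 2 : ℕ) : ℝ) * d = k * x ^ 3 := by
      rw [hx]; push_cast; ring
    rw [harg, Real.log_mul (by positivity) (by positivity), Real.log_pow]
    push_cast
    calc Real.log k + 3 * Real.log x ≤ Real.log k * Real.log x + 3 * Real.log x := by nlinarith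
      _ = (3 + Real.log k) * Real.log x := by ring
      _ ≤ B * Real.log x := mul_le_mul_of_nonneg_right hB (by linarith)

theorem log_combine (A : ℕ) (hA : 1 ≤ A) : ∃ B : ℕ, 1 ≤ B ∧ ∀ R N d D : ℕ, 1 ≤ R → 1 ≤ N →
    1 ≤ d → d ≤ D → (R : ℝ) ≤ (A * Real.log (3 * D)) ^ A →
    Real.log (3 * (R * N : ℕ) * d) ≤ B * Real.log (3 * N * D) := by
  refine ⟨A ^ 2 + 1, by omega, fun R N d D hR hN hd hdD hle => ?_⟩
  have hAr : (1 : ℝ) ≤ A := by exact_mod_cast hA
  have hRr : (1 : ℝ) ≤ R := by exact_mod_cast hR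
  have hNr : (1 : ℝ) ≤ N := by exact_mod_cast hN
  have hdr : (1 : ℝ) ≤ d := by exact_mod_cast hd
  have hdDr : (d : ℝ) ≤ D := by exact_mod_cast hdD
  have hDr : (1 : ℝ) ≤ D := by linarith
  have hlog3 : (1 : ℝ) ≤ Real.log 3 := by
    rw [Real.le_log_iff_exp_le (by norm_num)]
    have := Real.exp_one_lt_d9
    linarith
  have hL1 : 1 ≤ Real.log (3 * D) :=
    le_trans hlog3 (Real.log_le_log (by norm_num) (by linarith))
  have hLN : Real.log (3 * D) ≤ Real.log (3 * N * D) :=
    Real.log_le_log (by positivity) (by nlinarith)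
  have h1 : Real.log (3 * (R * N : ℕ) * d) = Real.log R + Real.log (3 * N * d) := by
    rw [← Real.log_mul (by positivity) (by positivity)]
    congr 1
    push_cast
    ring
  have h2 : Real.log (3 * N * d) ≤ Real.log (3 * N * D) :=
    Real.log_le_log (by positivity) (by gcongr)
  have h3 : Real.log R ≤ A * (A * Real.log (3 * D)) := by
    calc Real.log R ≤ Real.log ((A * Real.log (3 * D)) ^ A) :=
          Real.log_le_log (by linarith) hle
      _ = A * Real.log (A * Real.log (3 * D)) := by rw [Real.log_pow]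
      _ ≤ A * (A * Real.log (3 * D)) := by
          have := Real.log_le_self (x := A * Real.log (3 * D)) (by positivity)
          gcongr
  rw [h1]
  push_cast
  calc Real.log R + Real.log (3 * N * d) ≤ A * (A * Real.log (3 * D)) + Real.log (3 * N * D) :=
        add_le_add h3 h2
    _ ≤ A * (A * Real.log (3 * N * D)) + Real.log (3 * N * D) := by gcongr
    _ = (A ^ 2 + 1) * Real.log (3 * N * D) := by ring

end Pool.Agent.H72.PB
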