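import Pool.Agent.H72.PB.BaseDeg
import Pool.Agent.H72.PB.QChoice
import Pool.Agent.H72.RM.BaseB
import Pool.Agent.H72.PB.HNonneg
import Pool.Agent.H72.PB.HTwist

/-!
# Module DirFin: Theorem A for all translates by radicals of `b`

`bb = fun _ : Fin 1 => b`. `c₀, A₀` from `base_deg`; `B` from `q_choice` with `H = absLogHeight₁ (algebraMap b)`,
`c = c₀`. `d = dg (RF Ω bb 1 R) y`, `Q` from `q_choice`. `γ ∈ DivG`: `γ^N = b^m`, `N ≥ 1`. Dirichlet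
(`Real.exists_int_int_abs_mul_sub_le (m/N) Q`): `ν ∈ [1, Q]`, `l : ℤ` with `|ν m/N - l| ≤ 1/(Q+1)`.
Choose `g : Ω` with `g^ν = b` (algebraically closed), `γ'' = g^l`, so `γ''^ν = b^l`, `g^ν = b`. `g` is a generator
of... : choose `g₁` with `g₁^(R) = g`; `g₁^(R ν) = b`, so `g₁ ∈ RF Ω bb 1 (R ν)` and `γ'' ∈ RF Ω bb 1 (R ν)`.
`RF Ω bb 1 R ≤ RF Ω bb 1 (R ν)` (`rf_mono`). `α'' = γ'' y`:
* `dg (RF Ω bb 1 (R ν)) α'' = dg (RF Ω bb 1 (R ν)) y ≤ d` (`dg_smul`, `dg_mono`).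
* `α'' ∉ DivG`, since `γ y ∉ DivG` and `γ, γ''⁻¹.. ∈ DivG` (`div_mul`, `γ y = (γ γ''⁻¹) α''`).
* `γ''/γ`: `(γ''/γ)^(ν N) = b^(l N - m ν)`, so `absLogHeight₁ (γ''/γ) = |l N - m ν| H / (ν N) ≤ H / (ν (Q+1)) ≤ H/Q`
  (`absLogHeight_zpow`, file `H72/RM/BaseB.lean`; `absLogHeight_pow`, file `H4/RR/AbsHeight.lean`), so
  `absLogHeight₁ α'' ≤ absLogHeight₁ (γ y) + H/Q` (`absLogHeight_mul_le`).
`base_deg` with `N = R ν`, `d'' = dg (..) α'' ≤ d`, `ν ≤ Q`, `Lg = log (3 R Q d)`: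
`c₀ ≤ d (h + H/Q) Lg^A₀ ≤ d h Lg^A₀ + c₀/2`, so `c₀/2 ≤ d h Lg^A₀ ≤ d h B^A₀ (log (3 R d))^A₀`:
`c = c₀ / (2 B^A₀)`, `A = A₀`.
-/

set_option autoImplicit false
set_option linter.unusedSectionVars false

open NumberField IntermediateField

namespace Pool.Agent.H72.PB

open Pool.Agent.H72.RM

variable {K Ω : Type} [Field K] [NumberField K] [Field Ω] [CharZero Ω] [IsAlgClosed Ω]
  [Algebra K Ω] [IsGalois K Ω]

theorem dir_fin (b : K) (hb : b ≠ 0) (hb' : ∀ n : ℕ, 1 ≤ n → b ^ n ≠ 1) :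
    ∃ (c : ℝ) (A : ℕ), 0 < c ∧ ∀ R : ℕ, 1 ≤ R → ∀ γ y : Ω,
      γ ∈ DivG Ω (fun _ : Fin 1 => b) → y ≠ 0 → γ * y ∉ DivG Ω (fun _ : Fin 1 => b) →
      c ≤ (dg (RF Ω (fun _ : Fin 1 => b) 1 R) y : ℝ) * absLogHeight₁ (γ * y) *
        (Real.log (3 * R * dg (RF Ω (fun _ : Fin 1 => b) 1 R) y)) ^ A := by
  classical
  obtain ⟨c₀, A₀, hc₀, hbase⟩ := base_deg (Ω := Ω) b hb hb'
  obtain ⟨β, hβ⟩ : ∃ β : Ω, β = algebraMap K Ω b := ⟨_, rfl⟩
  have hβ0 : β ≠ 0 := by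
    rw [hβ, Ne, map_eq_zero]
    exact hb
  obtain ⟨H, hH⟩ : ∃ H, H = absLogHeight₁ β := ⟨_, rfl⟩
  have hH0 : 0 ≤ H := by rw [hH]; exact ht_nonneg β
  obtain ⟨B, hB1, hB⟩ := q_choice H c₀ hH0 hc₀ A₀
  have hBr : (1 : ℝ) ≤ B := by exact_mod_cast hB1
  have hBA : (0 : ℝ) < 2 * (B : ℝ) ^ A₀ := by positivity
  refine ⟨c₀ / (2 * (B : ℝ) ^ A₀), A₀, by positivity, ?_⟩
  intro R hR γ y hγ hy0 hnot
  obtain ⟨bb, hbb⟩ : ∃ bb : Fin 1 → K, bb = fun _ => b := ⟨_, rfl⟩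
  rw [← hbb] at hγ hnot ⊢
  rw [← hbb] at hbase
  have hint : ∀ x : Ω, IsIntegral ℚ x := fun x => int_all K x
  obtain ⟨d, hd⟩ : ∃ d, d = dg (RF Ω bb 1 R) y := ⟨_, rfl⟩
  rw [← hd]
  have hd1 : 1 ≤ d := by rw [hd]; exact dg_pos _ _
  obtain ⟨Q, hQ1, hQ2, hQ3⟩ := hB R d hR hd1
  have hQr : (1 : ℝ) ≤ Q := by exact_mod_cast hQ1
  have hγd := hγ
  obtain ⟨N, hN, m, hm⟩ := hγ
  have hprod1 : ∀ e : Fin 1 → ℤ, ∏ i, (algebraMap K Ω (bb i)) ^ (e i) = β ^ (e 0) := by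
    intro e
    rw [Fin.prod_univ_one, hbb, hβ]
  rw [hprod1] at hm
  have hγ0 : γ ≠ 0 := by
    rintro rfl
    rw [zero_pow (by omega)] at hm
    exact zpow_ne_zero _ hβ0 hm.symm
  have hNr : (0 : ℝ) < N := by exact_mod_cast hN
  obtain ⟨l, ν, hν0, hνQ, hdir⟩ := Real.exists_int_int_abs_mul_sub_le ((m 0 : ℝ) / N) (n := Q)
    (by omega)
  obtain ⟨v, hv⟩ : ∃ v : ℕ, (v : ℤ) = ν := ⟨ν.toNat, by omega⟩
  rw [← hv] at hν0 hνQ hdir
  have hv1 : 1 ≤ v := by omega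
  have hvQ : v ≤ Q := by omega
  have hvr : (0 : ℝ) < v := by exact_mod_cast hv1
  -- the new radical
  obtain ⟨g₁, hg₁⟩ : ∃ g₁ : Ω, g₁ ^ (R * v) = β :=
    IsAlgClosed.exists_pow_nat_eq _ (Nat.mul_pos hR hv1)
  obtain ⟨g, hg⟩ : ∃ g : Ω, g = (g₁ ^ R) ^ l := ⟨_, rfl⟩
  have hg₁0 : g₁ ≠ 0 := by
    rintro rfl
    rw [zero_pow (Nat.mul_pos hR hv1).ne'] at hg₁
    exact hβ0 hg₁.symm
  have hgv : g ^ v = β ^ l := by
    rw [hg, ← hg₁, pow_mul, ← zpow_natCast ((g₁ ^ R) ^ l) v, ← zpow_mul, mul_comm l (v : ℤ),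
      zpow_mul, zpow_natCast]
  have hg0 : g ≠ 0 := by
    rw [hg]
    exact zpow_ne_zero _ (pow_ne_zero _ hg₁0)
  have hRv : 1 ≤ R * v := Nat.mul_pos hR hv1
  have hgF : g ∈ RF Ω bb 1 (R * v) := by
    rw [hg]
    refine zpow_mem (pow_mem ?_ R) l
    refine IntermediateField.subset_adjoin K _ (Or.inr (Or.inr ⟨0, ?_⟩))
    rw [hg₁, hβ, hbb]
  have hle : RF Ω bb 1 R ≤ RF Ω bb 1 (R * v) :=
    rf_mono bb 1 R 1 (R * v) dvd_rfl (dvd_mul_right _ _) le_rfl hRv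
  have hdg : dg (RF Ω bb 1 (R * v)) (g * y) ≤ d := by
    rw [dg_smul hgF hg0 y, hd]
    exact dg_mono hle y
  -- `g y` is not in the division group
  have hgdiv : γ * g⁻¹ ∈ DivG Ω bb := by
    refine ⟨N * v, Nat.mul_pos hN hv1, fun _ => m 0 * v - l * N, ?_⟩
    rw [hprod1, mul_pow, pow_mul, hm, inv_pow, mul_comm N v, pow_mul, hgv, zpow_sub₀ hβ0,
      div_eq_mul_inv, ← zpow_natCast (β ^ m 0), ← zpow_mul, ← zpow_natCast (β ^ l), ← zpow_mul]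
  have hnot2 : g * y ∉ DivG Ω bb := by
    intro h
    apply hnot
    have h1 := div_mul hgdiv h
    have h2 : γ * g⁻¹ * (g * y) = γ * y := by field_simp
    rw [h2] at h1
    exact h1
  -- heights
  have hw : (g * γ⁻¹) ^ (v * N) = β ^ (l * N - m 0 * v) := by
    rw [mul_pow, pow_mul, hgv, inv_pow, mul_comm v N, pow_mul, hm, zpow_sub₀ hβ0,
      div_eq_mul_inv, ← zpow_natCast (β ^ l), ← zpow_mul, ← zpow_natCast (β ^ m 0), ← zpow_mul]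
  have hhw : absLogHeight₁ (g * γ⁻¹) ≤ H / Q := by
    have h1 := Pool.Agent.H4.RR.absLogHeight_pow Ω (g * γ⁻¹) (hint _) (v * N)
    rw [hw, absLogHeight_zpow, ← hH] at h1
    have h2 : |((l * N - m 0 * v : ℤ) : ℝ)| ≤ N / (Q + 1) := by
      have h3 : ((l * N - m 0 * v : ℤ) : ℝ) = -(N * ((m 0 : ℝ) / N * v - l)) := by
        push_cast
        field_simp
        ring
      rw [h3, abs_neg, abs_mul, abs_of_pos hNr]
      have h4 : |(m 0 : ℝ) / N * v - l| ≤ 1 / (Q + 1) := by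
        have h5 := hdir
        push_cast at h5
        rw [mul_comm] at h5
        exact h5
      calc (N : ℝ) * |(m 0 : ℝ) / N * v - l| ≤ N * (1 / (Q + 1)) :=
            mul_le_mul_of_nonneg_left h4 hNr.le
        _ = N / (Q + 1) := by ring
    have h6 : ((v * N : ℕ) : ℝ) * absLogHeight₁ (g * γ⁻¹) ≤ N / (Q + 1) * H := by
      rw [← h1]
      exact mul_le_mul_of_nonneg_right h2 hH0
    push_cast at h6
    have h7 : absLogHeight₁ (g * γ⁻¹) * Q ≤ H := by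
      have h8 : (0 : ℝ) ≤ absLogHeight₁ (g * γ⁻¹) := ht_nonneg _
      have h9 : (v : ℝ) * absLogHeight₁ (g * γ⁻¹) * (Q + 1) ≤ H := by
        have h10 : (N : ℝ) * ((v : ℝ) * absLogHeight₁ (g * γ⁻¹) * (Q + 1)) ≤ N * H := by
          have h11 : (N : ℝ) / (Q + 1) * H * (Q + 1) = N * H := by
            field_simp
          calc (N : ℝ) * ((v : ℝ) * absLogHeight₁ (g * γ⁻¹) * (Q + 1)) =
                (v * N * absLogHeight₁ (g * γ⁻¹)) * (Q + 1) := by ring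
            _ ≤ (N / (Q + 1) * H) * (Q + 1) := mul_le_mul_of_nonneg_right h6 (by positivity)
            _ = N * H := h11
        exact le_of_mul_le_mul_left h10 hNr
      have hv1r : (1 : ℝ) ≤ v := by exact_mod_cast hv1
      calc absLogHeight₁ (g * γ⁻¹) * Q ≤ absLogHeight₁ (g * γ⁻¹) * (Q + 1) :=
            mul_le_mul_of_nonneg_left (by linarith) h8
        _ = 1 * absLogHeight₁ (g * γ⁻¹) * (Q + 1) := by ring
        _ ≤ v * absLogHeight₁ (g * γ⁻¹) * (Q + 1) :=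
            mul_le_mul_of_nonneg_right (mul_le_mul_of_nonneg_right hv1r h8) (by positivity)
        _ ≤ H := h9
    rw [le_div_iff₀ (by linarith)]
    exact h7
  have hha : absLogHeight₁ (g * y) ≤ absLogHeight₁ (γ * y) + H / Q := by
    have h1 : g * y = (γ * y) * (g * γ⁻¹) := by field_simp
    rw [h1]
    refine (Pool.Agent.H4.RR.absLogHeight_mul_le Ω _ _ (hint _) (hint _)).trans ?_
    linarith
  -- conclusion
  have hb1 := hbase (R * v) hRv (g * y) (mul_ne_zero hg0 hy0) hnot2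
  obtain ⟨d', hd'⟩ : ∃ d', d' = dg (RF Ω bb 1 (R * v)) (g * y) := ⟨_, rfl⟩
  rw [← hd'] at hb1 hdg
  have hd'1 : 1 ≤ d' := by rw [hd']; exact dg_pos _ _
  have hd'r : (1 : ℝ) ≤ d' := by exact_mod_cast hd'1
  have hd'd : (d' : ℝ) ≤ d := by exact_mod_cast hdg
  have hRr : (1 : ℝ) ≤ R := by exact_mod_cast hR
  have hvQr : (v : ℝ) ≤ Q := by exact_mod_cast hvQ
  have hv1r : (1 : ℝ) ≤ v := by exact_mod_cast hv1
  obtain ⟨Lg, hLg⟩ : ∃ Lg, Lg = Real.log (3 * R * Q * d) := ⟨_, rfl⟩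
  have hlog0 : 0 ≤ Real.log (3 * ((R * v : ℕ) : ℝ) * d') := by
    apply Real.log_nonneg
    push_cast
    have h1 : (1 : ℝ) ≤ R * v := by nlinarith
    nlinarith
  have hlogle : Real.log (3 * ((R * v : ℕ) : ℝ) * d') ≤ Lg := by
    rw [hLg]
    apply Real.log_le_log
    · push_cast
      positivity
    · push_cast
      have h1 : (R : ℝ) * v ≤ R * Q := mul_le_mul_of_nonneg_left hvQr (by linarith)
      calc 3 * ((R : ℝ) * v) * d' ≤ 3 * (R * Q) * d :=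
            mul_le_mul (by linarith) hd'd (by linarith) (by positivity)
        _ = 3 * R * Q * d := by ring
  have hLg0 : 0 ≤ Lg := hlog0.trans hlogle
  have hHQ : 0 ≤ H / Q := by positivity
  have hh0 : 0 ≤ absLogHeight₁ (γ * y) := ht_nonneg _
  have hh1 : 0 ≤ absLogHeight₁ (g * y) := ht_nonneg _
  have hstep : c₀ ≤ (d : ℝ) * (absLogHeight₁ (γ * y) + H / Q) * Lg ^ A₀ := by
    refine hb1.trans ?_
    apply mul_le_mul _ (pow_le_pow_left₀ hlog0 hlogle A₀) (pow_nonneg hlog0 _) (by positivity)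
    exact mul_le_mul hd'd hha hh1 (by positivity)
  rw [← hLg] at hQ2 hQ3
  have hhalf : (d : ℝ) * (H / Q) * Lg ^ A₀ ≤ c₀ / 2 := by
    have h1 : (d : ℝ) * (H / Q) * Lg ^ A₀ = ((d : ℝ) * H * Lg ^ A₀) / Q := by ring
    rw [h1, div_le_iff₀ (by linarith)]
    exact hQ2
  have hstep2 : c₀ / 2 ≤ (d : ℝ) * absLogHeight₁ (γ * y) * Lg ^ A₀ := by
    have h1 : (d : ℝ) * (absLogHeight₁ (γ * y) + H / Q) * Lg ^ A₀ =
        (d : ℝ) * absLogHeight₁ (γ * y) * Lg ^ A₀ + (d : ℝ) * (H / Q) * Lg ^ A₀ := by ring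
    rw [h1] at hstep
    linarith
  have hpow : Lg ^ A₀ ≤ (B : ℝ) ^ A₀ * (Real.log (3 * R * d)) ^ A₀ := by
    rw [← mul_pow]
    exact pow_le_pow_left₀ hLg0 hQ3 A₀
  rw [div_le_iff₀ hBA]
  have hdh : 0 ≤ (d : ℝ) * absLogHeight₁ (γ * y) := by positivity
  have h1 := mul_le_mul_of_nonneg_left hpow hdh
  calc c₀ = 2 * (c₀ / 2) := by ring
    _ ≤ 2 * ((d : ℝ) * absLogHeight₁ (γ * y) * ((B : ℝ) ^ A₀ * (Real.log (3 * R * d)) ^ A₀)) := by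
        linarith
    _ = _ := by ring

end Pool.Agent.H72.PB
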