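import Pool.Agent.H72.RM.Sat
import Pool.Agent.H72.RM.Basis
import Pool.Agent.H72.RG.IndAll

/-!
# Module RankOne: a primitive element of the saturation of `<b₀>`

`Λ = Subgroup.zpowers b₀` (finitely generated), `Λ'` from `sat_fg`, `r`, `b` from `sat_basis`. `r = 1`:
if `r = 0` then `b₀ ∈ Λ'` has finite order. If `r ≥ 2`: `(b 0)^N = b₀^a`, `(b 1)^N' = b₀^a'`, `N, N' ≥ 1`
(elements of `Λ'`), so `(b 0)^(N a') (b 1)^(- N' a) = 1` and independence gives `N a' = 0`, `N' a = 0`,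
`a = a' = 0`, `(b 0)^N = 1`, a contradiction to independence. So `r = 1`, `b₁ = b 0`: `ind_all` (file
`H72/RG/IndAll.lean`) gives the first property; `b₁^i = b₀^j` with `i ≥ 1` (`b₁ ∈ Λ'`); `j ≠ 0` because `b₁` has
infinite order; replacing `(i, j)`: from `b₁^i = b₀^j`, `j ≠ 0`, get `b₀^|j| = b₁^(± i)`.
-/

set_option autoImplicit false

namespace Pool.Agent.H72.PB

open Pool.Agent.H72.RM Pool.Agent.H72.RG

theorem rko_single {G : Type} [CommGroup G] {r : ℕ} (b : Fin r → G) (i : Fin r) (n : ℤ) :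
    ∏ j, b j ^ ((Pi.single i n : Fin r → ℤ) j) = b i ^ n := by
  rw [Finset.prod_eq_single i]
  · rw [Pi.single_eq_same]
  · intro j _ hj
    rw [Pi.single_eq_of_ne hj, zpow_zero]
  · intro h
    exact absurd (Finset.mem_univ i) h

theorem rko_pair {G : Type} [CommGroup G] {r : ℕ} (b : Fin r → G) (i i' : Fin r) (n n' : ℤ) :
    ∏ j, b j ^ ((Pi.single i n + Pi.single i' n' : Fin r → ℤ) j) = b i ^ n * b i' ^ n' := by
  rw [← rko_single b i n, ← rko_single b i' n', ← Finset.prod_mul_distrib]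
  refine Finset.prod_congr rfl fun j _ => ?_
  rw [Pi.add_apply, zpow_add]

theorem rank_one {K : Type} [Field K] [NumberField K] (b₀ : K) (hb₀ : b₀ ≠ 0)
    (hb₀' : ∀ n : ℕ, 1 ≤ n → b₀ ^ n ≠ 1) :
    ∃ b₁ : K, b₁ ≠ 0 ∧
      (∀ N : ℕ, 1 ≤ N → ∀ (m : ℤ) (y : K), y ^ N = b₁ ^ m → (N : ℤ) ∣ m) ∧
      (∃ i : ℕ, 1 ≤ i ∧ ∃ j : ℤ, b₀ ^ i = b₁ ^ j) ∧
      (∃ i : ℕ, 1 ≤ i ∧ ∃ j : ℤ, b₁ ^ i = b₀ ^ j) := by
  obtain ⟨u₀, hu₀⟩ : ∃ u : Kˣ, (u : K) = b₀ := ⟨Units.mk0 b₀ hb₀, rfl⟩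
  have hfgΛ : (Subgroup.zpowers u₀).FG := ⟨{u₀}, by simp [Subgroup.zpowers_eq_closure]⟩
  obtain ⟨Λ', hfg, hΛ'⟩ := sat_fg K (Subgroup.zpowers u₀) hfgΛ
  obtain ⟨r, b, hb, hgen, hind⟩ := sat_basis Λ' hfg
  have hu₀' : ∀ n : ℕ, 1 ≤ n → u₀ ^ n ≠ 1 := by
    intro n hn h
    apply hb₀' n hn
    rw [← hu₀, ← Units.val_pow_eq_pow_val, h, Units.val_one]
  have hone : IsOfFinOrder (1 : Kˣ) := IsOfFinOrder.one
  -- powers of the basis elements
  have hpow : ∀ i, ∃ (N : ℕ) (a : ℤ), 1 ≤ N ∧ (b i) ^ N = u₀ ^ a := by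
    intro i
    obtain ⟨N, hN, h⟩ := (hΛ' (b i)).1 (hb i)
    obtain ⟨a, ha⟩ := Subgroup.mem_zpowers_iff.1 h
    exact ⟨N, a, hN, ha.symm⟩
  have hinf : ∀ i (N : ℕ), 1 ≤ N → (b i) ^ N ≠ 1 := by
    intro i N hN h
    have h1 := hind (Pi.single i (N : ℤ)) (by
      rw [rko_single, zpow_natCast, h]
      exact hone)
    have h2 := congrFun h1 i
    rw [Pi.single_eq_same, Pi.zero_apply] at h2
    omega
  have hr0 : r ≠ 0 := by
    rintro rfl
    obtain ⟨m, hm⟩ := hgen u₀ ((hΛ' u₀).2 ⟨1, le_rfl, by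
      rw [pow_one]
      exact Subgroup.mem_zpowers u₀⟩)
    rw [Finset.univ_eq_empty, Finset.prod_empty, inv_one, mul_one] at hm
    obtain ⟨n, hn, hn2⟩ := isOfFinOrder_iff_pow_eq_one.1 hm
    exact hu₀' n hn hn2
  have hr2 : r < 2 := by
    by_contra hr2
    rw [not_lt] at hr2
    have hne : (⟨0, by omega⟩ : Fin r) ≠ ⟨1, by omega⟩ := by
      intro h
      have := congrArg Fin.val h
      simp at this
    generalize (⟨0, by omega⟩ : Fin r) = i0 at hne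
    generalize (⟨1, by omega⟩ : Fin r) = i1 at hne
    obtain ⟨N, a, hN, h1⟩ := hpow i0
    obtain ⟨N', a', hN', h2⟩ := hpow i1
    have h3 := hind (Pi.single i0 ((N : ℤ) * a') + Pi.single i1 (-((N' : ℤ) * a))) (by
      rw [rko_pair, zpow_neg, zpow_mul, zpow_mul, zpow_natCast, zpow_natCast, h1, h2, ← zpow_mul,
        ← zpow_mul, mul_comm a' a, mul_inv_cancel]
      exact hone)
    have h4 := congrFun h3 i0
    rw [Pi.add_apply, Pi.single_eq_same, Pi.single_eq_of_ne hne, add_zero, Pi.zero_apply] at h4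
    have h5 : a' = 0 := by
      rcases mul_eq_zero.1 h4 with h | h
      · omega
      · exact h
    rw [h5, zpow_zero] at h2
    exact hinf i1 N' hN' h2
  obtain rfl : r = 1 := by omega
  obtain ⟨N, a, hN, h1⟩ := hpow 0
  have h1K : ((b 0 : Kˣ) : K) ^ N = b₀ ^ a := by
    rw [← hu₀, ← Units.val_pow_eq_pow_val, h1, Units.val_zpow_eq_zpow_val]
  have ha : a ≠ 0 := by
    rintro rfl
    rw [zpow_zero] at h1
    exact hinf 0 N hN h1
  refine ⟨(b 0 : Kˣ), (b 0).ne_zero, ?_, ?_, ⟨N, hN, a, h1K⟩⟩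
  · intro N hN m y h
    refine ind_all (Subgroup.zpowers u₀) Λ' hΛ' b hb hgen hind N hN (fun _ => m) y ?_ 0
    rw [Fin.prod_univ_one]
    exact h
  · rcases lt_or_gt_of_ne ha with h | h
    · refine ⟨(-a).toNat, by omega, -(N : ℤ), ?_⟩
      rw [zpow_neg, zpow_natCast, h1K, ← zpow_neg, ← zpow_natCast]
      congr 1
      omega
    · refine ⟨a.toNat, by omega, (N : ℤ), ?_⟩
      rw [zpow_natCast, h1K, ← zpow_natCast]
      congr 1
      omega

end Pool.Agent.H72.PB
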