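import Pool.Agent.H72.PB.FinalBO
import Pool.Agent.H72.PB.RankOne
import Pool.Agent.H72.PB.CoverB

/-!
# Module FinalB: Theorem B

`Λ ⊂ Ωˣ` finitely generated, `b₀ ∈ Λ` of infinite order, every `γ ∈ Λ` has a power in `<b₀>`; `exp_bound` (file
`H72/PL/TBase.lean`): `m ≥ 1` with `γ^m ∈ <b₀>` for all `γ ∈ Λ`. `K₀ = K(b₀) ⊂ Ω`, a number field, `Ω / K₀` Galois
(algebraic closure, characteristic zero). `rank_one` for `b₀ ∈ K₀`: `b₁ ∈ K₀`, `b₀^i = b₁^j`, `i ≥ 1`,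
`b₁^i' = b₀^j'`, `i' ≥ 1`. `final_bo` for `K₀`, `b₁`, `S`: `c, A`.
Given `N₁, Γ, α`: let `D = natDegree (minpoly (adjoin K Γ) α)`, `P` = image of this polynomial in `Ω[X]`: monic,
degree `D`, `P(α) = 0`. `N₁ m i = M₀ N₂`, `M₀` composed of primes of `S`, `N₂` prime to `S`. For `γ ∈ Γ`:
`γ^(N₁ M) ∈ Λ`, `γ^(N₁ M m i) ∈ <b₀^i> ⊂ <b₁>`, i.e. `γ^((M M₀) N₂) = b₁^k`: `cover_mem` gives `CovB b₁ S N₂ γ`.
Elements of `K ⊂ K₀`: in `RF` (base field), `CovB` with `M = 1`. `cover_adj` with `k = K`: all elements of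
`adjoin K Γ`, hence all coefficients of `P`, satisfy `CovB`. `cover_deg`: `M` with
`d = dg_{K₀} (RF Ω b₁ 1 (M N₂)) α ≤ D`. `α ∉ DivG Ω (fun _ => b₁)`: `α^n = b₁^k` would give
`α^(n i') = b₀^(j' k) ∈ Λ ≤ Γ`. `final_bo`: `c ≤ d h (log (3 N₂ d))^A ≤ D h (log (3 N₁ m i D))^A` and
`log (3 N₁ m i D) ≤ (1 + log (m i)) log (3 N₁ D)` (as `log (3 N₁ D) ≥ 1`).
-/

set_option autoImplicit false
set_option linter.unusedSectionVars false

open NumberField IntermediateField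

namespace Pool.Agent.H72.PB

open Pool.Agent.H72.RM Pool.Agent.H72.RG

theorem s_split (S : Finset ℕ) (hS : ∀ p ∈ S, p.Prime) (N : ℕ) (hN : 1 ≤ N) :
    ∃ M₀ N₂ : ℕ, N = M₀ * N₂ ∧ 1 ≤ M₀ ∧ 1 ≤ N₂ ∧ (∀ q : ℕ, q.Prime → q ∣ M₀ → q ∈ S) ∧
      ∀ q ∈ S, ¬ q ∣ N₂ := by
  classical
  induction S using Finset.induction_on with
  | empty =>
    exact ⟨1, N, (one_mul N).symm, le_rfl, hN,
      fun q hq hq1 => absurd (Nat.dvd_one.1 hq1) hq.one_lt.ne', fun q hq => absurd hq (Finset.notMem_empty q)⟩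
  | insert p T hp ih =>
    obtain ⟨M₀, N₂, h1, h2, h3, h4, h5⟩ := ih fun q hq => hS q (Finset.mem_insert_of_mem hq)
    have hpp := hS p (Finset.mem_insert_self p T)
    obtain ⟨k, N₃, hk1, hk2⟩ := Nat.exists_eq_pow_mul_and_not_dvd (n := N₂) (by omega) p hpp.ne_one
    have hN₃ : 1 ≤ N₃ := by
      rcases Nat.eq_zero_or_pos N₃ with h | h
      · rw [h, mul_zero] at hk2
        omega
      · exact h
    refine ⟨M₀ * p ^ k, N₃, by rw [h1, hk2, mul_assoc], Nat.mul_pos h2 (pow_pos hpp.pos k), hN₃, ?_, ?_⟩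
    · intro q hq hqd
      rcases (Nat.Prime.dvd_mul hq).1 hqd with h | h
      · exact Finset.mem_insert_of_mem (h4 q hq h)
      · rw [(Nat.prime_dvd_prime_iff_eq hq hpp).1 (hq.dvd_of_dvd_pow h)]
        exact Finset.mem_insert_self p T
    · intro q hq hqd
      rcases Finset.mem_insert.1 hq with h | h
      · rw [h] at hqd
        exact hk1 hqd
      · exact h5 q h (hk2 ▸ hqd.mul_left _)

theorem final_b {K : Type} [Field K] [NumberField K] {Ω : Type} [Field Ω] [CharZero Ω]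
    [Algebra K Ω] [IsAlgClosed Ω] [Algebra.IsAlgebraic K Ω] (Λ : Subgroup Ωˣ) (hΛ : Λ.FG)
    (b : Ωˣ) (hb : b ∈ Λ) (hb' : ∀ n : ℕ, 1 ≤ n → b ^ n ≠ 1)
    (hrk : ∀ γ ∈ Λ, ∃ m : ℕ, 1 ≤ m ∧ ∃ j : ℤ, γ ^ m = b ^ j) (S : Finset ℕ)
    (hS : ∀ p ∈ S, p.Prime) :
    ∃ (c : ℝ) (A : ℕ), 0 < c ∧ ∀ N₁ : ℕ, 1 ≤ N₁ → ∀ Γ : Subgroup Ωˣ, Λ ≤ Γ →
      (∀ γ ∈ Γ, ∃ M : ℕ, 1 ≤ M ∧ (∀ q : ℕ, q.Prime → q ∣ M → q ∈ S) ∧ γ ^ (N₁ * M) ∈ Λ) →
      ∀ α : Ωˣ, (∀ n : ℕ, 1 ≤ n → α ^ n ∉ Γ) →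
      c ≤ (minpoly (IntermediateField.adjoin K {y : Ω | ∃ γ ∈ Γ, y = (γ : Ω)})
            (α : Ω)).natDegree * absLogHeight₁ (α : Ω) *
          (Real.log (3 * N₁ * (minpoly (IntermediateField.adjoin K
            {y : Ω | ∃ γ ∈ Γ, y = (γ : Ω)}) (α : Ω)).natDegree)) ^ A := by
  classical
  obtain ⟨m, hm1, hmj⟩ := Pool.Agent.H72.PL.exp_bound Λ hΛ b hrk
  have hclosure : IsAlgClosure K Ω := ⟨inferInstance, inferInstance⟩
  have hnormal : Normal K Ω := IsAlgClosure.normal K Ω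
  have hGalK : IsGalois K Ω := ⟨⟩
  obtain ⟨K₀, hK₀⟩ : ∃ K₀ : IntermediateField K Ω,
    K₀ = IntermediateField.adjoin K {(b : Ω)} := ⟨_, rfl⟩
  have hbint : IsIntegral K (b : Ω) := (Algebra.IsAlgebraic.isAlgebraic (R := K) (b : Ω)).isIntegral
  have hfin : FiniteDimensional K K₀ := by
    rw [hK₀]
    exact IntermediateField.adjoin.finiteDimensional hbint
  have hNF : NumberField K₀ := NumberField.of_module_finite K K₀
  have hbK₀ : (b : Ω) ∈ K₀ := by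
    rw [hK₀]
    exact IntermediateField.mem_adjoin_simple_self K (b : Ω)
  obtain ⟨b₀, hb₀⟩ : ∃ b₀ : K₀, algebraMap K₀ Ω b₀ = (b : Ω) := ⟨⟨b, hbK₀⟩, rfl⟩
  have hinj : Function.Injective (algebraMap K₀ Ω) := (algebraMap K₀ Ω).injective
  have hb₀0 : b₀ ≠ 0 := by
    intro h
    rw [h, map_zero] at hb₀
    exact b.ne_zero hb₀.symm
  have hb₀' : ∀ n : ℕ, 1 ≤ n → b₀ ^ n ≠ 1 := by
    intro n hn h
    apply hb' n hn
    apply Units.ext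
    rw [Units.val_pow_eq_pow_val, ← hb₀, ← map_pow, h, map_one, Units.val_one]
  obtain ⟨b₁, hb₁0, hind, ⟨i, hi, j, hij⟩, ⟨i', hi', j', hij'⟩⟩ := rank_one b₀ hb₀0 hb₀'
  obtain ⟨c, A, hc, hfinal⟩ := final_bo (Ω := Ω) b₁ hb₁0 hind S hS
  obtain ⟨B, hB⟩ : ∃ B : ℝ, B = 1 + Real.log (m * i : ℕ) := ⟨_, rfl⟩
  have hmi : 1 ≤ m * i := Nat.mul_pos hm1 hi
  have hmir : (1 : ℝ) ≤ ((m * i : ℕ) : ℝ) := by exact_mod_cast hmi
  have hB1 : 1 ≤ B := by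
    rw [hB]
    linarith [Real.log_nonneg hmir]
  refine ⟨c / B ^ A, A, by positivity, ?_⟩
  intro N₁ hN₁ Γ hΛΓ hΓ α hα
  obtain ⟨F, hF⟩ : ∃ F : IntermediateField K Ω,
    F = IntermediateField.adjoin K {y : Ω | ∃ γ ∈ Γ, y = (γ : Ω)} := ⟨_, rfl⟩
  rw [← hF]
  obtain ⟨D, hD⟩ : ∃ D, D = (minpoly F (α : Ω)).natDegree := ⟨_, rfl⟩
  rw [← hD]
  have hαint : IsIntegral F (α : Ω) := by
    have h1 : IsIntegral K (α : Ω) := (Algebra.IsAlgebraic.isAlgebraic (R := K) (α : Ω)).isIntegral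
    exact h1.tower_top
  have hD1 : 1 ≤ D := by
    rw [hD]
    exact minpoly.natDegree_pos hαint
  obtain ⟨M₀, N₂, hsplit, hM₀, hN₂, hM₀S, hN₂S⟩ := s_split S hS (N₁ * (m * i))
    (Nat.mul_pos hN₁ hmi)
  have hKcov : ∀ x : K, CovB b₁ S N₂ (algebraMap K Ω x) := by
    intro x
    refine ⟨1, le_rfl, fun q hq hq1 => absurd (Nat.dvd_one.1 hq1) hq.one_lt.ne', ?_⟩
    rw [IsScalarTower.algebraMap_apply K K₀ Ω x]
    exact IntermediateField.algebraMap_mem _ _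
  have hTcov : ∀ t ∈ {y : Ω | ∃ γ ∈ Γ, y = (γ : Ω)}, CovB b₁ S N₂ t := by
    rintro t ⟨γ, hγ, rfl⟩
    obtain ⟨M, hM, hMS, hγM⟩ := hΓ γ hγ
    obtain ⟨j₁, hj₁⟩ := hmj _ hγM
    have h1 : (γ : Ω) ^ (M * M₀ * N₂) = (algebraMap K₀ Ω b₁) ^ (j * j₁) := by
      have h2 : M * M₀ * N₂ = (N₁ * M) * m * i := by
        rw [mul_assoc, ← hsplit]
        ring
      have h3 : (γ : Ω) ^ ((N₁ * M) * m) = (b : Ω) ^ j₁ := by
        have h4 := congrArg (fun z : Ωˣ => (z : Ω)) hj₁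
        simp only [Units.val_pow_eq_pow_val, Units.val_zpow_eq_zpow_val] at h4
        rw [pow_mul]
        exact h4
      rw [h2, pow_mul, h3, ← hb₀, ← zpow_natCast ((algebraMap K₀ Ω b₀) ^ j₁), ← zpow_mul, mul_comm j₁,
        zpow_mul, zpow_natCast, ← map_pow, hij, map_zpow₀, ← zpow_mul]
    exact cover_mem b₁ hb₁0 S N₂ hN₂ (γ : Ω) γ.ne_zero (M * M₀) (Nat.mul_pos hM hM₀)
      (fun q hq hqd => by
        rcases (Nat.Prime.dvd_mul hq).1 hqd with h | h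
        · exact hMS q hq h
        · exact hM₀S q hq h) (j * j₁) h1
  have hFcov : ∀ a ∈ F, CovB b₁ S N₂ a := by
    intro a ha
    rw [hF] at ha
    exact cover_adj b₁ S N₂ hN₂ hKcov _ hTcov a ha
  obtain ⟨P, hP⟩ : ∃ P : Polynomial Ω, P = (minpoly F (α : Ω)).map (algebraMap F Ω) := ⟨_, rfl⟩
  have hPmonic : P.Monic := by
    rw [hP]
    exact (minpoly.monic hαint).map _
  have hPdeg : P.natDegree = D := by
    rw [hP, Polynomial.natDegree_map, hD]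
  have hPeval : P.eval (α : Ω) = 0 := by
    rw [hP, Polynomial.eval_map_algebraMap]
    exact minpoly.aeval F (α : Ω)
  have hPcoeff : ∀ n, CovB b₁ S N₂ (P.coeff n) := by
    intro n
    rw [hP, Polynomial.coeff_map]
    exact hFcov _ ((minpoly F (α : Ω)).coeff n).2
  obtain ⟨M, hM, hMS, hMd⟩ := cover_deg b₁ S N₂ hN₂ P hPmonic.ne_zero hPcoeff (α : Ω) hPeval
  rw [hPdeg] at hMd
  have hnot : (α : Ω) ∉ DivG Ω (fun _ : Fin 1 => b₁) := by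
    rintro ⟨n, hn, e, he⟩
    apply hα (n * i') (Nat.mul_pos hn hi')
    have h1 : α ^ (n * i') = b ^ (j' * e 0) := by
      apply Units.ext
      rw [Units.val_pow_eq_pow_val, Units.val_zpow_eq_zpow_val, pow_mul, he, Fin.prod_univ_one,
        ← hb₀, ← zpow_natCast ((algebraMap K₀ Ω b₁) ^ e 0), ← zpow_mul, mul_comm (e 0), zpow_mul,
        zpow_natCast, ← map_pow, hij', map_zpow₀, ← zpow_mul]
    rw [h1]
    exact hΛΓ (Subgroup.zpow_mem _ hb _)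
  have h1 := hfinal N₂ hN₂ hN₂S M hM hMS (α : Ω) α.ne_zero hnot
  obtain ⟨d, hd⟩ : ∃ d, d = dg (RF Ω (fun _ : Fin 1 => b₁) 1 (M * N₂)) (α : Ω) := ⟨_, rfl⟩
  rw [← hd] at h1 hMd
  have hd1 : 1 ≤ d := by rw [hd]; exact dg_pos _ _
  have hd1r : (1 : ℝ) ≤ d := by exact_mod_cast hd1
  have hdD : (d : ℝ) ≤ D := by exact_mod_cast hMd
  have hDr : (1 : ℝ) ≤ D := by exact_mod_cast hD1
  have hN₂r : (1 : ℝ) ≤ N₂ := by exact_mod_cast hN₂
  have hN₁r : (1 : ℝ) ≤ N₁ := by exact_mod_cast hN₁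
  have hN₂le : (N₂ : ℝ) ≤ N₁ * ((m * i : ℕ) : ℝ) := by
    have h2 : N₂ ≤ N₁ * (m * i) := by
      rw [hsplit]
      exact Nat.le_mul_of_pos_left _ hM₀
    exact_mod_cast h2
  have hh0 : 0 ≤ absLogHeight₁ (α : Ω) := ht_nonneg _
  have hlog0 : 0 ≤ Real.log (3 * N₂ * d) := by
    apply Real.log_nonneg
    nlinarith
  obtain ⟨L, hL⟩ : ∃ L, L = Real.log (3 * N₁ * D) := ⟨_, rfl⟩
  have hL1 : 1 ≤ L := by
    rw [hL]
    have h3 : Real.exp 1 ≤ 3 * N₁ * D := by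
      have h4 := Real.exp_one_lt_d9
      nlinarith
    have h4 := Real.log_le_log (Real.exp_pos 1) h3
    rwa [Real.log_exp] at h4
  have hlogle : Real.log (3 * N₂ * d) ≤ B * L := by
    have h3 : Real.log (3 * N₂ * d) ≤ Real.log ((3 * N₁ * D) * ((m * i : ℕ) : ℝ)) := by
      apply Real.log_le_log (by positivity)
      calc 3 * (N₂ : ℝ) * d ≤ 3 * (N₁ * ((m * i : ℕ) : ℝ)) * D :=
            mul_le_mul (by linarith) hdD (by linarith) (by positivity)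
        _ = _ := by ring
    have h5 : Real.log ((3 * N₁ * D) * ((m * i : ℕ) : ℝ)) = L + Real.log ((m * i : ℕ) : ℝ) := by
      rw [hL]
      exact Real.log_mul (by positivity) (by positivity)
    rw [h5] at h3
    have h4 : 0 ≤ Real.log ((m * i : ℕ) : ℝ) := Real.log_nonneg hmir
    rw [hB]
    nlinarith
  rw [← hL, div_le_iff₀ (by positivity)]
  calc c ≤ (d : ℝ) * absLogHeight₁ (α : Ω) * (Real.log (3 * N₂ * d)) ^ A := h1
    _ ≤ D * absLogHeight₁ (α : Ω) * (B * L) ^ A :=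
        mul_le_mul (mul_le_mul_of_nonneg_right hdD hh0) (pow_le_pow_left₀ hlog0 hlogle A)
          (pow_nonneg hlog0 _) (by positivity)
    _ = D * absLogHeight₁ (α : Ω) * L ^ A * B ^ A := by rw [mul_pow]; ring

end Pool.Agent.H72.PB
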