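import Pool.Agent.H72.PB.STower2
import Pool.Agent.H72.PB.DirFin
import Pool.Agent.H72.PB.GlobX

/-!
# Module FinalBO: Theorem B over a field containing a primitive `b`

`bb = fun _ : Fin 1 => b`. `hbt`: `b^n ≠ 1` for `n ≥ 1` (otherwise `1^(n+1) = b^n` and `hind` gives
`(n+1) ∣ n`). `sx_of` for every `p ∈ S` (`∏ i : Fin 1` is one factor), `A₁` from `s_tower2`, `c₀, A₀` from
`dir_fin`, `B` from `log_combine` (with `A := A₁`). `c = min (c₀ / B^A₀) (1 / A₁^A₁)`, `A = A₀ + A₁`.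
Given `N₁, M, α`: `D = dg (RF Ω bb 1 (M N₁)) α ≥ 1` (`dg_pos`), `h = absLogHeight₁ α ≥ 0`, `L = log (3 N₁ D) ≥ log (3 D) ≥ 1`.
If `(A₁ log (3 D))^A₁ (D h) > 1`: `D h L^A ≥ D h L^A₁ ≥ 1/A₁^A₁ ≥ c`. Otherwise `s_tower2` with `Dm = D`,
`γ = 1`, `y = α`: `R, E, γ', y'`, `α^E = γ' y'`, `E d ≤ D`, `d = dg (RF Ω bb 1 (R N₁)) y' ≥ 1`. `γ' y' = α^E ∉ DivG`
(else `α ∈ DivG`); `γ' ∈ DivG` (`gam_div`). `dir_fin` with `R := R N₁`:
`c₀ ≤ d h(α^E) (log (3 R N₁ d))^A₀ = d E h (..)^A₀ ≤ D h (B L)^A₀` (`absLogHeight_pow`, `log_combine`, `d ≤ D`).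
-/

set_option autoImplicit false
set_option linter.unusedSectionVars false

open NumberField IntermediateField

namespace Pool.Agent.H72.PB

open Pool.Agent.H72.RM Pool.Agent.H72.RG

variable {K Ω : Type} [Field K] [NumberField K] [Field Ω] [CharZero Ω] [IsAlgClosed Ω]
  [Algebra K Ω] [IsGalois K Ω]

theorem final_bo (b : K) (hb : b ≠ 0)
    (hind : ∀ N : ℕ, 1 ≤ N → ∀ (m : ℤ) (y : K), y ^ N = b ^ m → (N : ℤ) ∣ m) (S : Finset ℕ)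
    (hS : ∀ p ∈ S, p.Prime) :
    ∃ (c : ℝ) (A : ℕ), 0 < c ∧ ∀ N₁ : ℕ, 1 ≤ N₁ → (∀ q ∈ S, ¬ q ∣ N₁) → ∀ M : ℕ, 1 ≤ M →
      (∀ q : ℕ, q.Prime → q ∣ M → q ∈ S) → ∀ α : Ω, α ≠ 0 →
      α ∉ DivG Ω (fun _ : Fin 1 => b) →
      c ≤ (dg (RF Ω (fun _ : Fin 1 => b) 1 (M * N₁)) α : ℝ) * absLogHeight₁ α *
        (Real.log (3 * N₁ * dg (RF Ω (fun _ : Fin 1 => b) 1 (M * N₁)) α)) ^ A := by
  classical
  have hb' : ∀ n : ℕ, 1 ≤ n → b ^ n ≠ 1 := by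
    intro n hn h
    have h1 := hind (n + 1) (by omega) n 1 (by rw [one_pow, zpow_natCast, h])
    have h2 : n + 1 ∣ n := by exact_mod_cast h1
    have h3 := Nat.le_of_dvd (by omega) h2
    omega
  obtain ⟨bb, hbb⟩ : ∃ bb : Fin 1 → K, bb = fun _ => b := ⟨_, rfl⟩
  have hprod1 : ∀ e : Fin 1 → ℤ, ∏ i, (bb i) ^ (e i) = b ^ (e 0) := by
    intro e
    rw [Fin.prod_univ_one, hbb]
  have hD : ∀ p ∈ S, ∃ (_ : Fact p.Prime) (ι : Ω →+* PadicAlgCl p) (h₀ J : ℕ),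
      SX K Ω p (PadicAlgCl p) bb ι h₀ J := by
    intro p hp
    have hF : Fact p.Prime := ⟨hS p hp⟩
    obtain ⟨ι, h₀, J, h⟩ := sx_of (Ω := Ω) p bb (fun i => by rw [hbb]; exact hb) (by
      intro N hN m y hy i
      rw [hprod1] at hy
      have h1 := hind N hN (m 0) y hy
      have hi : i = 0 := Subsingleton.elim _ _
      rw [hi]
      exact h1)
    exact ⟨hF, ι, h₀, J, h⟩
  obtain ⟨A₁, hA₁, hst⟩ := s_tower2 (Ω := Ω) S hD
  obtain ⟨c₀, A₀, hc₀, hdir⟩ := dir_fin (Ω := Ω) b hb hb'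
  rw [← hbb] at hdir ⊢
  obtain ⟨B, hB1, hB⟩ := log_combine A₁ hA₁
  have hBr : (1 : ℝ) ≤ B := by exact_mod_cast hB1
  have hA₁r : (1 : ℝ) ≤ A₁ := by exact_mod_cast hA₁
  refine ⟨min (c₀ / (B : ℝ) ^ A₀) (1 / (A₁ : ℝ) ^ A₁), A₀ + A₁,
    lt_min (by positivity) (by positivity), ?_⟩
  intro N₁ hN₁ hN₁S M hM hMS α hα0 hα
  obtain ⟨D, hDd⟩ : ∃ D, D = dg (RF Ω bb 1 (M * N₁)) α := ⟨_, rfl⟩
  rw [← hDd]
  have hD1 : 1 ≤ D := by rw [hDd]; exact dg_pos _ _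
  have hDr : (1 : ℝ) ≤ D := by exact_mod_cast hD1
  have hN₁r : (1 : ℝ) ≤ N₁ := by exact_mod_cast hN₁
  obtain ⟨h, hh⟩ : ∃ h, h = absLogHeight₁ α := ⟨_, rfl⟩
  rw [← hh]
  have hh0 : 0 ≤ h := by rw [hh]; exact ht_nonneg _
  have hlog1 : ∀ x : ℝ, 3 ≤ x → 1 ≤ Real.log x := by
    intro x hx
    have h3 : Real.exp 1 ≤ x := by
      have h4 := Real.exp_one_lt_d9
      linarith
    have h4 := Real.log_le_log (Real.exp_pos 1) h3
    rwa [Real.log_exp] at h4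
  obtain ⟨L, hL⟩ : ∃ L, L = Real.log (3 * N₁ * D) := ⟨_, rfl⟩
  rw [← hL]
  have hND : (3 : ℝ) * D ≤ 3 * N₁ * D := by nlinarith
  have hL1 : 1 ≤ L := by
    rw [hL]
    exact hlog1 _ (by nlinarith)
  have hLD : Real.log (3 * D) ≤ L := by
    rw [hL]
    exact Real.log_le_log (by positivity) hND
  have hLD1 : 1 ≤ Real.log (3 * D) := hlog1 _ (by linarith)
  have hDh : 0 ≤ (D : ℝ) * h := by positivity
  rcases lt_or_ge 1 ((A₁ * Real.log (3 * D)) ^ A₁ * ((D : ℝ) * h)) with hbig | hsmall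
  · -- the height is large
    refine (min_le_right _ _).trans ?_
    rw [div_le_iff₀ (by positivity)]
    have h1 : (A₁ * Real.log (3 * D)) ^ A₁ ≤ (A₁ : ℝ) ^ A₁ * L ^ (A₀ + A₁) := by
      rw [mul_pow]
      apply mul_le_mul_of_nonneg_left _ (by positivity)
      calc (Real.log (3 * D)) ^ A₁ ≤ L ^ A₁ := pow_le_pow_left₀ (by linarith) hLD A₁
        _ ≤ L ^ (A₀ + A₁) := pow_le_pow_right₀ hL1 (by omega)
    have h2 := mul_le_mul_of_nonneg_right h1 hDh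
    calc (1 : ℝ) ≤ (A₁ * Real.log (3 * D)) ^ A₁ * ((D : ℝ) * h) := hbig.le
      _ ≤ (A₁ : ℝ) ^ A₁ * L ^ (A₀ + A₁) * ((D : ℝ) * h) := h2
      _ = _ := by ring
  · refine (min_le_left _ _).trans ?_
    have hone : (1 : Ω) ∈ GammaS Ω bb (S : Set ℕ) :=
      gam_of_pow 1 le_rfl (fun q hq hq1 => absurd (Nat.dvd_one.1 hq1) hq.one_lt.ne') 0 (by simp)
    obtain ⟨R, hR1, hRle, hst2⟩ := hst D hD1
    obtain ⟨E, hE, γ', hγ', y', hy'0, heq, hEd⟩ := hst2 N₁ hN₁ hN₁S M hM hMS 1 α hone hα0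
      (by rw [← hDd]) (by rw [← hDd, one_mul, ← hh]; exact hsmall)
    rw [← hDd] at hEd
    rw [one_mul] at heq
    obtain ⟨d, hd⟩ : ∃ d, d = dg (RF Ω bb 1 (R * N₁)) y' := ⟨_, rfl⟩
    rw [← hd] at hEd
    have hd1 : 1 ≤ d := by rw [hd]; exact dg_pos _ _
    have hdD : d ≤ D := by
      have : d ≤ E * d := Nat.le_mul_of_pos_left _ hE
      omega
    have hnot : γ' * y' ∉ DivG Ω bb := by
      rw [← heq]
      rintro ⟨k, hk, m, hm⟩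
      exact hα ⟨E * k, Nat.mul_pos hE hk, m, by rw [pow_mul]; exact hm⟩
    have h1 := hdir (R * N₁) (Nat.mul_pos hR1 hN₁) γ' y' (gam_div hγ') hy'0 hnot
    rw [← hd, ← heq, Pool.Agent.H4.RR.absLogHeight_pow Ω _ (int_all K _), ← hh] at h1
    have h2 := hB R N₁ d D hR1 hN₁ hd1 hdD hRle
    rw [← hL] at h2
    have hlog0 : 0 ≤ Real.log (3 * ((R * N₁ : ℕ) : ℝ) * d) := by
      apply Real.log_nonneg
      have e1 : (1 : ℝ) ≤ ((R * N₁ : ℕ) : ℝ) := by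
        exact_mod_cast Nat.mul_pos hR1 hN₁
      have e2 : (1 : ℝ) ≤ d := by exact_mod_cast hd1
      nlinarith
    have hEdr : (d : ℝ) * (E * h) ≤ D * h := by
      have e1 : ((E * d : ℕ) : ℝ) ≤ D := by exact_mod_cast hEd
      push_cast at e1
      calc (d : ℝ) * (E * h) = (E * d) * h := by ring
        _ ≤ D * h := mul_le_mul_of_nonneg_right e1 hh0
    rw [div_le_iff₀ (by positivity)]
    calc c₀ ≤ (d : ℝ) * (E * h) * (Real.log (3 * ((R * N₁ : ℕ) : ℝ) * d)) ^ A₀ := h1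
      _ ≤ D * h * (B * L) ^ A₀ :=
          mul_le_mul hEdr (pow_le_pow_left₀ hlog0 h2 A₀) (pow_nonneg hlog0 _) hDh
      _ = D * h * L ^ A₀ * (B : ℝ) ^ A₀ := by rw [mul_pow]; ring
      _ ≤ D * h * L ^ (A₀ + A₁) * (B : ℝ) ^ A₀ := by
          apply mul_le_mul_of_nonneg_right _ (by positivity)
          exact mul_le_mul_of_nonneg_left (pow_le_pow_right₀ hL1 (by omega)) hDh

end Pool.Agent.H72.PB
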