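import Pool.Agent.H72.PB.Defs

/-!
# Module OrbA: elementary facts on conjugates

`Orb L y` is the orbit of `y` under the group of the automorphisms of `Ω / K` fixing `L`.
* `orb_finite`: `ρ y` is a root of `minpoly K y`.
* `orb_eq`: an orbit is the orbit of each of its elements.
* `orb_mono`: more automorphisms fix the smaller field.
* `orb_smul`, `orb_pow`: `ρ (c y) = c ρ y`, `ρ (y^q) = (ρ y)^q`.
* `orb_map`: `ρ (g y) = g (g⁻¹ ρ g) y` and `g⁻¹ ρ g` fixes `L` (stable).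
* `orb_fix`: an automorphism fixing `L` maps `Orb L y` to itself.
* `tp_map`: if `ω (g y) ∈ Orb L (g y) = g '' Orb L y` then `(g⁻¹ ω) y ∈ Orb L y`.
* `tp_inj`: `x = ρ y`, `x' = ρ' y`, `x^(p^s) = x'^(p^s)`: `x' = ω x`, `ω^(p^s) = 1`, `ρ⁻¹ x' = (ρ⁻¹ ω) y ∈ Orb L y`.
-/

set_option autoImplicit false
set_option linter.unusedSectionVars false

open NumberField IntermediateField

namespace Pool.Agent.H72.PB

variable {K Ω : Type} [Field K] [Field Ω] [Algebra K Ω]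

theorem orb_finite [Algebra.IsAlgebraic K Ω] (L : IntermediateField K Ω) (y : Ω) :
    (Orb L y).Finite := by
  refine Set.Finite.subset (Polynomial.rootSet_finite (minpoly K y) Ω) ?_
  rintro x ⟨ρ, -, rfl⟩
  rw [Polynomial.mem_rootSet]
  refine ⟨minpoly.ne_zero (Algebra.IsIntegral.isIntegral y), ?_⟩
  have h : Polynomial.aeval (ρ y) (minpoly K y) = ρ (Polynomial.aeval y (minpoly K y)) :=
    Polynomial.aeval_algHom_apply ρ.toAlgHom y _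
  rw [h, minpoly.aeval, map_zero]

theorem orb_self (L : IntermediateField K Ω) (y : Ω) : y ∈ Orb L y :=
  ⟨AlgEquiv.refl, fun _ _ => rfl, rfl⟩

theorem orb_symm_fix {L : IntermediateField K Ω} {ρ : Ω ≃ₐ[K] Ω} (h : ∀ z ∈ L, ρ z = z) :
    ∀ z ∈ L, ρ.symm z = z := by
  intro z hz
  conv_lhs => rw [← h z hz]
  exact ρ.symm_apply_apply z

theorem orb_eq {L : IntermediateField K Ω} {x y : Ω} (h : x ∈ Orb L y) : Orb L x = Orb L y := by
  obtain ⟨ρ, hρ, rfl⟩ := h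
  ext z
  constructor
  · rintro ⟨σ, hσ, rfl⟩
    exact ⟨ρ.trans σ, fun w hw => by rw [AlgEquiv.trans_apply, hρ w hw, hσ w hw], rfl⟩
  · rintro ⟨σ, hσ, rfl⟩
    refine ⟨ρ.symm.trans σ, fun w hw => ?_, ?_⟩
    · rw [AlgEquiv.trans_apply, orb_symm_fix hρ w hw, hσ w hw]
    · rw [AlgEquiv.trans_apply, ρ.symm_apply_apply]

theorem dg_pos [Algebra.IsAlgebraic K Ω] (L : IntermediateField K Ω) (y : Ω) : 0 < dg L y :=
  (Set.ncard_pos (orb_finite L y)).2 ⟨y, orb_self L y⟩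

theorem orb_mono {L₁ L₂ : IntermediateField K Ω} (h : L₁ ≤ L₂) (y : Ω) :
    Orb L₂ y ⊆ Orb L₁ y := by
  rintro x ⟨ρ, hρ, rfl⟩
  exact ⟨ρ, fun z hz => hρ z (h hz), rfl⟩

theorem dg_mono [Algebra.IsAlgebraic K Ω] {L₁ L₂ : IntermediateField K Ω} (h : L₁ ≤ L₂) (y : Ω) :
    dg L₂ y ≤ dg L₁ y :=
  Set.ncard_le_ncard (orb_mono h y) (orb_finite L₁ y)

theorem orb_smul {L : IntermediateField K Ω} {c : Ω} (hc : c ∈ L) (y : Ω) :
    Orb L (c * y) = (fun x => c * x) '' Orb L y := by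
  ext x
  constructor
  · rintro ⟨ρ, hρ, rfl⟩
    exact ⟨ρ y, ⟨ρ, hρ, rfl⟩, by rw [map_mul, hρ c hc]⟩
  · rintro ⟨_, ⟨ρ, hρ, rfl⟩, rfl⟩
    exact ⟨ρ, hρ, by rw [map_mul, hρ c hc]⟩

theorem dg_smul {L : IntermediateField K Ω} {c : Ω} (hc : c ∈ L) (hc0 : c ≠ 0) (y : Ω) :
    dg L (c * y) = dg L y := by
  unfold dg
  rw [orb_smul hc]
  exact Set.ncard_image_of_injective _ (mul_right_injective₀ hc0)

theorem orb_pow (L : IntermediateField K Ω) (y : Ω) (q : ℕ) :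
    Orb L (y ^ q) = (fun x => x ^ q) '' Orb L y := by
  ext x
  constructor
  · rintro ⟨ρ, hρ, rfl⟩
    exact ⟨ρ y, ⟨ρ, hρ, rfl⟩, by rw [map_pow]⟩
  · rintro ⟨_, ⟨ρ, hρ, rfl⟩, rfl⟩
    exact ⟨ρ, hρ, by rw [map_pow]⟩

theorem orb_map {L : IntermediateField K Ω} (hL : ∀ σ : Ω ≃ₐ[K] Ω, ∀ x ∈ L, σ x ∈ L)
    (g : Ω ≃ₐ[K] Ω) (y : Ω) : Orb L (g y) = g '' Orb L y := by
  ext x
  constructor
  · rintro ⟨ρ, hρ, rfl⟩
    refine ⟨g.symm (ρ (g y)), ⟨(g.trans ρ).trans g.symm, fun z hz => ?_, rfl⟩,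
      g.apply_symm_apply _⟩
    rw [AlgEquiv.trans_apply, AlgEquiv.trans_apply, hρ _ (hL g z hz), g.symm_apply_apply]
  · rintro ⟨_, ⟨ρ, hρ, rfl⟩, rfl⟩
    refine ⟨(g.symm.trans ρ).trans g, fun z hz => ?_, ?_⟩
    · rw [AlgEquiv.trans_apply, AlgEquiv.trans_apply, hρ _ (hL g.symm z hz), g.apply_symm_apply]
    · rw [AlgEquiv.trans_apply, AlgEquiv.trans_apply, g.symm_apply_apply]

theorem dg_map {L : IntermediateField K Ω} (hL : ∀ σ : Ω ≃ₐ[K] Ω, ∀ x ∈ L, σ x ∈ L)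
    (g : Ω ≃ₐ[K] Ω) (y : Ω) : dg L (g y) = dg L y := by
  unfold dg
  rw [orb_map hL]
  exact Set.ncard_image_of_injective _ g.injective

theorem orb_fix {L : IntermediateField K Ω} (g : Ω ≃ₐ[K] Ω) (hg : ∀ z ∈ L, g z = z) {x y : Ω}
    (hx : x ∈ Orb L y) : g x ∈ Orb L y := by
  obtain ⟨ρ, hρ, rfl⟩ := hx
  exact ⟨ρ.trans g, fun z hz => by rw [AlgEquiv.trans_apply, hρ z hz, hg z hz], rfl⟩

theorem tp_smul {p : ℕ} {L : IntermediateField K Ω} {c y : Ω} (hc : c ∈ L) (hc0 : c ≠ 0)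
    (h : TP p L y) : TP p L (c * y) := by
  intro ω k hω hmem
  rw [orb_smul hc] at hmem
  obtain ⟨x, hx, hx2⟩ := hmem
  refine h ω k hω ?_
  have h1 : c * x = c * (ω * y) := by
    rw [show c * x = ω * (c * y) from hx2]; ring
  rw [← mul_left_cancel₀ hc0 h1]
  exact hx

theorem tp_map {p : ℕ} {L : IntermediateField K Ω} (hL : ∀ σ : Ω ≃ₐ[K] Ω, ∀ x ∈ L, σ x ∈ L)
    (g : Ω ≃ₐ[K] Ω) {y : Ω} (h : TP p L y) : TP p L (g y) := by
  intro ω k hω hmem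
  rw [orb_map hL] at hmem
  obtain ⟨x, hx, hx2⟩ := hmem
  have h1 : x = g.symm ω * y := by
    rw [← g.symm_apply_apply x, hx2, map_mul, g.symm_apply_apply]
  rw [h1] at hx
  have h2 := h (g.symm ω) k (by rw [← map_pow, hω, map_one]) hx
  rw [← g.apply_symm_apply ω, h2, map_one]

/-- under `TP` the map `x ↦ x^(p^s)` is injective on the conjugates -/
theorem tp_inj {p : ℕ} {L : IntermediateField K Ω} {y : Ω} (hy : y ≠ 0) (h : TP p L y)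
    (s : ℕ) :
    Set.InjOn (fun x : Ω => x ^ (p ^ s)) (Orb L y) := by
  rintro _ ⟨ρ, hρ, rfl⟩ _ ⟨ρ', hρ', rfl⟩ hxx
  have hxx' : (ρ y) ^ (p ^ s) = (ρ' y) ^ (p ^ s) := hxx
  have h1 : (ρ.symm (ρ' y) / y) ^ (p ^ s) = 1 := by
    rw [div_pow, ← map_pow, ← hxx', ← map_pow, ρ.symm_apply_apply,
      div_self (pow_ne_zero _ hy)]
  have h2 : ρ.symm (ρ' y) / y * y ∈ Orb L y := by
    rw [div_mul_cancel₀ _ hy]
    exact ⟨ρ'.trans ρ.symm, fun z hz => by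
      rw [AlgEquiv.trans_apply, hρ' z hz, orb_symm_fix hρ z hz], rfl⟩
  have h3 := h _ s h1 h2
  have h4 : ρ.symm (ρ' y) = y := by
    rw [div_eq_one_iff_eq hy] at h3
    exact h3
  rw [← ρ.apply_symm_apply (ρ' y), h4]

end Pool.Agent.H72.PB
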