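import Pool.Agent.H72.RM.MetricA

/-!
# Module PadicProd2: the product formula with individual `p`-adic bounds

Exactly the proof of `padic_prod` in `Pool/Agent/H72/RM/MetricA.lean` (read it; the lemmas
`ma_coprime`, `ma_norm_nat` are private there, copy them under new names), with the bound
`‖κ δ‖ ≤ B κ` for every embedding `κ : E → C` in place of `≤ B` on `Y` and `≤ 1` elsewhere:
`‖N(δ)‖_p = ∏_κ ‖κ δ‖ ≤ ∏_κ B κ`.
-/

set_option autoImplicit false
set_option linter.unusedSectionVars false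

open NumberField

namespace Pool.Agent.H72.PB

open Pool.Agent.H72.RM

variable {p : ℕ} [Fact p.Prime] {C : Type} [NormedField C] [NormedAlgebra ℚ_[p] C]
  [IsUltrametricDist C] [IsAlgClosed C] [CharZero C]

theorem pp2_coprime (E : Type) [Field E] [NumberField E] (I : Ideal (𝓞 E)) (hI : I ≠ ⊥)
    (hcop : IsCoprime I (Ideal.span {(p : 𝓞 E)})) : Nat.Coprime (Ideal.absNorm I) p := by
  rw [Nat.coprime_comm, (Fact.out : p.Prime).coprime_iff_not_dvd]
  intro hdvd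
  have : Finite (𝓞 E ⧸ I) := Ideal.finiteQuotientOfFreeOfNeBot I hI
  have h1 : p ∣ Nat.card (𝓞 E ⧸ I) := by
    rw [Ideal.absNorm_apply, Submodule.cardQuot_apply] at hdvd
    exact hdvd
  obtain ⟨x, hx⟩ := exists_prime_addOrderOf_dvd_card' p h1
  obtain ⟨a, ha, b, hb, hab⟩ := Ideal.isCoprime_iff_exists.1 hcop
  obtain ⟨w, hw⟩ := Ideal.mem_span_singleton'.1 hb
  have h2 : (p : 𝓞 E ⧸ I) * x = 0 := by
    rw [← nsmul_eq_mul, ← hx]
    exact addOrderOf_nsmul_eq_zero x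
  have h3 : x = 0 := by
    have e1 : (1 : 𝓞 E ⧸ I) = Ideal.Quotient.mk I w * (p : 𝓞 E ⧸ I) := by
      have e2 : (1 : 𝓞 E) = a + w * (p : 𝓞 E) := by rw [hw, hab]
      have e3 := congrArg (Ideal.Quotient.mk I) e2
      rw [map_add, Ideal.Quotient.eq_zero_iff_mem.2 ha, zero_add, map_mul, map_one,
        map_natCast] at e3
      exact e3
    calc x = 1 * x := (one_mul x).symm
      _ = Ideal.Quotient.mk I w * ((p : 𝓞 E ⧸ I) * x) := by rw [e1, mul_assoc]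
      _ = 0 := by rw [h2, mul_zero]
  rw [h3, addOrderOf_zero] at hx
  exact (Fact.out : p.Prime).one_lt.ne hx

theorem pp2_norm_nat (n : ℕ) (hn : n ≠ 0) :
    ‖(n : ℚ_[p])‖ = ((p : ℝ) ^ (padicValNat p n))⁻¹ := by
  have h1 : (n : ℚ_[p]) ≠ 0 := by exact_mod_cast hn
  rw [Padic.norm_eq_zpow_neg_valuation h1, Padic.valuation_natCast, zpow_neg, zpow_natCast]

theorem padic_prod2 (E : Type) [Field E] [NumberField E] (δ : 𝓞 E) (hδ : δ ≠ 0)
    (I : Ideal (𝓞 E)) (hI : δ ∈ I) (hcop : IsCoprime I (Ideal.span {(p : 𝓞 E)}))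
    (B : (E →+* C) → ℝ) (hB : ∀ κ, ‖κ (δ : E)‖ ≤ B κ) :
    (Ideal.absNorm I : ℝ) ≤ (∏ τ : E →+* ℂ, ‖τ (δ : E)‖) * ∏ κ : E →+* C, B κ := by
  classical
  have hIb : I ≠ ⊥ := by
    intro h
    rw [h, Ideal.mem_bot] at hI
    exact hδ hI
  have hN0 : Algebra.norm ℤ δ ≠ 0 := Algebra.norm_ne_zero_iff.2 hδ
  set n : ℕ := (Algebra.norm ℤ δ).natAbs with hn
  have hn0 : n ≠ 0 := Int.natAbs_ne_zero.2 hN0
  -- the archimedean product
  have harch : (n : ℝ) = ∏ τ : E →+* ℂ, ‖τ (δ : E)‖ := by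
    have h5 : (((Algebra.norm ℤ δ : ℤ) : ℚ) : ℂ) = ∏ τ : E →ₐ[ℚ] ℂ, τ (δ : E) := by
      rw [Algebra.coe_norm_int]
      exact Algebra.norm_eq_prod_embeddings ℚ ℂ (δ : E)
    have h6 : (n : ℝ) = ‖(((Algebra.norm ℤ δ : ℤ) : ℚ) : ℂ)‖ := by
      push_cast
      rw [Complex.norm_intCast, hn, Nat.cast_natAbs, Int.cast_abs]
    rw [h6, h5, norm_prod]
    exact (Fintype.prod_equiv (RingHom.equivRatAlgHom E ℂ) (fun τ : E →+* ℂ => ‖τ (δ : E)‖)
      (fun τ : E →ₐ[ℚ] ℂ => ‖τ (δ : E)‖) (fun τ => rfl)).symm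
  -- the p-adic product
  have hpad : ‖(n : ℚ_[p])‖ ≤ ∏ κ : E →+* C, B κ := by
    have h5 : (((Algebra.norm ℤ δ : ℤ) : ℚ) : C) = ∏ τ : E →ₐ[ℚ] C, τ (δ : E) := by
      rw [Algebra.coe_norm_int]
      exact Algebra.norm_eq_prod_embeddings ℚ C (δ : E)
    have h6 : ‖(n : ℚ_[p])‖ = ‖(((Algebra.norm ℤ δ : ℤ) : ℚ) : C)‖ := by
      have e1 : (((Algebra.norm ℤ δ : ℤ) : ℚ) : C) = algebraMap ℚ_[p] C ((Algebra.norm ℤ δ : ℤ) : ℚ_[p]) := by
        rw [map_intCast]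
        push_cast
        rfl
      rw [e1, norm_algebraMap']
      rcases Int.natAbs_eq (Algebra.norm ℤ δ) with h | h
      · rw [h, ← hn]
        push_cast
        rfl
      · rw [h, ← hn]
        push_cast
        rw [norm_neg]
    rw [h6, h5, norm_prod]
    rw [← Fintype.prod_equiv (RingHom.equivRatAlgHom E C) (fun κ : E →+* C => ‖κ (δ : E)‖)
      (fun τ : E →ₐ[ℚ] C => ‖τ (δ : E)‖) (fun τ => rfl)]
    exact Finset.prod_le_prod (fun κ _ => norm_nonneg _) (fun κ _ => hB κ)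
  -- divisibility
  have hd1 : Ideal.absNorm I ∣ n := by
    have := Ideal.absNorm_dvd_norm_of_mem hI
    exact Int.natCast_dvd.1 this
  have hd2 : p ^ padicValNat p n ∣ n := pow_padicValNat_dvd
  have hco : Nat.Coprime (Ideal.absNorm I) (p ^ padicValNat p n) :=
    (pp2_coprime E I hIb hcop).pow_right _
  have hd3 : Ideal.absNorm I * p ^ padicValNat p n ≤ n :=
    Nat.le_of_dvd (Nat.pos_of_ne_zero hn0) (hco.mul_dvd_of_dvd_of_dvd hd1 hd2)
  have hp0 : (0 : ℝ) < (p : ℝ) ^ padicValNat p n := by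
    have : (0 : ℝ) < p := by exact_mod_cast (Fact.out : p.Prime).pos
    positivity
  have hd4 : (Ideal.absNorm I : ℝ) ≤ n * ‖(n : ℚ_[p])‖ := by
    rw [pp2_norm_nat n hn0, ← div_eq_mul_inv, le_div_iff₀ hp0]
    exact_mod_cast hd3
  rw [← harch]
  exact hd4.trans (mul_le_mul_of_nonneg_left hpad (Nat.cast_nonneg n))

end Pool.Agent.H72.PB
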