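import Pool.Agent.H72.PB.ClassGain

/-!
# Module RowGain: the gain for one element

`X = Orb Lb (y^(p^s))`, `w ∈ X`, `w = w₁^(p^s)` with `w₁ ∈ Orb Lb y` (`orb_pow`), `w₁ = h y`, `TP p Lt w₁` (`tp_map`).
* `c_j = Orb Lt (θ^j w)`, `1 ≤ j ≤ p^l`. Since `θ` fixes `Lb` and `Lb ≤ Lt`: `c_j ⊆ X`.
* The classes `c_0 ∋ w, c_1, .., c_(p^l)` are pairwise disjoint: `T = {t : ℤ | (θ^t) w ∈ Orb Lt w}` is a
  subgroup of `ℤ` (if `θ^t w = λ w`, `θ^t' w = λ' w` then `θ^(t+t') w = θ^t λ' w = (θ^t λ' θ^(-t)) λ w`, and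
  `θ^t λ' θ^(-t)` fixes `Lt`, stable; similarly for `-t`), it contains `p^k` (`hθk`), and not `p^l`
  (`hbad`). So `T = p^a ℤ` with `l < a ≤ k` (the generator divides `p^k`), and no `t` with
  `0 < |t| ≤ p^l` lies in `T`. If `c_i` and `c_j` meet, `j < i`, they are equal (`orb_eq`) and
  `θ^(i-j) w ∈ Orb Lt w` (`orb_map` for `θ^j`), a contradiction.
  (Avoiding `ℤ`: if `0 < t ≤ p^l` and `θ^t w ∈ Orb Lt w`, then also for all multiples of `t`, all sums and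
  differences; `gcd (t, p^k) = p^a'` with `p^a' ≤ t ≤ p^l`, so `p^a' ∣ p^l`, a contradiction to `hbad`.)
* For `x ∈ X` not in any `c_j` (`j ≥ 1`), `x ≠ w`: `‖a - b‖ ≤ max ‖a‖ ‖b‖ ≤ max(1,‖a‖) max(1,‖b‖)`.
* For `c_j`: `c_j = θ^j '' Orb Lt w` (`orb_map`) `= {(θ^j v)^(p^s) : v ∈ V}`, `V = Orb Lt w₁` as a finset, and
  `v ↦ (θ^j v)^(p^s)` is injective on `V` (`tp_inj`). So with `g = κ γ ^ (p^s)`
  `∏_{x ∈ c_j} ‖κ(γ^q w) - κ(γ^q x)‖ = ∏_{v ∈ V} ‖g‖ ‖(κ w₁)^q - (κ (θ^j v))^q‖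
   ≤ ρ^q ∏_{v ∈ V} ‖g‖ (max ‖κ w₁‖ ‖κ v‖)^q` (`class_gain`), and
  `‖g‖ max(‖κ w₁‖,‖κ v‖)^q = max(‖κ(γ^q w)‖, ‖κ(γ^q x)‖) ≤ max(1,..) max(1,..)` for `x = (θ^j v)^q`
  (`norm_theta`: `‖κ (θ^j v)‖ = ‖κ v‖`). `ρ^q ≤ exp(-(log p)/2)` (`hρs`).
Multiply over `X \ {w}`: the `p^l` classes give the factor `exp(-(log p)/2)^(p^l)`.
-/

set_option autoImplicit false
set_option linter.unusedSectionVars false

open NumberField IntermediateField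

namespace Pool.Agent.H72.PB

open Pool.Agent.H72.RM Pool.Agent.H72.RG

variable {p : ℕ} [Fact p.Prime] {C : Type} [NormedField C] [NormedAlgebra ℚ_[p] C]
  [IsUltrametricDist C] [IsAlgClosed C] [Algebra.IsAlgebraic ℚ_[p] C] [IsoEnv p C]
  {K Ω : Type} [Field K] [NumberField K] [Field Ω] [CharZero Ω] [Algebra K Ω] [IsGalois K Ω]

omit [NumberField K] [CharZero Ω] [IsGalois K Ω] in
theorem rp_add (Lt : IntermediateField K Ω)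
    (hLt : ∀ σ : Ω ≃ₐ[K] Ω, ∀ x ∈ Lt, σ x ∈ Lt) (θ : Ω ≃ₐ[K] Ω) (w : Ω) (t t' : ℕ)
    (h : (θ ^ t) w ∈ Orb Lt w) (h' : (θ ^ t') w ∈ Orb Lt w) : (θ ^ (t + t')) w ∈ Orb Lt w := by
  rw [pow_add, AlgEquiv.mul_apply, ← orb_eq h, orb_map hLt]
  exact ⟨_, h', rfl⟩

omit [NumberField K] [CharZero Ω] [IsGalois K Ω] in
theorem rp_sub (Lt : IntermediateField K Ω)
    (hLt : ∀ σ : Ω ≃ₐ[K] Ω, ∀ x ∈ Lt, σ x ∈ Lt) (θ : Ω ≃ₐ[K] Ω) (w : Ω) (t t' : ℕ)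
    (h : (θ ^ t) w ∈ Orb Lt w) (h' : (θ ^ (t + t')) w ∈ Orb Lt w) : (θ ^ t') w ∈ Orb Lt w := by
  rw [pow_add, AlgEquiv.mul_apply, ← orb_eq h, orb_map hLt] at h'
  obtain ⟨z, hz, hz2⟩ := h'
  have h3 : z = (θ ^ t') w := (θ ^ t).injective hz2
  rw [← h3]
  exact hz

omit [NumberField K] [CharZero Ω] [IsGalois K Ω] in
theorem rp_mul (Lt : IntermediateField K Ω)
    (hLt : ∀ σ : Ω ≃ₐ[K] Ω, ∀ x ∈ Lt, σ x ∈ Lt) (θ : Ω ≃ₐ[K] Ω) (w : Ω) (t : ℕ)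
    (h : (θ ^ t) w ∈ Orb Lt w) (m : ℕ) : (θ ^ (t * m)) w ∈ Orb Lt w := by
  induction m with
  | zero => simpa using orb_self Lt w
  | succ m ih =>
    rw [Nat.mul_succ]
    exact rp_add Lt hLt θ w _ _ ih h

omit [NumberField K] [CharZero Ω] [IsGalois K Ω] in
theorem rp_gcd (Lt : IntermediateField K Ω)
    (hLt : ∀ σ : Ω ≃ₐ[K] Ω, ∀ x ∈ Lt, σ x ∈ Lt) (θ : Ω ≃ₐ[K] Ω) (w : Ω) (m n : ℕ) :
    (θ ^ m) w ∈ Orb Lt w → (θ ^ n) w ∈ Orb Lt w → (θ ^ (Nat.gcd m n)) w ∈ Orb Lt w := by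
  induction m, n using Nat.gcd.induction with
  | H0 n => intro _ h; rwa [Nat.gcd_zero_left]
  | H1 m n hm ih =>
    intro h1 h2
    rw [Nat.gcd_rec]
    refine ih ?_ h1
    refine rp_sub Lt hLt θ w (m * (n / m)) (n % m) (rp_mul Lt hLt θ w m h1 _) ?_
    rw [Nat.div_add_mod]
    exact h2

omit [NumberField K] [CharZero Ω] [IsGalois K Ω] in
/-- small powers of `θ` move the class of `w` if `θ^(p^l)` does -/
theorem row_period (Lt : IntermediateField K Ω)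
    (hLt : ∀ σ : Ω ≃ₐ[K] Ω, ∀ x ∈ Lt, σ x ∈ Lt) (θ : Ω ≃ₐ[K] Ω) (p : ℕ) (hp : p.Prime) (k l : ℕ)
    (hθk : ∀ x ∈ Lt, (θ ^ (p ^ k)) x = x) (w : Ω) (hbad : (θ ^ (p ^ l)) w ∉ Orb Lt w) (t : ℕ)
    (ht0 : 1 ≤ t) (ht : t ≤ p ^ l) : (θ ^ t) w ∉ Orb Lt w := by
  intro h
  have hk : (θ ^ (p ^ k)) w ∈ Orb Lt w := orb_fix (θ ^ (p ^ k)) hθk (orb_self Lt w)
  have hg := rp_gcd Lt hLt θ w t (p ^ k) h hk
  obtain ⟨a, _, ha⟩ := (Nat.dvd_prime_pow hp).mp (Nat.gcd_dvd_right t (p ^ k))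
  have h1 : p ^ a ∣ t := ha ▸ Nat.gcd_dvd_left t (p ^ k)
  have h2 : p ^ a ≤ p ^ l := (Nat.le_of_dvd ht0 h1).trans ht
  have h3 : a ≤ l := (Nat.pow_le_pow_iff_right hp.one_lt).mp h2
  obtain ⟨c, hc⟩ := pow_dvd_pow p h3
  rw [ha] at hg
  apply hbad
  rw [hc]
  exact rp_mul Lt hLt θ w _ hg c

/-- the trivial bound of one factor -/
theorem rg_triv (a b : C) : ‖a - b‖ ≤ max 1 ‖a‖ * max 1 ‖b‖ := by
  have h1 : ‖a - b‖ ≤ max ‖a‖ ‖b‖ := by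
    rw [sub_eq_add_neg, ← norm_neg b]
    exact IsUltrametricDist.norm_add_le_max _ _
  refine h1.trans (max_le ?_ ?_)
  · calc ‖a‖ ≤ max 1 ‖a‖ := le_max_right _ _
      _ = max 1 ‖a‖ * 1 := (mul_one _).symm
      _ ≤ max 1 ‖a‖ * max 1 ‖b‖ :=
        mul_le_mul_of_nonneg_left (le_max_left _ _) (le_trans zero_le_one (le_max_left _ _))
  · calc ‖b‖ ≤ max 1 ‖b‖ := le_max_right _ _
      _ = 1 * max 1 ‖b‖ := (one_mul _).symm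
      _ ≤ max 1 ‖a‖ * max 1 ‖b‖ :=
        mul_le_mul_of_nonneg_right (le_max_left _ _) (le_trans zero_le_one (le_max_left _ _))

omit [IsUltrametricDist C] [IsAlgClosed C] [Algebra.IsAlgebraic ℚ_[p] C] [IsoEnv p C] in
theorem rg_max (a b : ℝ) : max a b ≤ max 1 a * max 1 b := by
  refine max_le ?_ ?_
  · calc a ≤ max 1 a := le_max_right _ _
      _ = max 1 a * 1 := (mul_one _).symm
      _ ≤ max 1 a * max 1 b :=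
        mul_le_mul_of_nonneg_left (le_max_left _ _) (le_trans zero_le_one (le_max_left _ _))
  · calc b ≤ max 1 b := le_max_right _ _
      _ = 1 * max 1 b := (one_mul _).symm
      _ ≤ max 1 a * max 1 b :=
        mul_le_mul_of_nonneg_right (le_max_left _ _) (le_trans zero_le_one (le_max_left _ _))

theorem row_gain [DecidableEq Ω] (κ : Ω →+* C) (Lb Lt : IntermediateField K Ω) (hle : Lb ≤ Lt)
    (hLt : ∀ σ : Ω ≃ₐ[K] Ω, ∀ x ∈ Lt, σ x ∈ Lt)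
    (θ : Ω ≃ₐ[K] Ω) (hθb : ∀ x ∈ Lb, θ x = x) (k : ℕ) (hθk : ∀ x ∈ Lt, (θ ^ (p ^ k)) x = x)
    (τ : C ≃ₐ[ℚ_[p]] C) (hτ : ∀ x : Ω, κ (θ x) = τ (κ x)) (ρ : ℝ) (hρ0 : 0 < ρ)
    (hcl : ∀ x ∈ Lt, x ≠ 0 → ‖τ (κ x) / κ x - 1‖ ≤ ρ) (s : ℕ)
    (hs : ∀ η : C, η ^ (p ^ s) = 1 → ‖η - 1‖ ≤ ρ)
    (hρs : ρ ^ (p ^ s) ≤ Real.exp (-(Real.log p / 2)))
    (γ y : Ω) (hy0 : y ≠ 0) (hT : TP p Lt y) (X : Finset Ω)
    (hX : (X : Set Ω) = Orb Lb (y ^ (p ^ s))) (w : Ω) (hw : w ∈ X) (l : ℕ)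
    (hbad : (θ ^ (p ^ l)) w ∉ Orb Lt w) :
    ∏ x ∈ X.erase w, ‖κ (γ ^ (p ^ s) * w) - κ (γ ^ (p ^ s) * x)‖ ≤
      Real.exp (-((p : ℝ) ^ l * Real.log p / 2)) *
        ∏ x ∈ X.erase w, (max 1 ‖κ (γ ^ (p ^ s) * w)‖ * max 1 ‖κ (γ ^ (p ^ s) * x)‖) := by
  have hp : p.Prime := Fact.out
  have hq0 : p ^ s ≠ 0 := pow_ne_zero _ hp.ne_zero
  have hwX : w ∈ Orb Lb (y ^ (p ^ s)) := by rw [← hX]; exact hw
  rw [orb_pow] at hwX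
  obtain ⟨w₁, hw₁, hww⟩ := hwX
  have hww' : w₁ ^ (p ^ s) = w := hww
  obtain ⟨h, hh, hhy⟩ := hw₁
  have hT1 : TP p Lt w₁ := by rw [← hhy]; exact tp_map hLt h hT
  have hw10 : w₁ ≠ 0 := by
    rw [← hhy]
    exact fun h0 => hy0 ((map_eq_zero_iff h h.injective).mp h0)
  have hw₁ : w₁ ∈ Orb Lb y := ⟨h, hh, hhy⟩
  obtain ⟨F, hF⟩ : ∃ F : Finset Ω, (F : Set Ω) = Orb Lt w₁ :=
    ⟨(orb_finite Lt w₁).toFinset, (orb_finite Lt w₁).coe_toFinset⟩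
  have hFm : ∀ v, v ∈ F ↔ v ∈ Orb Lt w₁ := fun v => by rw [← hF]; exact Iff.rfl
  have hFw : ∀ v ∈ F, v ^ (p ^ s) ∈ Orb Lt w := by
    intro v hv
    rw [← hww', orb_pow]
    exact ⟨v, (hFm v).mp hv, rfl⟩
  have hθbj : ∀ j : ℕ, ∀ x ∈ Lb, (θ ^ j) x = x := by
    intro j x hx
    induction j with
    | zero => simp
    | succ j ih => rw [pow_succ, AlgEquiv.mul_apply, hθb x hx, ih]
  have hXm : ∀ v, v ∈ X ↔ v ∈ Orb Lb (y ^ (p ^ s)) := fun v => by rw [← hX]; exact Iff.rfl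
  -- the classes
  set c : ℕ → Finset Ω := fun j => F.image (fun v => ((θ ^ j) v) ^ (p ^ s)) with hc
  have hcmem : ∀ j x, x ∈ c j → ∃ a ∈ Orb Lt w, (θ ^ j) a = x := by
    intro j x hx
    obtain ⟨v, hv, hvx⟩ := Finset.mem_image.mp hx
    exact ⟨v ^ (p ^ s), hFw v hv, by rw [map_pow]; exact hvx⟩
  have hinj : ∀ j : ℕ, Set.InjOn (fun v => ((θ ^ j) v) ^ (p ^ s)) (F : Set Ω) := by
    intro j a ha b hb hab
    have h1 : (θ ^ j) (a ^ (p ^ s)) = (θ ^ j) (b ^ (p ^ s)) := by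
      rw [map_pow, map_pow]; exact hab
    rw [hF] at ha hb
    exact tp_inj hw10 hT1 s ha hb ((θ ^ j).injective h1)
  have hper := row_period Lt hLt θ p hp k l hθk w hbad
  have hcsub : ∀ j, 1 ≤ j → j ≤ p ^ l → c j ⊆ X.erase w := by
    intro j hj1 hj2 x hx
    rw [Finset.mem_erase]
    constructor
    · intro hxw
      obtain ⟨a, ha, hax⟩ := hcmem j x hx
      have h1 : w ∈ Orb Lt ((θ ^ j) w) := by
        rw [orb_map hLt]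
        exact ⟨a, ha, by rw [hax, hxw]⟩
      apply hper j hj1 hj2
      rw [orb_eq h1]
      exact orb_self Lt _
    · obtain ⟨v, hv, hvx⟩ := Finset.mem_image.mp hx
      rw [hXm, orb_pow]
      refine ⟨(θ ^ j) v, ?_, hvx⟩
      apply orb_fix (θ ^ j) (hθbj j)
      rw [← orb_eq hw₁]
      exact orb_mono hle w₁ ((hFm v).mp hv)
  have hdis0 : ∀ i j, 1 ≤ i → i < j → j ≤ p ^ l → Disjoint (c i) (c j) := by
    intro i j hi hij hj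
    rw [Finset.disjoint_left]
    intro x hx hx'
    obtain ⟨a, ha, hax⟩ := hcmem i x hx
    obtain ⟨b, hb, hbx⟩ := hcmem j x hx'
    have h1 : a = (θ ^ (j - i)) b := by
      apply (θ ^ i).injective
      rw [hax, ← AlgEquiv.mul_apply, ← pow_add, Nat.add_sub_cancel' hij.le, hbx]
    apply hper (j - i) (by omega) (by omega)
    have h2 : Orb Lt a = Orb Lt w := orb_eq ha
    rw [← h2, h1, orb_map hLt, orb_eq hb]
    exact ⟨w, orb_self Lt w, rfl⟩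
  have hdis : ((Finset.Icc 1 (p ^ l) : Finset ℕ) : Set ℕ).PairwiseDisjoint c := by
    intro i hi j hj hij
    rw [Finset.coe_Icc, Set.mem_Icc] at hi hj
    rcases lt_or_gt_of_ne hij with h1 | h1
    · exact hdis0 i j hi.1 h1 hj.2
    · exact (hdis0 j i hj.1 h1 hi.2).symm
  set T : Finset Ω := (Finset.Icc 1 (p ^ l)).biUnion c with hTdef
  have hTsub : T ⊆ X.erase w := by
    intro x hx
    obtain ⟨j, hj, hxj⟩ := Finset.mem_biUnion.mp hx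
    rw [Finset.mem_Icc] at hj
    exact hcsub j hj.1 hj.2 hxj
  set E : ℝ := Real.exp (-(Real.log p / 2)) with hE
  have hE0 : 0 < E := Real.exp_pos _
  have hg0 : ∀ x, 0 ≤ max 1 ‖κ (γ ^ (p ^ s) * w)‖ * max 1 ‖κ (γ ^ (p ^ s) * x)‖ := fun x =>
    mul_nonneg (le_trans zero_le_one (le_max_left _ _)) (le_trans zero_le_one (le_max_left _ _))
  -- one class
  have hclass : ∀ j, ∏ x ∈ c j, ‖κ (γ ^ (p ^ s) * w) - κ (γ ^ (p ^ s) * x)‖ ≤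
      E * ∏ x ∈ c j, (max 1 ‖κ (γ ^ (p ^ s) * w)‖ * max 1 ‖κ (γ ^ (p ^ s) * x)‖) := by
    intro j
    rw [hc]
    simp only
    rw [Finset.prod_image (hinj j), Finset.prod_image (hinj j)]
    have h1 := class_gain κ Lt θ τ hτ ρ hρ0 hcl s hs w₁ F hF w₁ ((hFm w₁).mpr (orb_self Lt w₁)) j
    have h2 : ∀ v ∈ F, ‖κ (γ ^ (p ^ s) * w) - κ (γ ^ (p ^ s) * ((θ ^ j) v) ^ (p ^ s))‖ =
        ‖κ γ‖ ^ (p ^ s) * ‖(κ w₁) ^ (p ^ s) - (κ ((θ ^ j) v)) ^ (p ^ s)‖ := by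
      intro v _
      rw [← hww', map_mul, map_mul, map_pow, map_pow, map_pow, ← mul_sub, norm_mul, norm_pow]
    have h3 : ∀ v ∈ F, ‖κ γ‖ ^ (p ^ s) * (max ‖κ w₁‖ ‖κ v‖) ^ (p ^ s) ≤
        max 1 ‖κ (γ ^ (p ^ s) * w)‖ * max 1 ‖κ (γ ^ (p ^ s) * ((θ ^ j) v) ^ (p ^ s))‖ := by
      intro v _
      have h4 : ‖κ (γ ^ (p ^ s) * w)‖ = ‖κ γ‖ ^ (p ^ s) * ‖κ w₁‖ ^ (p ^ s) := by
        rw [← hww', map_mul, map_pow, map_pow, norm_mul, norm_pow, norm_pow]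
      have h5 : ‖κ (γ ^ (p ^ s) * ((θ ^ j) v) ^ (p ^ s))‖ = ‖κ γ‖ ^ (p ^ s) * ‖κ v‖ ^ (p ^ s) := by
        rw [map_mul, map_pow, map_pow, norm_mul, norm_pow, norm_pow, norm_theta κ θ τ hτ j v]
      have h6 : ‖κ γ‖ ^ (p ^ s) * (max ‖κ w₁‖ ‖κ v‖) ^ (p ^ s) ≤
          max (‖κ γ‖ ^ (p ^ s) * ‖κ w₁‖ ^ (p ^ s)) (‖κ γ‖ ^ (p ^ s) * ‖κ v‖ ^ (p ^ s)) := by
        rcases le_total ‖κ w₁‖ ‖κ v‖ with h7 | h7
        · rw [max_eq_right h7]; exact le_max_right _ _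
        · rw [max_eq_left h7]; exact le_max_left _ _
      rw [h4, h5]
      exact h6.trans (rg_max _ _)
    rw [Finset.prod_congr rfl h2, Finset.prod_mul_distrib]
    calc (∏ _v ∈ F, ‖κ γ‖ ^ (p ^ s)) * ∏ v ∈ F, ‖(κ w₁) ^ (p ^ s) - (κ ((θ ^ j) v)) ^ (p ^ s)‖
        ≤ (∏ _v ∈ F, ‖κ γ‖ ^ (p ^ s)) *
          (ρ ^ (p ^ s) * ∏ v ∈ F, (max ‖κ w₁‖ ‖κ v‖) ^ (p ^ s)) :=
          mul_le_mul_of_nonneg_left h1 (Finset.prod_nonneg fun _ _ => by positivity)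
      _ = ρ ^ (p ^ s) * ∏ v ∈ F, (‖κ γ‖ ^ (p ^ s) * (max ‖κ w₁‖ ‖κ v‖) ^ (p ^ s)) := by
          rw [Finset.prod_mul_distrib]; ring
      _ ≤ E * ∏ v ∈ F, (max 1 ‖κ (γ ^ (p ^ s) * w)‖ *
            max 1 ‖κ (γ ^ (p ^ s) * ((θ ^ j) v) ^ (p ^ s))‖) := by
          refine mul_le_mul hρs (Finset.prod_le_prod (fun v _ => ?_) h3) ?_ hE0.le
          · have : 0 ≤ max ‖κ w₁‖ ‖κ v‖ := le_max_of_le_left (norm_nonneg _)
            positivity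
          · refine Finset.prod_nonneg fun v _ => ?_
            have : 0 ≤ max ‖κ w₁‖ ‖κ v‖ := le_max_of_le_left (norm_nonneg _)
            positivity
  have hTb : ∏ x ∈ T, ‖κ (γ ^ (p ^ s) * w) - κ (γ ^ (p ^ s) * x)‖ ≤
      E ^ (p ^ l) * ∏ x ∈ T, (max 1 ‖κ (γ ^ (p ^ s) * w)‖ * max 1 ‖κ (γ ^ (p ^ s) * x)‖) := by
    rw [hTdef, Finset.prod_biUnion hdis, Finset.prod_biUnion hdis]
    calc ∏ j ∈ Finset.Icc 1 (p ^ l), ∏ x ∈ c j, ‖κ (γ ^ (p ^ s) * w) - κ (γ ^ (p ^ s) * x)‖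
        ≤ ∏ j ∈ Finset.Icc 1 (p ^ l), (E * ∏ x ∈ c j,
            (max 1 ‖κ (γ ^ (p ^ s) * w)‖ * max 1 ‖κ (γ ^ (p ^ s) * x)‖)) :=
          Finset.prod_le_prod (fun j _ => Finset.prod_nonneg fun _ _ => norm_nonneg _)
            fun j _ => hclass j
      _ = _ := by
          rw [Finset.prod_mul_distrib, Finset.prod_const, Nat.card_Icc, Nat.add_sub_cancel]
  have hEe : E ^ (p ^ l) = Real.exp (-((p : ℝ) ^ l * Real.log p / 2)) := by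
    rw [hE, ← Real.exp_nat_mul]
    congr 1
    push_cast
    ring
  rw [← hEe, ← Finset.prod_sdiff hTsub, ← Finset.prod_sdiff hTsub]
  calc (∏ x ∈ X.erase w \ T, ‖κ (γ ^ (p ^ s) * w) - κ (γ ^ (p ^ s) * x)‖) *
        ∏ x ∈ T, ‖κ (γ ^ (p ^ s) * w) - κ (γ ^ (p ^ s) * x)‖
      ≤ (∏ x ∈ X.erase w \ T, (max 1 ‖κ (γ ^ (p ^ s) * w)‖ * max 1 ‖κ (γ ^ (p ^ s) * x)‖)) *
        (E ^ (p ^ l) * ∏ x ∈ T, (max 1 ‖κ (γ ^ (p ^ s) * w)‖ * max 1 ‖κ (γ ^ (p ^ s) * x)‖)) :=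
        mul_le_mul (Finset.prod_le_prod (fun _ _ => norm_nonneg _) fun x _ => rg_triv _ _) hTb
          (Finset.prod_nonneg fun _ _ => norm_nonneg _) (Finset.prod_nonneg fun x _ => hg0 x)
    _ = _ := by ring

end Pool.Agent.H72.PB
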